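import Pool.Agent.H11.BK.IdxF
import Pool.Agent.H72.BD.Idx

/-!
# Module RadK (MP_187c26_nt, THEOREM VK): `Rad` for `K(ξ, x)` over `K(ξ)` and its index

`fA = K(ξ)(x_1, …, x_r)` as an extension of `K(ξ)`, `gA i = x i`.
-/

set_option autoImplicit false

open IntermediateField NumberField

namespace Pool.Agent.H11.BK

open Pool.Agent.H4.OG (intOf mem_intOf)
open Pool.Agent.H72.BE (Gm mon vl md mon_add mon_zero)
open Pool.Agent.H72.BK (Rad)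
open Pool.Agent.H72.BD (ints)

section

/-- Bounds for the conjugates. -/
theorem exists_B {K : Type} [Field K] [NumberField K] {r : ℕ} (b : Fin r → 𝓞 K)
    (hb : ∀ i, b i ≠ 0) : ∃ B : ℕ, 2 ≤ B ∧ (∀ (t : K →+* ℂ) i, ‖t (b i)‖ ≤ B) ∧
      ∀ (t : K →+* ℂ) i, 1 ≤ B * ‖t (b i)‖ := by
  classical
  have hpos : ∀ (t : K →+* ℂ) i, 0 < ‖t (b i)‖ := by
    intro t i
    rw [norm_pos_iff, Ne, map_eq_zero]
    exact_mod_cast hb i
  obtain ⟨N, hN⟩ := exists_nat_ge (∑ t : K →+* ℂ, ∑ i, (‖t (b i)‖ + ‖t (b i)‖⁻¹))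
  have h1 : ∀ (t : K →+* ℂ) i, ‖t (b i)‖ + ‖t (b i)‖⁻¹ ≤ N := by
    intro t i
    have h2 : ‖t (b i)‖ + ‖t (b i)‖⁻¹ ≤ ∑ i, (‖t (b i)‖ + ‖t (b i)‖⁻¹) :=
      Finset.single_le_sum (f := fun i => ‖t (b i)‖ + ‖t (b i)‖⁻¹)
        (fun j _ => by have := hpos t j; positivity) (Finset.mem_univ i)
    have h3 : ∑ i, (‖t (b i)‖ + ‖t (b i)‖⁻¹) ≤
        ∑ t : K →+* ℂ, ∑ i, (‖t (b i)‖ + ‖t (b i)‖⁻¹) :=
      Finset.single_le_sum (f := fun t : K →+* ℂ => ∑ i, (‖t (b i)‖ + ‖t (b i)‖⁻¹))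
        (fun s _ => Finset.sum_nonneg fun j _ => by have := hpos s j; positivity)
        (Finset.mem_univ t)
    exact (h2.trans h3).trans hN
  refine ⟨N + 2, by omega, ?_, ?_⟩
  · intro t i
    have h2 := h1 t i
    have h3 : 0 < ‖t (b i)‖⁻¹ := inv_pos.2 (hpos t i)
    push_cast
    linarith
  · intro t i
    have h2 := h1 t i
    have h3 := hpos t i
    have h4 : ‖t (b i)‖⁻¹ * ‖t (b i)‖ = 1 := inv_mul_cancel₀ h3.ne'
    push_cast
    nlinarith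

variable {K : Type} [Field K] [NumberField K] {r : ℕ} {Ω : Type} [Field Ω] [CharZero Ω]
  [Algebra K Ω] {b : Fin r → 𝓞 K} {n : ℕ} {m : Fin r → ℕ} {ξ : Ω} {x : Fin r → Ω}

/-- `K(ξ)(x_1, …, x_r)` as an extension of `K(ξ)`. -/
noncomputable abbrev fA (K : Type) [Field K] {Ω : Type} [Field Ω] [Algebra K Ω] (ξ : Ω)
    (x : Fin r → Ω) : IntermediateField K⟮ξ⟯ Ω :=
  IntermediateField.adjoin K⟮ξ⟯ (Set.range x)

omit [NumberField K] [CharZero Ω] in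
theorem mem_fA (y : Ω) : y ∈ fA K ξ x ↔ y ∈ FF K ξ x := by
  rw [FF_eq]
  rfl

theorem Sys.fin_fA (h : Sys K b n m ξ x) : FiniteDimensional K⟮ξ⟯ (fA K ξ x) := by
  refine IntermediateField.finiteDimensional_adjoin ?_
  rintro _ ⟨i, rfl⟩
  exact (h.integral_x i).tower_top

theorem Sys.nf_fA (h : Sys K b n m ξ x) : NumberField (fA K ξ x) := by
  have h1 : FiniteDimensional K K⟮ξ⟯ := h.fin_A
  have := h.fin_fA
  have : FiniteDimensional K (fA K ξ x) := FiniteDimensional.trans K K⟮ξ⟯ (fA K ξ x)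
  have : FiniteDimensional ℚ (fA K ξ x) := FiniteDimensional.trans ℚ K (fA K ξ x)
  exact {}

theorem Sys.finrank_fA (h : Sys K b n m ξ x) : Module.finrank K⟮ξ⟯ (fA K ξ x) = ∏ i, m i :=
  (deg_iff (k := K⟮ξ⟯) (β := bA b ξ) h.hm (fun i => by rw [h.hx]; rfl)).2 h.li

theorem Sys.rad (h : Sys K b n m ξ x) [NumberField K⟮ξ⟯] [NumberField (fA K ξ x)] (B : ℕ)
    (hB : 2 ≤ B) (h1 : ∀ (t : K →+* ℂ) i, ‖t (b i)‖ ≤ B)
    (h2 : ∀ (t : K →+* ℂ) i, 1 ≤ B * ‖t (b i)‖) :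
    Rad B (fun i => algebraMap (𝓞 K) K⟮ξ⟯ (b i)) m (fA K ξ x) (gx K⟮ξ⟯ x) where
  hB := hB
  int := fun i => (RingOfIntegers.isIntegral (b i)).map
    ((algebraMap (𝓞 K) K⟮ξ⟯).toIntAlgHom)
  up := fun t i => h1 (t.comp (algebraMap K K⟮ξ⟯)) i
  low := fun t i => h2 (t.comp (algebraMap K K⟮ξ⟯)) i
  pow := fun i => by
    apply Subtype.ext
    exact h.hx i
  deg := h.finrank_fA
  li := (li_gx_iff (k := K⟮ξ⟯) x (fun l : Gm m => vl l)).2 h.li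

theorem Sys.zx_of_RF (_h : Sys K b n m ξ x) [NumberField K⟮ξ⟯] [NumberField (fA K ξ x)]
    [∀ i, NeZero (m i)] {B : ℕ}
    (hr : Rad B (fun i => algebraMap (𝓞 K) K⟮ξ⟯ (b i)) m (fA K ξ x) (gx K⟮ξ⟯ x)) (z : Ω)
    (hz : z ∈ RF K ξ x) : ∃ y ∈ hr.zx, (y : Ω) = z := by
  obtain ⟨S, hS⟩ : ∃ S : Subring Ω, ∀ z, z ∈ S ↔ ∃ y ∈ hr.zx, ((y : fA K ξ x) : Ω) = z := by
    refine ⟨{ carrier := {z | ∃ y ∈ hr.zx, ((y : fA K ξ x) : Ω) = z}
              zero_mem' := ⟨0, zero_mem _, rfl⟩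
              one_mem' := ⟨1, hr.one_mem, rfl⟩
              add_mem' := ?_
              neg_mem' := ?_
              mul_mem' := ?_ }, fun z => Iff.rfl⟩
    · rintro _ _ ⟨y, hy, rfl⟩ ⟨y', hy', rfl⟩
      exact ⟨y * y', hr.mul_mem _ _ hy hy', rfl⟩
    · rintro _ _ ⟨y, hy, rfl⟩ ⟨y', hy', rfl⟩
      exact ⟨y + y', add_mem hy hy', rfl⟩
    · rintro _ ⟨y, hy, rfl⟩
      exact ⟨-y, neg_mem hy, rfl⟩
  have hle : RF K ξ x ≤ S := by
    unfold RF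
    refine sup_le ?_ ?_
    · intro w hw
      have hw' := (mem_intOf _ _).1 hw
      rw [hS]
      refine ⟨algebraMap K⟮ξ⟯ (fA K ξ x) ⟨w, hw'.1⟩ * 1, hr.smul_mem _ ?_ _ hr.one_mem, ?_⟩
      · exact (isIntegral_algHom_iff (IsScalarTower.toAlgHom ℤ K⟮ξ⟯ Ω)
          (algebraMap K⟮ξ⟯ Ω).injective).1 hw'.2
      · rw [mul_one]
        rfl
    · rw [Subring.closure_le]
      rintro _ ⟨i, rfl⟩
      show x i ∈ S
      rw [hS]
      refine ⟨mon (gx K⟮ξ⟯ x) (Pi.single i 1) * 1, hr.mon_mul_mem _ _ hr.one_mem, ?_⟩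
      rw [mul_one, mon_single]
      rfl
  exact (hS z).1 (hle hz)

/-- The index of the elements with bounded denominators of the coordinates. -/
theorem Sys.idx [Algebra.IsAlgebraic K Ω] (h : Sys K b n m ξ x) (hb : ∀ i, b i ≠ 0)
    [NumberField K⟮ξ⟯] [NumberField (fA K ξ x)] [∀ i, NeZero (m i)] {B : ℕ}
    (hr : Rad B (fun i => algebraMap (𝓞 K) K⟮ξ⟯ (b i)) m (fA K ξ x) (gx K⟮ξ⟯ x)) (D E : ℕ)
    (hE : (∏ i, b i) ∣ (E : 𝓞 K)) (c : ℝ) (hc : 0 ≤ c)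
    (hidx : (idxD K D x : ℝ) ≤ Real.exp (c * ∏ i, m i)) :
    ((hr.zd (D * E)).relIndex (ints (fA K ξ x)) : ℝ) ≤
      Real.exp (c * Module.finrank ℚ (fA K ξ x)) := by
  classical
  obtain ⟨h1, h2⟩ := idx_F h hb D E hE
  obtain ⟨f, hf⟩ : ∃ f : fA K ξ x →+ Ω, f = ((fA K ξ x).val : fA K ξ x →+ Ω) := ⟨_, rfl⟩
  have hinj : Function.Injective f := by
    rw [hf]
    exact (fA K ξ x).val.injective
  have hfv : ∀ y : fA K ξ x, f y = (y : Ω) := fun y => by rw [hf]; rfl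
  obtain ⟨I, hI⟩ : ∃ I, I = (intOf (FF K ξ x)).toAddSubgroup := ⟨_, rfl⟩
  have hmap : (ints (fA K ξ x)).map f = I := by
    rw [hI]
    ext z
    constructor
    · rintro ⟨y, hy, rfl⟩
      rw [hfv]
      have hy' : IsIntegral ℤ y := hy
      refine (mem_intOf _ _).2 ⟨(mem_fA _).1 y.2, ?_⟩
      exact hy'.map (IsScalarTower.toAlgHom ℤ (fA K ξ x) Ω)
    · intro hz
      have hz' := (mem_intOf _ _).1 hz
      refine ⟨⟨z, (mem_fA _).2 hz'.1⟩, ?_, hfv _⟩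
      exact (isIntegral_algHom_iff (IsScalarTower.toAlgHom ℤ (fA K ξ x) Ω)
        (algebraMap (fA K ξ x) Ω).injective).1 hz'.2
  have h3 : ordF K (D * E) ξ x ⊓ I ≤ (hr.zd (D * E)).map f := by
    rintro z ⟨hz1, hz2⟩
    rw [← hmap] at hz2
    obtain ⟨y, hy, rfl⟩ := hz2
    refine ⟨y, ?_, rfl⟩
    have h4 : ((D * E : ℕ) : Ω) * f y ∈ RF K ξ x := hz1
    obtain ⟨w, hw, hwz⟩ := h.zx_of_RF hr _ h4
    have h5 : w = ((D * E : ℕ) : K⟮ξ⟯) • y := by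
      apply Subtype.ext
      rw [hwz, hfv, Algebra.smul_def, map_natCast]
      rfl
    intro l
    have h6 := hw l
    rw [h5, map_smul, Pi.smul_apply, smul_eq_mul] at h6
    exact h6
  have h4 : (hr.zd (D * E)).relIndex (ints (fA K ξ x)) ≤ (ordF K (D * E) ξ x).relIndex I := by
    rw [← AddSubgroup.relIndex_map_map_of_injective _ _ hinj, hmap]
    have h5 := AddSubgroup.relIndex_dvd_of_le_left I h3
    rw [AddSubgroup.inf_relIndex_right] at h5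
    rw [← hI] at h1
    exact Nat.le_of_dvd (Nat.pos_of_ne_zero h1) h5
  rw [← hI] at h2
  have h5 := idxD_mul_le h hb D E
  have h6 : (hr.zd (D * E)).relIndex (ints (fA K ξ x)) ≤
      idxD K D x ^ Module.finrank K (AA K ξ) :=
    (h4.trans h2).trans (Nat.pow_le_pow_left h5 _)
  have h7 : ((hr.zd (D * E)).relIndex (ints (fA K ξ x)) : ℝ) ≤
      (idxD K D x : ℝ) ^ Module.finrank K (AA K ξ) := by exact_mod_cast h6
  refine h7.trans ((pow_le_pow_left₀ (Nat.cast_nonneg _) hidx _).trans ?_)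
  rw [← Real.exp_nat_mul]
  apply Real.exp_le_exp.2
  have h8 : Module.finrank ℚ (fA K ξ x) =
      Module.finrank ℚ K * (Module.finrank K (AA K ξ) * ∏ i, m i) := by
    have e1 : Module.finrank K (AA K ξ) * Module.finrank K⟮ξ⟯ (fA K ξ x) =
      Module.finrank K (fA K ξ x) := Module.finrank_mul_finrank K K⟮ξ⟯ (fA K ξ x)
    rw [← h.finrank_fA, e1, Module.finrank_mul_finrank]
  have h9 : 1 ≤ Module.finrank ℚ K := Module.finrank_pos
  have h10 : (1 : ℝ) ≤ Module.finrank ℚ K := by exact_mod_cast h9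
  rw [h8]
  push_cast
  have h11 : 0 ≤ (Module.finrank K (AA K ξ) : ℝ) * (c * ∏ i, (m i : ℝ)) := by positivity
  calc (Module.finrank K (AA K ξ) : ℝ) * (c * ∏ i, (m i : ℝ)) =
        1 * ((Module.finrank K (AA K ξ) : ℝ) * (c * ∏ i, (m i : ℝ))) := (one_mul _).symm
    _ ≤ Module.finrank ℚ K * ((Module.finrank K (AA K ξ) : ℝ) * (c * ∏ i, (m i : ℝ))) :=
        mul_le_mul_of_nonneg_right h10 h11
    _ = _ := by ring

end

end Pool.Agent.H11.BK
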