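import Pool.Agent.H11.BK.Fro

/-!
# Module Tau (MP_187c26_nt, THEOREM VK): powers of a Frobenius automorphism

`k` a Galois number field which contains `A = K(ξ)`, `s` a Frobenius automorphism of `k`, `σ` its restriction to `A`. `s ^ (e !)` fixes all
elements of degree at most `e` over `ℚ` (it permutes the conjugates). So `τ = s ^ f` fixes `K` and the `W`-th roots of the elements of `K` if
`(W [K : ℚ]) !` divides `f`. `σ ^ f a ≡ a ^ (p ^ f)` modulo `𝔮 𝓞 A`.
-/

set_option autoImplicit false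

open IntermediateField NumberField Polynomial

namespace Pool.Agent.H11.BK

open Pool.Agent.H72.BK (FrobK)

/-- Iterates of a Frobenius automorphism. -/
theorem frobK_iter {K A : Type} [Field K] [NumberField K] [Field A] [NumberField A] [Algebra K A]
    {𝔮 : Ideal (𝓞 K)} {p : ℕ} {σ : A →+* A} (h : FrobK K A 𝔮 p σ) (f : ℕ) (a : 𝓞 A) :
    ∃ c : 𝓞 A, c ∈ 𝔮.map (algebraMap (𝓞 K) (𝓞 A)) ∧
      (σ ^ f) (a : A) = (a : A) ^ (p ^ f) + (c : A) := by
  induction f with
  | zero =>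
    refine ⟨0, Ideal.zero_mem _, ?_⟩
    rw [pow_zero, pow_zero, pow_one]
    simp
  | succ f ih =>
    obtain ⟨c, hc, h1⟩ := ih
    obtain ⟨d, hd⟩ : ∃ d : 𝓞 A, d = a ^ (p ^ f) + c := ⟨_, rfl⟩
    obtain ⟨c', hc', h2⟩ := h.2.2 d
    obtain ⟨g, hg⟩ := sub_dvd_pow_sub_pow d (a ^ (p ^ f)) p
    have h3 : d - a ^ (p ^ f) = c := by rw [hd]; ring
    refine ⟨c * g + c', add_mem (Ideal.mul_mem_right _ _ hc) hc', ?_⟩
    have h4 : (σ ^ (f + 1)) (a : A) = σ ((σ ^ f) (a : A)) := by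
      rw [pow_succ']
      rfl
    have h5 : (σ ^ f) (a : A) = (d : A) := by
      rw [h1, hd]
      rfl
    rw [h4, h5, h2]
    have h6 : d ^ p = a ^ (p ^ (f + 1)) + c * g := by
      rw [← h3, ← hg, ← pow_mul, ← pow_succ]
      ring
    have h7 : (d : A) ^ p = (a : A) ^ (p ^ (f + 1)) + (c : A) * (g : A) := by
      have h8 := congrArg (fun t : 𝓞 A => (t : A)) h6
      exact h8
    rw [h7]
    change _ = (a : A) ^ (p ^ (f + 1)) + ((c : A) * (g : A) + (c' : A))
    ring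

/-- An automorphism permutes the conjugates. -/
theorem fact_fix {k : Type} [Field k] [NumberField k] (σ : k ≃ₐ[ℚ] k) (e : ℕ) (z : k)
    (hz : (minpoly ℚ z).natDegree ≤ e) (f : ℕ) (hf : e.factorial ∣ f) : (σ ^ f) z = z := by
  classical
  have hint : IsIntegral ℚ z := Algebra.IsIntegral.isIntegral z
  have hroot : ∀ i : ℕ, (σ ^ i) z ∈ ((minpoly ℚ z).map (algebraMap ℚ k)).roots.toFinset := by
    intro i
    rw [Multiset.mem_toFinset, mem_roots_map (minpoly.ne_zero hint), ← aeval_def,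
      aeval_algHom_apply, minpoly.aeval, map_zero]
  have hcard : ((minpoly ℚ z).map (algebraMap ℚ k)).roots.toFinset.card <
      (Finset.range (e + 1)).card := by
    rw [Finset.card_range]
    refine Nat.lt_succ_of_le ((Multiset.toFinset_card_le _).trans ((card_roots' _).trans ?_))
    rw [natDegree_map]
    exact hz
  obtain ⟨i, hi, j, hj, hij, hEq⟩ := Finset.exists_ne_map_eq_of_card_lt_of_maps_to hcard
    (f := fun i => (σ ^ i) z) (fun i _ => hroot i)
  have key : ∀ i j : ℕ, i < j → j ≤ e → (σ ^ i) z = (σ ^ j) z → (σ ^ f) z = z := by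
    intro i j hlt hje h1
    have h2 : (σ ^ (j - i)) z = z := by
      have h3 : (σ ^ i) ((σ ^ (j - i)) z) = (σ ^ i) z := by
        have h4 : (σ ^ i) ((σ ^ (j - i)) z) = (σ ^ i * σ ^ (j - i)) z := rfl
        rw [h4, ← pow_add, Nat.add_sub_cancel' hlt.le, ← h1]
      exact (σ ^ i).injective h3
    obtain ⟨l, hl⟩ : (j - i) ∣ f := (Nat.dvd_factorial (by omega) (by omega)).trans hf
    rw [hl, pow_mul]
    generalize σ ^ (j - i) = ρ at h2
    clear hl
    induction l with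
    | zero => rfl
    | succ l ih =>
      have h5 : (ρ ^ (l + 1)) z = (ρ ^ l) (ρ z) := by
        rw [pow_succ]
        rfl
      rw [h5, h2, ih]
  rw [Finset.mem_range] at hi hj
  rcases Nat.lt_or_gt_of_ne hij with h1 | h1
  · exact key i j h1 (by omega) hEq
  · exact key j i h1 (by omega) hEq.symm

/-- The degree of a root of an element of `K`. -/
theorem deg_root_le {K k : Type} [Field K] [NumberField K] [Field k] [NumberField k]
    [Algebra K k] (W : ℕ) (hW : 1 ≤ W) (c : K) (z : k) (hz : z ^ W = algebraMap K k c) :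
    (minpoly ℚ z).natDegree ≤ W * Module.finrank ℚ K := by
  have hint : IsIntegral ℚ z := Algebra.IsIntegral.isIntegral z
  have hintK : IsIntegral K z := hint.tower_top
  rw [← IntermediateField.adjoin.finrank hint]
  have : FiniteDimensional K K⟮z⟯ := IntermediateField.adjoin.finiteDimensional hintK
  have h1 : Module.finrank K K⟮z⟯ ≤ W := by
    rw [IntermediateField.adjoin.finrank hintK]
    have h2 : minpoly K z ∣ X ^ W - C c := minpoly.dvd K z (by simp [hz])
    have h3 := natDegree_le_of_dvd h2 (X_pow_sub_C_ne_zero (by omega) c)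
    rwa [natDegree_X_pow_sub_C] at h3
  have h2 : Module.finrank ℚ K⟮z⟯ = Module.finrank ℚ K * Module.finrank K K⟮z⟯ :=
    (Module.finrank_mul_finrank ℚ K K⟮z⟯).symm
  have hle : ℚ⟮z⟯ ≤ K⟮z⟯.restrictScalars ℚ := by
    rw [IntermediateField.adjoin_le_iff, Set.singleton_subset_iff]
    exact IntermediateField.mem_adjoin_simple_self K z
  have : FiniteDimensional ℚ K⟮z⟯ := FiniteDimensional.trans ℚ K K⟮z⟯
  have : FiniteDimensional ℚ (K⟮z⟯.restrictScalars ℚ) := this
  have h3 : Module.finrank ℚ ℚ⟮z⟯ ≤ Module.finrank ℚ K⟮z⟯ :=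
    IntermediateField.finrank_le_of_le_right hle
  calc Module.finrank ℚ ℚ⟮z⟯ ≤ Module.finrank ℚ K⟮z⟯ := h3
    _ = Module.finrank ℚ K * Module.finrank K K⟮z⟯ := h2
    _ ≤ Module.finrank ℚ K * W := Nat.mul_le_mul_left _ h1
    _ = W * Module.finrank ℚ K := Nat.mul_comm _ _

private def toRH (k : Type) [Field k] [Algebra ℚ k] : (k ≃ₐ[ℚ] k) →* (k →+* k) where
  toFun e := (e : k →+* k)
  map_one' := rfl
  map_mul' _ _ := rfl

/-- The automorphism `τ = s ^ f`. -/
theorem tauK {K A k : Type} [Field K] [NumberField K] [IsGalois ℚ K] [Field A] [NumberField A]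
    [Algebra K A] [Field k] [NumberField k] [IsGalois ℚ k] [Algebra K k] [Algebra A k]
    [IsScalarTower K A k] (n : ℕ) (hn : 1 ≤ n) (ξ : A) (hξ : IsPrimitiveRoot ξ n)
    (hgen : IntermediateField.adjoin K {ξ} = ⊤) (W : ℕ) (hW : 1 ≤ W) (p : ℕ) (hp : p.Prime)
    (hpn : ¬ p ∣ n) (f : ℕ) (hf : (W * Module.finrank ℚ K).factorial ∣ f) :
    ∃ (𝔮 : Ideal (𝓞 K)) (σ : A →+* A) (τ : k →+* k), FrobK K A 𝔮 p σ ∧
      (∀ a : A, τ (algebraMap A k a) = algebraMap A k ((σ ^ f) a)) ∧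
      (∀ a : 𝓞 A, ∃ c : 𝓞 A, c ∈ 𝔮.map (algebraMap (𝓞 K) (𝓞 A)) ∧
        (σ ^ f) (a : A) = (a : A) ^ (p ^ f) + (c : A)) ∧
      (∃ n₀ : ℕ, τ ^ (n₀ + 1) = 1) ∧
      (∀ (N : ℕ) (z : k), ¬ p ∣ N → z ^ N = 1 → τ z = z ^ (p ^ f)) ∧
      (∀ (c : K) (z : k), z ^ W = algebraMap K k c → τ z = z) ∧
      ∀ c : K, τ (algebraMap K k c) = algebraMap K k c := by
  have := galois_A n hn ξ hξ hgen
  obtain ⟨P, s, hPm, hpP, hs, hsz⟩ := exists_arith k p hp
  have hPp : P.IsPrime := hPm.isPrime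
  obtain ⟨σ, hσ⟩ : ∃ σ : A ≃ₐ[ℚ] A, ∀ y : A, s (algebraMap A k y) = algebraMap A k (σ y) :=
    ⟨s.restrictNormal A, fun y => (AlgEquiv.restrictNormal_commutes s A y).symm⟩
  obtain ⟨s0, hs0⟩ : ∃ s0 : K ≃ₐ[ℚ] K, ∀ y : K, σ (algebraMap K A y) = algebraMap K A (s0 y) :=
    ⟨σ.restrictNormal K, fun y => (AlgEquiv.restrictNormal_commutes σ K y).symm⟩
  have hσξ : σ ξ = ξ ^ p := by
    apply (algebraMap A k).injective
    rw [← hσ, map_pow]
    refine hsz n _ hpn ?_
    rw [← map_pow, hξ.pow_eq_one, map_one]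
  have hPA : (P.comap (algebraMap (𝓞 A) (𝓞 k))).IsPrime := Ideal.comap_isPrime _ _
  have hpPA : (p : 𝓞 A) ∈ P.comap (algebraMap (𝓞 A) (𝓞 k)) := by
    rw [Ideal.mem_comap, map_natCast]
    exact hpP
  have hσP : ∀ x : 𝓞 A, σ • x - x ^ p ∈ P.comap (algebraMap (𝓞 A) (𝓞 k)) := by
    intro x
    rw [Ideal.mem_comap, map_sub, map_pow]
    have h1 : algebraMap (𝓞 A) (𝓞 k) (σ • x) = s • algebraMap (𝓞 A) (𝓞 k) x := by
      apply RingOfIntegers.ext
      change algebraMap A k (σ (x : A)) = s (algebraMap A k (x : A))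
      rw [hσ]
    rw [h1]
    exact hs _
  have hF := frob_core (K := K) n hn ξ hξ hgen p hp hpn _ hPA hpPA σ hσP hσξ s0 hs0
  have hpow : ∀ (f : ℕ) (a : A), (s ^ f) (algebraMap A k a) =
      algebraMap A k (((σ : A →+* A) ^ f) a) := by
    intro f
    induction f with
    | zero => intro a; rfl
    | succ f ih =>
      intro a
      have h1 : (s ^ (f + 1)) (algebraMap A k a) = s ((s ^ f) (algebraMap A k a)) := by
        rw [pow_succ']
        rfl
      have h2 : ((σ : A →+* A) ^ (f + 1)) a = (σ : A →+* A) (((σ : A →+* A) ^ f) a) := by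
        rw [pow_succ']
        rfl
      rw [h1, h2, ih, hσ]
      rfl
  refine ⟨_, _, toRH k (s ^ f), hF, hpow f, frobK_iter hF f, ?_, ?_, ?_, ?_⟩
  · have h1 : 0 < orderOf (s ^ f) := orderOf_pos _
    refine ⟨orderOf (s ^ f) - 1, ?_⟩
    rw [Nat.sub_add_cancel h1, ← map_pow, pow_orderOf_eq_one, map_one]
  · intro N z hN hz
    have h1 := hsz N z hN hz
    have h2 : ∀ j : ℕ, (s ^ j) z = z ^ (p ^ j) := by
      intro j
      induction j with
      | zero => rw [pow_zero, pow_zero, pow_one]; rfl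
      | succ j ih =>
        have h3 : (s ^ (j + 1)) z = s ((s ^ j) z) := by
          rw [pow_succ']
          rfl
        rw [h3, ih, map_pow, h1, ← pow_mul, ← pow_succ']
    exact h2 f
  · intro c z hz
    exact fact_fix s _ z (deg_root_le W hW c z hz) f hf
  · intro c
    refine fact_fix s _ _ (deg_root_le (K := K) W hW (c ^ W) _ ?_) f hf
    rw [map_pow]

end Pool.Agent.H11.BK
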