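import Pool.Agent.H11.BK.Main
import Pool.Agent.H11.BK.RadK
import Pool.Agent.H11.BK.Tau

/-!
# Module Core (MP_187c26_nt, THEOREM VK): `CoreStmt` from the core theorem

`TopStmt`: the form of the core theorem (S1 to S7). It is applied to `fA K ξ x` over `K(ξ)`, embedded into `ℂ`.
-/

set_option autoImplicit false

open NumberField IntermediateField

namespace Pool.Agent.H11.BK

open Pool.Agent.H72.BK (Rad FrobK)
open Pool.Agent.H72.BD (ints)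

/-- The form of the core theorem. -/
def TopStmt (K : Type) [Field K] [NumberField K] {r : ℕ} (b : Fin r → 𝓞 K)
    (B D0 d Q0 : ℕ) : Prop :=
  ∃ (Q1 N : ℕ) (c : ℝ), Q0 ≤ Q1 ∧ 1 ≤ N ∧ 0 < c ∧
    ∀ (m : Fin r → ℕ) [∀ i, NeZero (m i)] (n : ℕ) [NeZero n] (A F : Type) [Field A]
      [NumberField A] [Field F] [NumberField F] [Algebra K A] [Algebra A F]
      [IsCyclotomicExtension {n} K A] (x : Fin r → F)
      (h : Rad B (fun i => algebraMap (𝓞 K) A (b i)) m F x) [Algebra F ℂ] (α : ℂ),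
      (∀ i, Nat.Coprime n (m i)) → IsIntegral ℚ α → α ≠ 0 → (∀ i, N ≤ m i) →
      (∀ j, 1 ≤ j → j ≤ N → (minpoly F (α ^ j)).natDegree = d) →
      absLogHeight₁ α ≤ c →
      (((h.zd D0).relIndex (ints F) : ℝ) ≤ Real.exp (c * Module.finrank ℚ F)) →
      (∀ p : ℕ, p.Prime → Q1 ≤ p → p ≤ N → ¬ p ∣ n ∧
        ∃ (𝔮 : Ideal (𝓞 K)) (σ : A →+* A), FrobK K A 𝔮 p σ) →
      ∃ (k : ℕ) (s t : Fin r → ℕ), 1 ≤ k ∧
        α ^ k * ∏ i, (algebraMap F ℂ (algebraMap A F (algebraMap (𝓞 K) A (b i)))) ^ s i =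
          ∏ i, (algebraMap F ℂ (algebraMap A F (algebraMap (𝓞 K) A (b i)))) ^ t i

theorem core_of_top {K : Type} [Field K] [NumberField K] [IsGalois ℚ K] {r : ℕ}
    (b : Fin (r + 1) → 𝓞 K) (hb : Ind K b) (D d Q0 : ℕ)
    (htop : ∀ B E : ℕ, 2 ≤ B → 1 ≤ E → TopStmt K b B (D * E) d Q0) :
    CoreStmt K (r + 1) b D d Q0 := by
  obtain ⟨B, hB, hB1, hB2⟩ := exists_B b hb.1
  obtain ⟨E, hE1, hE⟩ := exists_Eb b hb.1
  obtain ⟨Q1, N, c, hQ, hN, hc0, htop'⟩ := htop B E hB hE1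
  refine ⟨Q1, N, c, hN, hQ, hc0, ?_⟩
  intro Ω _ _ _ _ n m ξ x α hS hNm hq hα hk hidx hh
  have hm : ∀ i, NeZero (m i) := fun i => ⟨by have := hS.hm i; omega⟩
  have hn : NeZero n := ⟨by have := hS.hn; omega⟩
  have hA : NumberField K⟮ξ⟯ := hS.nf_A
  have hF : NumberField (fA K ξ x) := hS.nf_fA
  have hR := hS.rad B hB hB1 hB2
  have hI := hS.idx hb.1 hR D E hE c hc0.le hidx
  have hcyc : IsCyclotomicExtension {n} K K⟮ξ⟯ :=
    hS.prim.intermediateField_adjoin_isCyclotomicExtension K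
  have hαK : IsIntegral K α := Algebra.IsIntegral.isIntegral α
  have hαQ : IsIntegral ℚ α := isIntegral_trans (R := ℚ) (A := K) α hαK
  obtain ⟨φ0⟩ : Nonempty (K →+* ℂ) := inferInstance
  let : Algebra K ℂ := φ0.toAlgebra
  let σ : Ω →ₐ[K] ℂ := IsAlgClosed.lift
  let : Algebra (fA K ξ x) ℂ := (σ.toRingHom.comp (algebraMap (fA K ξ x) Ω)).toAlgebra
  let τ : Ω →ₐ[fA K ξ x] ℂ := { σ.toRingHom with commutes' := fun r => rfl }
  have hmin : ∀ j : ℕ, (minpoly (fA K ξ x) ((σ α) ^ j)).natDegree = dgr K ξ x (α ^ j) := by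
    intro j
    have h3 : minpoly (fA K ξ x) (τ (α ^ j)) = minpoly (fA K ξ x) (α ^ j) :=
      minpoly.algHom_eq τ τ.injective _
    have h4 : τ (α ^ j) = (σ α) ^ j := map_pow σ α j
    rw [← h4, h3]
    unfold dgr
    refine nd_equiv (T := Ω) (K := FF K ξ x) (K' := fA K ξ x)
      { toFun := fun y => ⟨y, (mem_fA _).2 y.2⟩
        invFun := fun y => ⟨y, (mem_fA _).1 y.2⟩
        left_inv := fun y => rfl
        right_inv := fun y => rfl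
        map_mul' := fun y z => rfl
        map_add' := fun y z => rfl } (fun y => rfl) (α ^ j)
  have hfr : ∀ p : ℕ, p.Prime → Q1 ≤ p → p ≤ N → ¬ p ∣ n ∧
        ∃ (𝔮 : Ideal (𝓞 K)) (σ : K⟮ξ⟯ →+* K⟮ξ⟯), FrobK K K⟮ξ⟯ 𝔮 p σ := by
    intro p hp h1 h2
    refine ⟨hq p hp h1 h2, ?_⟩
    obtain ⟨𝔮, σ', h3, -, -⟩ := frobK (K := K) (A := K⟮ξ⟯) n hS.hn ⟨ξ, mem_AA ξ⟩
      (IsPrimitiveRoot.of_map_of_injective (f := algebraMap K⟮ξ⟯ Ω) hS.prim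
        (algebraMap K⟮ξ⟯ Ω).injective) (gen_top ξ) p hp (hq p hp h1 h2)
    exact ⟨𝔮, σ', h3⟩
  have hht : absLogHeight₁ (σ α) = absLogHeight₁ α := (height_map σ.toRingHom α hαQ).1
  obtain ⟨k, s, t, hk1, hfin⟩ := htop' m n K⟮ξ⟯ (fA K ξ x) (gx K⟮ξ⟯ x) hR (σ α) hS.cn
    (hαQ.map (σ : Ω →+* ℂ).toRatAlgHom) (by rw [Ne, map_eq_zero]; exact hα) hNm
    (fun j h1 h2 => by rw [hmin]; exact hk j h1 h2) (by rw [hht]; exact hh.le) hI hfr
  have hb0 : ∀ i, algebraMap (𝓞 K) Ω (b i) ≠ 0 := fun i => by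
    rw [IsScalarTower.algebraMap_apply (𝓞 K) K Ω, Ne, map_eq_zero]
    exact RingOfIntegers.coe_ne_zero_iff.2 (hb.1 i)
  refine ⟨k, hk1, fun i => (t i : ℤ) - s i, ?_⟩
  have hβ : ∀ i, algebraMap (fA K ξ x) ℂ (algebraMap K⟮ξ⟯ (fA K ξ x)
      (algebraMap (𝓞 K) K⟮ξ⟯ (b i))) = σ (algebraMap (𝓞 K) Ω (b i)) := fun i => rfl
  simp only [hβ] at hfin
  have h8 : α ^ k * ∏ i, (algebraMap (𝓞 K) Ω (b i)) ^ s i =
      ∏ i, (algebraMap (𝓞 K) Ω (b i)) ^ t i := by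
    apply σ.injective
    rw [map_mul, map_pow, map_prod, map_prod]
    simp only [map_pow]
    exact hfin
  have h9 : ∏ i, (algebraMap (𝓞 K) Ω (b i)) ^ s i ≠ 0 :=
    Finset.prod_ne_zero_iff.2 fun i _ => pow_ne_zero _ (hb0 i)
  rw [← mul_left_inj' h9, h8, ← Finset.prod_mul_distrib]
  refine Finset.prod_congr rfl fun i _ => ?_
  rw [zpow_sub₀ (hb0 i), zpow_natCast, zpow_natCast, div_mul_cancel₀ _ (pow_ne_zero _ (hb0 i))]

end Pool.Agent.H11.BK
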