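import Pool.Agent.H11.BK.Tau

/-!
# Module TauH (MP_187c26_nt, THEOREM VK): Frobenius automorphisms, form with a homomorphism `ι : A → k`
-/

set_option autoImplicit false

open IntermediateField NumberField Polynomial

namespace Pool.Agent.H11.BK

open Pool.Agent.H72.BK (FrobK)

private def toRH' (k : Type) [Field k] [Algebra ℚ k] : (k ≃ₐ[ℚ] k) →* (k →+* k) where
  toFun e := (e : k →+* k)
  map_one' := rfl
  map_mul' _ _ := rfl

/-- A Frobenius automorphism of `k` and its restriction to `A = K(ξ)`. -/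
theorem tauH {K A k : Type} [Field K] [NumberField K] [IsGalois ℚ K] [Field A] [NumberField A]
    [Algebra K A] [Field k] [NumberField k] [IsGalois ℚ k] (ι : A →+* k) (n : ℕ) [NeZero n]
    [IsCyclotomicExtension {n} K A] (p : ℕ) (hp : p.Prime) (hpn : ¬ p ∣ n) :
    ∃ (𝔮 : Ideal (𝓞 K)) (σ : A →+* A) (s : k →+* k), FrobK K A 𝔮 p σ ∧
      s.comp ι = ι.comp σ ∧ (∃ n₀ : ℕ, s ^ (n₀ + 1) = 1) ∧
      (∀ (N : ℕ) (z : k), ¬ p ∣ N → z ^ N = 1 → s z = z ^ p) ∧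
      (∀ (e : ℕ) (z : k), (minpoly ℚ z).natDegree ≤ e → (s ^ e.factorial) z = z) ∧
      ∀ (f : ℕ) (a : 𝓞 A), ∃ c : 𝓞 A, c ∈ 𝔮.map (algebraMap (𝓞 K) (𝓞 A)) ∧
        (σ ^ f) (a : A) = (a : A) ^ (p ^ f) + (c : A) := by
  let _ : Algebra A k := ι.toAlgebra
  have hn : 1 ≤ n := Nat.pos_of_ne_zero (NeZero.ne n)
  obtain ⟨ξ, hξ⟩ : ∃ ξ : A, IsPrimitiveRoot ξ n :=
    ⟨IsCyclotomicExtension.zeta n K A, IsCyclotomicExtension.zeta_spec n K A⟩
  have hgen : IntermediateField.adjoin K {ξ} = ⊤ :=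
    IntermediateField.adjoin_eq_top_of_algebra K _
      (IsCyclotomicExtension.adjoin_primitive_root_eq_top hξ)
  have := galois_A n hn ξ hξ hgen
  obtain ⟨P, s, hPm, hpP, hs, hsz⟩ := exists_arith k p hp
  have hPp : P.IsPrime := hPm.isPrime
  obtain ⟨σ, hσ⟩ : ∃ σ : A ≃ₐ[ℚ] A, ∀ y : A, s (algebraMap A k y) = algebraMap A k (σ y) :=
    ⟨s.restrictNormal A, fun y => (AlgEquiv.restrictNormal_commutes s A y).symm⟩
  obtain ⟨s0, hs0⟩ : ∃ s0 : K ≃ₐ[ℚ] K, ∀ y : K, σ (algebraMap K A y) = algebraMap K A (s0 y) :=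
    ⟨σ.restrictNormal K, fun y => (AlgEquiv.restrictNormal_commutes σ K y).symm⟩
  have hσξ : σ ξ = ξ ^ p := by
    apply (algebraMap A k).injective
    rw [← hσ, map_pow]
    refine hsz n _ hpn ?_
    rw [← map_pow, hξ.pow_eq_one, map_one]
  have hPA : (P.comap (algebraMap (𝓞 A) (𝓞 k))).IsPrime := Ideal.comap_isPrime _ _
  have hpPA : (p : 𝓞 A) ∈ P.comap (algebraMap (𝓞 A) (𝓞 k)) := by
    rw [Ideal.mem_comap, map_natCast]
    exact hpP
  have hσP : ∀ x : 𝓞 A, σ • x - x ^ p ∈ P.comap (algebraMap (𝓞 A) (𝓞 k)) := by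
    intro x
    rw [Ideal.mem_comap, map_sub, map_pow]
    have h1 : algebraMap (𝓞 A) (𝓞 k) (σ • x) = s • algebraMap (𝓞 A) (𝓞 k) x := by
      apply RingOfIntegers.ext
      change algebraMap A k (σ (x : A)) = s (algebraMap A k (x : A))
      rw [hσ]
    rw [h1]
    exact hs _
  have hF := frob_core (K := K) n hn ξ hξ hgen p hp hpn _ hPA hpPA σ hσP hσξ s0 hs0
  refine ⟨_, _, toRH' k s, hF, RingHom.ext hσ, ?_, hsz, ?_, frobK_iter hF⟩
  · have h1 : 0 < orderOf s := orderOf_pos _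
    refine ⟨orderOf s - 1, ?_⟩
    rw [Nat.sub_add_cancel h1, ← map_pow, pow_orderOf_eq_one, map_one]
  · intro e z hz
    rw [← map_pow]
    exact fact_fix s e z hz _ dvd_rfl

end Pool.Agent.H11.BK
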