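import Pool.Agent.H11.BK.Core
import Pool.Agent.H72.BK.TopK

/-!
# Module All (MP_187c26_nt, THEOREM VK): the theorem for all systems over a Galois number field
-/

set_option autoImplicit false

open NumberField IntermediateField

namespace Pool.Agent.H11.BK

theorem all0 {K : Type} [Field K] [NumberField K] [IsGalois ℚ K] (D : ℕ) (hD : 1 ≤ D) (r : ℕ)
    (b : Fin r → 𝓞 K) (d : ℕ) (hb : Ind K b) : T0 K r b D d :=
  t0 D (fun r b d Q0 hb hd => core_of_top b hb D d Q0 fun B E hB hE =>
    Pool.Agent.H72.BK.topK (by omega) b hb B hB (D * E) (Nat.mul_pos hD hE) d hd Q0) r b d hb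

end Pool.Agent.H11.BK
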