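import Pool.Agent.H11.BK.Lin

/-!
# Module Bas (MP_187c26_nt, THEOREM VK): basic facts about systems

`Sys.li`: the monomials `x ^ l`, `l_i < m_i`, are linearly independent over `K(ξ)`; `Sys.of_li` the converse. Finiteness of the fields,
integrality, the degree of `K(x)` over `K`.
-/

set_option autoImplicit false

open IntermediateField NumberField

namespace Pool.Agent.H11.BK

open Pool.Agent.H72.BE (Gm mon vl md mon_add mon_zero)

section

variable {K : Type} [Field K] [NumberField K] {r : ℕ} {Ω : Type} [Field Ω] [CharZero Ω]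
  [Algebra K Ω]

omit [NumberField K] [CharZero Ω] in
theorem mem_FF_ξ (ξ : Ω) (x : Fin r → Ω) : ξ ∈ FF K ξ x :=
  IntermediateField.subset_adjoin K _ (Or.inl rfl)

omit [NumberField K] [CharZero Ω] in
theorem mem_FF (ξ : Ω) (x : Fin r → Ω) (i : Fin r) : x i ∈ FF K ξ x :=
  IntermediateField.subset_adjoin K _ (Or.inr ⟨i, rfl⟩)

omit [NumberField K] [CharZero Ω] in
theorem mem_XX (x : Fin r → Ω) (i : Fin r) : x i ∈ XX K x :=
  IntermediateField.subset_adjoin K _ ⟨i, rfl⟩

omit [NumberField K] [CharZero Ω] in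
theorem mem_AA (ξ : Ω) : ξ ∈ AA K ξ := IntermediateField.subset_adjoin K _ rfl

omit [NumberField K] [CharZero Ω] in
theorem AA_le (ξ : Ω) (x : Fin r → Ω) : AA K ξ ≤ FF K ξ x := by
  unfold AA
  rw [IntermediateField.adjoin_le_iff, Set.singleton_subset_iff]
  exact mem_FF_ξ ξ x

omit [NumberField K] [CharZero Ω] in
theorem XX_le (ξ : Ω) (x : Fin r → Ω) : XX K x ≤ FF K ξ x := by
  unfold XX
  rw [IntermediateField.adjoin_le_iff]
  rintro _ ⟨i, rfl⟩
  exact mem_FF ξ x i

omit [NumberField K] [CharZero Ω] in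
theorem FF_mono (ξ η : Ω) (x : Fin r → Ω) (h : η ∈ FF K ξ x) : FF K η x ≤ FF K ξ x := by
  unfold FF at h ⊢
  rw [IntermediateField.adjoin_le_iff]
  rintro y (hy | ⟨i, rfl⟩)
  · rw [Set.mem_singleton_iff] at hy
    rw [hy]
    exact h
  · exact IntermediateField.subset_adjoin K _ (Or.inr ⟨i, rfl⟩)

omit [NumberField K] [CharZero Ω] in
theorem AA_mono (ξ η : Ω) (h : η ∈ AA K ξ) : AA K η ≤ AA K ξ := by
  unfold AA at h ⊢
  rw [IntermediateField.adjoin_le_iff, Set.singleton_subset_iff]
  exact h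

omit [NumberField K] [CharZero Ω] in
theorem FF_eq (ξ : Ω) (x : Fin r → Ω) :
    FF K ξ x = (IntermediateField.adjoin (AA K ξ) (Set.range x)).restrictScalars K := by
  unfold FF AA
  exact (IntermediateField.adjoin_adjoin_left K _ _).symm

variable {b : Fin r → 𝓞 K} {n : ℕ} {m : Fin r → ℕ} {ξ : Ω} {x : Fin r → Ω}

omit [NumberField K] [CharZero Ω] in
theorem ints_b (b : Fin r → 𝓞 K) (i : Fin r) : IsIntegral ℤ (algebraMap (𝓞 K) Ω (b i)) :=
  (RingOfIntegers.isIntegral (b i)).map (IsScalarTower.toAlgHom ℤ (𝓞 K) Ω)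

theorem Sys.integral_ξ (h : Sys K b n m ξ x) : IsIntegral ℤ ξ := by
  refine IsIntegral.of_pow (n := n) h.hn ?_
  rw [h.prim.pow_eq_one]
  exact isIntegral_one

theorem Sys.integral_x (h : Sys K b n m ξ x) (i : Fin r) : IsIntegral ℤ (x i) := by
  refine IsIntegral.of_pow (n := m i) (h.hm i) ?_
  rw [h.hx]
  exact ints_b b i

theorem Sys.fin_A (h : Sys K b n m ξ x) : FiniteDimensional K (AA K ξ) :=
  IntermediateField.adjoin.finiteDimensional (h.integral_ξ.tower_top)

theorem Sys.fin_X (h : Sys K b n m ξ x) : FiniteDimensional K (XX K x) := by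
  unfold XX
  refine IntermediateField.finiteDimensional_adjoin ?_
  rintro _ ⟨i, rfl⟩
  exact (h.integral_x i).tower_top

theorem Sys.fin_F (h : Sys K b n m ξ x) : FiniteDimensional K (FF K ξ x) := by
  unfold FF
  have hfin : Finite (({ξ} ∪ Set.range x : Set Ω)) :=
    ((Set.finite_singleton ξ).union (Set.finite_range x)).to_subtype
  refine IntermediateField.finiteDimensional_adjoin (S := {ξ} ∪ Set.range x) ?_
  rintro y (hy | ⟨i, rfl⟩)
  · rw [Set.mem_singleton_iff] at hy
    rw [hy]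
    exact h.integral_ξ.tower_top
  · exact (h.integral_x i).tower_top

theorem nf_of_fin (E : IntermediateField K Ω) [FiniteDimensional K E] : NumberField E := by
  have : FiniteDimensional ℚ E := FiniteDimensional.trans ℚ K E
  exact {}

theorem Sys.nf_A (h : Sys K b n m ξ x) : NumberField (AA K ξ) :=
  have := h.fin_A
  nf_of_fin _

theorem Sys.nf_F (h : Sys K b n m ξ x) : NumberField (FF K ξ x) :=
  have := h.fin_F
  nf_of_fin _

/-- `b i` as an element of `K(ξ)`. -/
noncomputable def bA (b : Fin r → 𝓞 K) (ξ : Ω) (i : Fin r) : AA K ξ :=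
  algebraMap (𝓞 K) (AA K ξ) (b i)

omit [NumberField K] [CharZero Ω] in
theorem coe_bA (b : Fin r → 𝓞 K) (ξ : Ω) (i : Fin r) :
    algebraMap (AA K ξ) Ω (bA b ξ i) = algebraMap (𝓞 K) Ω (b i) := rfl

theorem finrank_FF (ξ : Ω) (x : Fin r → Ω) : Module.finrank K (FF K ξ x) =
    Module.finrank K (AA K ξ) *
      Module.finrank (AA K ξ) (IntermediateField.adjoin (AA K ξ) (Set.range x)) := by
  rw [Module.finrank_mul_finrank]
  rw [FF_eq]
  rfl

theorem Sys.li (h : Sys K b n m ξ x) :
    LinearIndependent (AA K ξ) (fun l : Gm m => mon x (vl l)) := by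
  have := h.fin_A
  have h1 := h.deg
  rw [finrank_FF, mul_comm] at h1
  have h2 := Nat.eq_of_mul_eq_mul_right Module.finrank_pos h1
  exact (deg_iff (β := bA b ξ) h.hm (fun i => by rw [h.hx, coe_bA])).1 h2

theorem Sys.of_li (hn : 1 ≤ n) (hm : ∀ i, 1 ≤ m i) (cn : ∀ i, Nat.Coprime n (m i))
    (prim : IsPrimitiveRoot ξ n) (hx : ∀ i, x i ^ m i = algebraMap (𝓞 K) Ω (b i))
    (li : LinearIndependent (AA K ξ) (fun l : Gm m => mon x (vl l))) : Sys K b n m ξ x where
  hn := hn
  hm := hm
  cn := cn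
  prim := prim
  hx := hx
  deg := by
    rw [finrank_FF, mul_comm, (deg_iff (β := bA b ξ) hm (fun i => by rw [hx, coe_bA])).2 li]

omit [NumberField K] [CharZero Ω] in
theorem li_mono {E F : IntermediateField K Ω} (hEF : E ≤ F) {ι : Type} {v : ι → Ω}
    (h : LinearIndependent F v) : LinearIndependent E v := by
  let _ : Algebra E F := (IntermediateField.inclusion hEF).toRingHom.toAlgebra
  have : IsScalarTower E F Ω := IsScalarTower.of_algebraMap_eq' rfl
  refine h.restrict_scalars' (R := E)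

omit [NumberField K] [CharZero Ω] in
theorem li_base {F : IntermediateField K Ω} {ι : Type} {v : ι → Ω}
    (h : LinearIndependent F v) : LinearIndependent K v :=
  h.restrict_scalars' (R := K)

theorem Sys.deg_X (h : Sys K b n m ξ x) : Module.finrank K (XX K x) = ∏ i, m i :=
  (deg_iff (k := K) (β := fun i => (b i : K)) h.hm (fun i => by rw [h.hx]; rfl)).2
    (li_base h.li)

/-- `n` replaced by a divisor. -/
theorem Sys.pow_q (h : Sys K b n m ξ x) (q : ℕ) (hq : q ∣ n) (hq0 : 1 ≤ q) :
    Sys K b (n / q) m (ξ ^ q) x := by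
  refine Sys.of_li (Nat.div_pos (Nat.le_of_dvd h.hn hq) hq0) h.hm
    (fun i => Nat.Coprime.coprime_dvd_left (Nat.div_dvd_of_dvd hq) (h.cn i)) ?_ h.hx ?_
  · refine h.prim.pow h.hn ?_
    rw [Nat.mul_div_cancel' hq]
  · exact li_mono (AA_mono ξ (ξ ^ q) (pow_mem (mem_AA ξ) q)) h.li

end

section

variable {K : Type} [Field K] [NumberField K] {r : ℕ} {Ω : Type} [Field Ω] [CharZero Ω]
  [Algebra K Ω] {b : Fin (r + 1) → 𝓞 K} {n : ℕ} {m : Fin (r + 1) → ℕ} {ξ : Ω}
  {x : Fin (r + 1) → Ω}

/-- Without the variable `k`. -/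
theorem Sys.drop (h : Sys K b n m ξ x) (k : Fin (r + 1)) :
    Sys K (fun i => b (k.succAbove i)) n (fun i => m (k.succAbove i)) ξ
      (fun i => x (k.succAbove i)) := by
  refine Sys.of_li h.hn (fun i => h.hm _) (fun i => h.cn _) h.prim (fun i => h.hx _) ?_
  have hz : ∀ i, NeZero (m i) := fun i => ⟨by have := h.hm i; omega⟩
  let g : Gm (fun i => m (k.succAbove i)) → Gm m := fun l =>
    k.insertNth (α := fun i => ZMod (m i)) 0 l
  have hg : Function.Injective g := by
    intro l l' hl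
    funext i
    have h1 := congrFun hl (k.succAbove i)
    simp only [g, Fin.insertNth_apply_succAbove] at h1
    exact h1
  have h1 := h.li.comp g hg
  have h2 : (fun l : Gm m => mon x (vl l)) ∘ g =
      fun l : Gm (fun i => m (k.succAbove i)) => mon (fun i => x (k.succAbove i)) (vl l) := by
    funext l
    show mon x (vl (g l)) = _
    unfold mon
    rw [Fin.prod_univ_succAbove _ k]
    have h3 : vl (g l) k = 0 := by
      unfold vl
      simp only [g, Fin.insertNth_apply_same, ZMod.val_zero]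
    rw [h3, pow_zero, one_mul]
    refine Finset.prod_congr rfl fun i _ => ?_
    have h4 : vl (g l) (k.succAbove i) = vl l i := by
      unfold vl
      simp only [g, Fin.insertNth_apply_succAbove]
    rw [h4]
  rw [← h2]
  exact h1

end

end Pool.Agent.H11.BK
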