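import Pool.Agent.H11.FR.Ordx
import Pool.Agent.H72.BK.Def

/-!
# THEOREM VK (MP_187c26_nt): systems of radicals over a number field, the interfaces of the final induction

`K` a number field, `Ω` an algebraic extension, `b_i ∈ 𝓞 K`. `AA K ξ = K(ξ)`, `FF K ξ x = K(ξ, x_1, …, x_r)`, `XX K x = K(x_1, …, x_r)`.
`Sys K b n m ξ x`: `ξ` a primitive `n`-th root of unity, `x_i ^ m_i = b_i`, `n` prime to the `m_i`, `[K(ξ, x) : K(ξ)] = ∏ m_i`.
`dgr K ξ x α`: the degree of `α` over `K(ξ, x)`. `InG K b α`: a power of `α` is in the group generated by the `b_i`.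
`idxD K D x`: the index of the subgroup of all `z` with `D z ∈ 𝓞 K [x_1, …, x_r]` in the ring of integers of `K(x_1, …, x_r)`.
-/

set_option autoImplicit false

open IntermediateField NumberField

namespace Pool.Agent.H11.BK

open Pool.Agent.H4.OG (intOf)

section

variable (K : Type) [Field K] [NumberField K] {r : ℕ} {Ω : Type} [Field Ω] [CharZero Ω]
  [Algebra K Ω]

/-- `K(ξ)`. -/
noncomputable def AA (ξ : Ω) : IntermediateField K Ω := IntermediateField.adjoin K {ξ}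

/-- `K(x_1, …, x_r)`. -/
noncomputable def XX (x : Fin r → Ω) : IntermediateField K Ω :=
  IntermediateField.adjoin K (Set.range x)

/-- `K(ξ, x_1, …, x_r)`. -/
noncomputable def FF (ξ : Ω) (x : Fin r → Ω) : IntermediateField K Ω :=
  IntermediateField.adjoin K ({ξ} ∪ Set.range x)

/-- A system of radicals and a primitive root of unity. -/
structure Sys (b : Fin r → 𝓞 K) (n : ℕ) (m : Fin r → ℕ) (ξ : Ω) (x : Fin r → Ω) : Prop where
  hn : 1 ≤ n
  hm : ∀ i, 1 ≤ m i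
  cn : ∀ i, Nat.Coprime n (m i)
  prim : IsPrimitiveRoot ξ n
  hx : ∀ i, x i ^ m i = algebraMap (𝓞 K) Ω (b i)
  deg : Module.finrank K (FF K ξ x) = (∏ i, m i) * Module.finrank K (AA K ξ)

/-- The degree of `α` over `K(ξ, x_1, …, x_r)`. -/
noncomputable def dgr (ξ : Ω) (x : Fin r → Ω) (α : Ω) : ℕ := (minpoly (FF K ξ x) α).natDegree

/-- A power of `α` lies in the group generated by the `b i`. -/
def InG (b : Fin r → 𝓞 K) (α : Ω) : Prop :=
  ∃ k : ℕ, 1 ≤ k ∧ ∃ j : Fin r → ℤ, α ^ k = ∏ i, (algebraMap (𝓞 K) Ω (b i)) ^ j i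

/-- The `z` with `D z ∈ 𝓞 K [x_1, …, x_r]`. -/
def ordD (D : ℕ) (x : Fin r → Ω) : AddSubgroup Ω where
  carrier := {z | (D : Ω) * z ∈ Algebra.adjoin (𝓞 K) (Set.range x)}
  zero_mem' := by
    have h : (D : Ω) * 0 ∈ Algebra.adjoin (𝓞 K) (Set.range x) := by
      rw [mul_zero]
      exact zero_mem _
    exact h
  add_mem' := fun {y z} hy hz => by
    have h : (D : Ω) * (y + z) ∈ Algebra.adjoin (𝓞 K) (Set.range x) := by
      rw [mul_add]
      exact add_mem hy hz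
    exact h
  neg_mem' := fun {y} hy => by
    have h : (D : Ω) * (-y) ∈ Algebra.adjoin (𝓞 K) (Set.range x) := by
      rw [mul_neg]
      exact neg_mem hy
    exact h

/-- The index of the `z` with `D z ∈ 𝓞 K [x_1, …, x_r]` in the ring of integers of `K(x_1, …, x_r)`. -/
noncomputable def idxD (D : ℕ) (x : Fin r → Ω) : ℕ :=
  (ordD K D x).relIndex (intOf (XX K x)).toAddSubgroup

end

section

variable (K : Type) [Field K] [NumberField K]

/-- The `b i` are nonzero and multiplicatively independent. -/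
def Ind {r : ℕ} (b : Fin r → 𝓞 K) : Prop :=
  (∀ i, b i ≠ 0) ∧ ∀ j : Fin r → ℤ, ∏ i, (b i : K) ^ j i = 1 → j = 0

/-- The theorem for all systems with small index. -/
def T0 (r : ℕ) (b : Fin r → 𝓞 K) (D d : ℕ) : Prop :=
  ∃ c : ℝ, 0 < c ∧ ∀ (Ω : Type) [Field Ω] [CharZero Ω] [Algebra K Ω] [Algebra.IsAlgebraic K Ω]
    (n : ℕ) (m : Fin r → ℕ) (ξ : Ω) (x : Fin r → Ω) (α : Ω),
    Sys K b n m ξ x → α ≠ 0 → dgr K ξ x α ≤ d →
    (idxD K D x : ℝ) ≤ Real.exp (c * ∏ i, m i) → absLogHeight₁ α < c → InG K b α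

/-- The result of S1 to S7 for `r ≥ 1` (core theorem): large exponents, constant degree, Frobenius automorphisms. -/
def CoreStmt (r : ℕ) (b : Fin r → 𝓞 K) (D d Q0 : ℕ) : Prop :=
  ∃ (Q1 N : ℕ) (c : ℝ), 1 ≤ N ∧ Q0 ≤ Q1 ∧ 0 < c ∧ ∀ (Ω : Type) [Field Ω] [CharZero Ω]
    [Algebra K Ω] [Algebra.IsAlgebraic K Ω] (n : ℕ) (m : Fin r → ℕ) (ξ : Ω) (x : Fin r → Ω)
    (α : Ω), Sys K b n m ξ x → (∀ i, N ≤ m i) →
    (∀ q : ℕ, q.Prime → Q1 ≤ q → q ≤ N → ¬ q ∣ n) → α ≠ 0 →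
    (∀ k, 1 ≤ k → k ≤ N → dgr K ξ x (α ^ k) = d) →
    (idxD K D x : ℝ) ≤ Real.exp (c * ∏ i, m i) → absLogHeight₁ α < c → InG K b α

/-- The descent in `n` at the prime `q`. -/
def DescStmt (r : ℕ) (b : Fin r → 𝓞 K) (d q : ℕ) : Prop :=
  ∃ c : ℝ, 0 < c ∧ ∀ (Ω : Type) [Field Ω] [CharZero Ω] [Algebra K Ω] [Algebra.IsAlgebraic K Ω]
    (n : ℕ) (m : Fin r → ℕ) (ξ : Ω) (x : Fin r → Ω) (α : Ω),
    Sys K b n m ξ x → q ∣ n → α ≠ 0 → dgr K ξ x α ≤ d → absLogHeight₁ α < c →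
    ∃ (n' : ℕ) (ξ' z : Ω) (k : ℕ), 1 ≤ k ∧ z ^ k = 1 ∧ n' < n ∧ Sys K b n' m ξ' x ∧
      dgr K ξ' x (z * α) ≤ d

end

end Pool.Agent.H11.BK
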