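import Pool.Agent.H11.BK.UnrA

/-!
# Module EisG (MP_187c26_nt, THEOREM VK): good primes, the binomial of `b` is irreducible over `K(ξ)`

`k = 0` is clear. Let `Q` be a maximal ideal of `𝓞 A` above `p`, `P = Q ∩ 𝓞 K`. There is `c ∈ 𝓞 K` with `c ^ (p ^ k) - b ∈ P`, not in `P ^ 2` (`c = 0` if `b ∈ P`, otherwise the
Frobenius map of `𝓞 K / P` is surjective). So (`unr_rel`) `(X + c) ^ (p ^ k) - b` is Eisenstein at `Q`.
-/

set_option autoImplicit false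

open NumberField IntermediateField

namespace Pool.Agent.H11.BK

open Polynomial

private theorem eg_ne_top (A : Type) [Field A] [NumberField A] (p : ℕ) (hp : p.Prime) :
    Ideal.span {(p : 𝓞 A)} ≠ ⊤ := by
  intro h
  have h3 : Ideal.absNorm (Ideal.span {(p : 𝓞 A)}) = 1 := by
    rw [h, Ideal.absNorm_top]
  rw [Ideal.absNorm_span_natCast] at h3
  have h4 : 0 < Module.finrank ℤ (𝓞 A) := by
    rw [RingOfIntegers.rank]
    exact Module.finrank_pos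
  exact (Nat.one_lt_pow h4.ne' hp.one_lt).ne' h3

private theorem eg_root {K : Type} [Field K] [NumberField K] (p : ℕ) (hp : p.Prime) (b : 𝓞 K)
    (P : Ideal (𝓞 K)) (hP : P.IsMaximal) (hpP : (p : 𝓞 K) ∈ P)
    (hgood : b ∉ P ^ 2 ∧ (b ∉ P → ∀ c : 𝓞 K, b - c ^ p ∉ P ^ 2)) (k : ℕ) :
    ∃ c : 𝓞 K, c ^ p ^ (k + 1) - b ∈ P ∧ c ^ p ^ (k + 1) - b ∉ P ^ 2 := by
  by_cases hb : b ∈ P
  · refine ⟨0, ?_, ?_⟩
    · rw [zero_pow (pow_ne_zero _ hp.ne_zero), zero_sub]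
      exact P.neg_mem hb
    · rw [zero_pow (pow_ne_zero _ hp.ne_zero), zero_sub]
      intro h
      have h1 := (P ^ 2).neg_mem h
      rw [neg_neg] at h1
      exact hgood.1 h1
  · have hP0 : P ≠ ⊥ := by
      rintro rfl
      rw [Ideal.mem_bot] at hpP
      exact hp.ne_zero (by exact_mod_cast hpP)
    have hfin : Finite (𝓞 K ⧸ P) := P.finiteQuotientOfFreeOfNeBot hP0
    let _ : Field (𝓞 K ⧸ P) := Ideal.Quotient.field P
    have : Fact p.Prime := ⟨hp⟩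
    have hchar : CharP (𝓞 K ⧸ P) p := by
      have h2 : ((p : ℕ) : 𝓞 K ⧸ P) = 0 := by
        rw [← map_natCast (Ideal.Quotient.mk P), Ideal.Quotient.eq_zero_iff_mem]
        exact hpP
      obtain ⟨q, hq⟩ := CharP.exists (𝓞 K ⧸ P)
      have h6 : q ∣ p := (CharP.cast_eq_zero_iff (𝓞 K ⧸ P) q p).1 h2
      rcases (Nat.dvd_prime hp).1 h6 with h7 | h7
      · exact absurd h7 (CharP.char_ne_one (𝓞 K ⧸ P) q)
      · rw [← h7]
        exact hq
    obtain ⟨β, hβ⟩ := (bijective_iterateFrobenius (𝓞 K ⧸ P) p (k + 1)).2 (Ideal.Quotient.mk P b)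
    obtain ⟨c, rfl⟩ := Ideal.Quotient.mk_surjective β
    rw [iterateFrobenius_def, ← map_pow, Ideal.Quotient.eq] at hβ
    refine ⟨c, hβ, ?_⟩
    intro h
    apply hgood.2 hb (c ^ p ^ k)
    rw [← pow_mul, ← pow_succ, ← neg_sub]
    exact (P ^ 2).neg_mem h

theorem irr_good {K A : Type} [Field K] [NumberField K] [Field A] [NumberField A] [Algebra K A]
    (n : ℕ) (hn : 1 ≤ n) (ξ : A) (hξ : ξ ^ n = 1) (hgen : IntermediateField.adjoin K {ξ} = ⊤)
    (p : ℕ) (hp : p.Prime) (hpn : ¬ p ∣ n) (b : 𝓞 K)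
    (hgood : ∀ P : Ideal (𝓞 K), P.IsMaximal → (p : 𝓞 K) ∈ P →
      b ∉ P ^ 2 ∧ (b ∉ P → ∀ c : 𝓞 K, b - c ^ p ∉ P ^ 2)) (k : ℕ) :
    Irreducible (Polynomial.X ^ (p ^ k) - Polynomial.C (algebraMap K A (b : K))) := by
  classical
  rcases Nat.eq_zero_or_eq_succ_pred k with h0 | h0
  · rw [h0, pow_zero, pow_one]
    exact irreducible_X_sub_C _
  obtain ⟨l, rfl⟩ : ∃ l, k = l + 1 := ⟨_, h0⟩
  obtain ⟨Q, hQ, hpQ⟩ := Ideal.exists_le_maximal _ (eg_ne_top A p hp)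
  have hpQ' : (p : 𝓞 A) ∈ Q := hpQ (Ideal.mem_span_singleton_self _)
  have hPp : (Q.comap (algebraMap (𝓞 K) (𝓞 A))).IsPrime := by
    have := hQ.isPrime
    exact Ideal.comap_isPrime _ _
  have hpP : (p : 𝓞 K) ∈ Q.comap (algebraMap (𝓞 K) (𝓞 A)) := by
    rw [Ideal.mem_comap, map_natCast]
    exact hpQ'
  have hP0 : Q.comap (algebraMap (𝓞 K) (𝓞 A)) ≠ ⊥ := by
    intro h
    rw [h, Ideal.mem_bot] at hpP
    exact hp.ne_zero (by exact_mod_cast hpP)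
  have hPm : (Q.comap (algebraMap (𝓞 K) (𝓞 A))).IsMaximal := hPp.isMaximal hP0
  obtain ⟨c, hc1, hc2⟩ := eg_root p hp b _ hPm hpP (hgood _ hPm hpP) l
  obtain ⟨q, hq⟩ : ∃ q, q = p ^ (l + 1) := ⟨_, rfl⟩
  have hq0 : q ≠ 0 := by
    rw [hq]
    exact pow_ne_zero _ hp.ne_zero
  rw [← hq] at hc1 hc2 ⊢
  obtain ⟨β, hβ⟩ : ∃ β : 𝓞 A, β = algebraMap (𝓞 K) (𝓞 A) b := ⟨_, rfl⟩
  obtain ⟨γ, hγ⟩ : ∃ γ : 𝓞 A, γ = algebraMap (𝓞 K) (𝓞 A) c := ⟨_, rfl⟩
  have h1 : γ ^ q - β ∈ Q := by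
    rw [hγ, hβ, ← map_pow, ← map_sub]
    exact hc1
  have h2 : γ ^ q - β ∉ Q ^ 2 := by
    rw [hγ, hβ, ← map_pow, ← map_sub]
    intro h
    exact hc2 (unr_rel n hn ξ hξ hgen Q hQ p hp hpQ' hpn _ h)
  obtain ⟨g, hg⟩ : ∃ g : (𝓞 A)[X], g = (X + C γ) ^ q - C β := ⟨_, rfl⟩
  have hqd : ((X + C γ) ^ q : (𝓞 A)[X]).natDegree = q := by
    rw [(monic_X_add_C γ).natDegree_pow, natDegree_X_add_C, mul_one]
  have hgmon : g.Monic := by
    rw [hg]
    refine ((monic_X_add_C γ).pow q).sub_of_left ?_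
    refine lt_of_le_of_lt degree_C_le ?_
    rw [degree_eq_natDegree ((monic_X_add_C γ).pow q).ne_zero, hqd]
    exact_mod_cast Nat.pos_of_ne_zero hq0
  have hgdeg : g.natDegree = q := by
    rw [hg, natDegree_sub_C, hqd]
  have hei : g.IsEisensteinAt Q := by
    refine hgmon.isEisensteinAt_of_mem_of_notMem hQ.ne_top ?_ ?_
    · intro j hj
      rw [hgdeg] at hj
      rw [hg, coeff_sub, coeff_X_add_C_pow, coeff_C]
      by_cases hj0 : j = 0
      · rw [if_pos hj0, hj0, Nat.sub_zero, Nat.choose_zero_right, Nat.cast_one, mul_one]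
        exact h1
      · rw [if_neg hj0, sub_zero]
        obtain ⟨m, hm⟩ : p ∣ q.choose j := by
          rw [hq]
          rw [hq] at hj
          exact hp.dvd_choose_pow hj0 hj.ne
        rw [hm, Nat.cast_mul]
        exact Q.mul_mem_left _ (Q.mul_mem_right _ hpQ')
    · rw [hg, coeff_sub, coeff_X_add_C_pow, coeff_C, if_pos rfl, Nat.sub_zero, Nat.choose_zero_right,
        Nat.cast_one, mul_one]
      exact h2
  have hgirr : Irreducible g := hei.irreducible hQ.isPrime hgmon.isPrimitive (by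
    rw [hgdeg]
    exact Nat.pos_of_ne_zero hq0)
  have hfg : algEquivAevalXAddC γ (X ^ q - C β : (𝓞 A)[X]) = g := by
    rw [hg, algEquivAevalXAddC_apply, map_sub, map_pow, aeval_X, aeval_C]
    rfl
  have hfirr : Irreducible (X ^ q - C β : (𝓞 A)[X]) := by
    rw [← hfg] at hgirr
    exact (MulEquiv.irreducible_iff (algEquivAevalXAddC γ)).1 hgirr
  have hfmon : (X ^ q - C β : (𝓞 A)[X]).Monic := monic_X_pow_sub_C β hq0
  have h3 := (hfmon.irreducible_iff_irreducible_map_fraction_map (K := A)).1 hfirr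
  rw [Polynomial.map_sub, Polynomial.map_pow, map_X, map_C] at h3
  have h4 : algebraMap (𝓞 A) A β = algebraMap K A (b : K) := by
    rw [hβ]
    rfl
  rw [h4] at h3
  exact h3

end Pool.Agent.H11.BK
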