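import Pool.Agent.H11.BK.DegL
import Pool.Agent.H11.BK.EisG
import Pool.Agent.H11.BK.RadK

/-!
# Module DegG (MP_187c26_nt, THEOREM VK): the degree condition, good or large primes

STATEMENT: as `deg_large`, but the prime factors `p` of `m_i` may also be small if they are GOOD: for all maximal ideals `P` of `𝓞 K` above `p`: `b_i ∉ P ^ 2`, and if
`b_i ∉ P` then `b_i` is not congruent to a `p`-th power modulo `P ^ 2`.

PROOF. `A = K(ξ)`, `p` prime, `p ^ k ∣ m_i`, `y = x_i ^ (m_i / p ^ k)`, `y ^ (p ^ k) = b_i`. CLAIM `[A(y) : A] = p ^ k`. If `p ≥ p₀`: as in `deg_large`.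
If `p` is good: `irr_good` (module EisG). So `m_i` divides `[A(x_1, …, x_r) : A]` (prime powers), and then as in `deg_large` for the pairwise coprime `m_i`.
-/

set_option autoImplicit false

open NumberField IntermediateField

namespace Pool.Agent.H11.BK

theorem deg_gen {K : Type} [Field K] [NumberField K] {r : ℕ} (b : Fin r → 𝓞 K)
    (hb : Ind K b) : ∃ p₀ : ℕ, ∀ (Ω : Type) [Field Ω] [CharZero Ω] [Algebra K Ω]
    [Algebra.IsAlgebraic K Ω] (n : ℕ) (m : Fin r → ℕ) (ξ : Ω) (x : Fin r → Ω), 1 ≤ n →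
    (∀ i, 1 ≤ m i) → (∀ i, Nat.Coprime n (m i)) → IsPrimitiveRoot ξ n →
    (∀ i, x i ^ m i = algebraMap (𝓞 K) Ω (b i)) → (∀ i j, i ≠ j → Nat.Coprime (m i) (m j)) →
    (∀ i p, p.Prime → p ∣ m i → p₀ ≤ p ∨ ∀ P : Ideal (𝓞 K), P.IsMaximal → (p : 𝓞 K) ∈ P →
      b i ∉ P ^ 2 ∧ (b i ∉ P → ∀ c : 𝓞 K, b i - c ^ p ∉ P ^ 2)) → Sys K b n m ξ x := by
  obtain ⟨p₀, hp3, hp₀⟩ := not_pow b hb
  refine ⟨p₀, ?_⟩
  intro Ω _ _ _ _ n m ξ x hn hm cn hξ hx hco hp
  have hxA : ∀ i, x i ^ m i = algebraMap (AA K ξ) Ω (bA b ξ i) := fun i => by rw [hx, coe_bA]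
  have hξi : IsIntegral K ξ := IsIntegral.of_pow hn (by rw [hξ.pow_eq_one]; exact isIntegral_one)
  have hfinA : FiniteDimensional K (AA K ξ) := IntermediateField.adjoin.finiteDimensional hξi
  have hnfA : NumberField (AA K ξ) := nf_of_fin _
  have hirr : ∀ i p k, p.Prime → p ∣ m i →
      Irreducible (Polynomial.X ^ (p ^ k) - Polynomial.C (bA b ξ i)) := by
    intro i p k hpp hpm
    rcases hp i p hpp hpm with h | h
    · refine X_pow_sub_C_irreducible_of_prime_pow hpp (by omega) k fun β hβ => ?_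
      refine hp₀ Ω n ξ β i p hn hξ β.2 h ?_
      have h1 := congrArg (algebraMap (AA K ξ) Ω) hβ
      rw [map_pow, coe_bA] at h1
      exact h1
    · have hpn : ¬ p ∣ n := fun h1 => Nat.not_coprime_of_dvd_of_dvd hpp.one_lt h1 hpm (cn i)
      exact irr_good (K := K) (A := AA K ξ) n hn ⟨ξ, mem_AA ξ⟩ (Subtype.ext hξ.pow_eq_one)
        (gen_top ξ) p hpp hpn (b i) h k
  have hfin := fin_adj hm hxA
  have hdvd : ∀ i, m i ∣
      Module.finrank (AA K ξ) (IntermediateField.adjoin (AA K ξ) (Set.range x)) := by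
    intro i
    rw [Nat.dvd_iff_prime_pow_dvd_dvd]
    intro p k hpp hpk
    rcases Nat.eq_zero_or_pos k with rfl | hk
    · rw [pow_zero]
      exact one_dvd _
    have hpm : p ∣ m i := (dvd_pow_self p (by omega)).trans hpk
    obtain ⟨t, ht⟩ := hpk
    have hy : (x i ^ t) ^ (p ^ k) = algebraMap (AA K ξ) Ω (bA b ξ i) := by
      rw [← pow_mul, mul_comm, ← ht, hxA]
    have h0 : Polynomial.aeval (x i ^ t) (Polynomial.X ^ (p ^ k) - Polynomial.C (bA b ξ i)) =
        0 := by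
      rw [map_sub, map_pow, Polynomial.aeval_X, Polynomial.aeval_C, hy, sub_self]
    have hpk1 : p ^ k ≠ 0 := (Nat.pow_pos hpp.pos).ne'
    have hmon := Polynomial.monic_X_pow_sub_C (bA b ξ i) hpk1
    have hint : IsIntegral (AA K ξ) (x i ^ t) := (isAlg_of_pow hm hxA i).pow t
    have h1 := minpoly.eq_of_irreducible_of_monic (hirr i p k hpp hpm) h0 hmon
    have h2 : Module.finrank (AA K ξ) ((AA K ξ)⟮x i ^ t⟯) = p ^ k := by
      rw [adjoin.finrank hint, ← h1, Polynomial.natDegree_X_pow_sub_C]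
    rw [← h2]
    apply IntermediateField.finrank_dvd_of_le_right
    rw [adjoin_simple_le_iff]
    have h3 : x i ∈ IntermediateField.adjoin (AA K ξ) (Set.range x) :=
      subset_adjoin _ _ ⟨i, rfl⟩
    exact pow_mem h3 t
  have hdvd' : ∏ i, m i ∣
      Module.finrank (AA K ξ) (IntermediateField.adjoin (AA K ξ) (Set.range x)) :=
    Fintype.prod_dvd_of_isRelPrime (fun i j hij => Nat.coprime_iff_isRelPrime.1 (hco i j hij))
      hdvd
  have hle := deg_le hm hxA
  have heq : Module.finrank (AA K ξ) (IntermediateField.adjoin (AA K ξ) (Set.range x)) =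
      ∏ i, m i := le_antisymm hle (Nat.le_of_dvd Module.finrank_pos hdvd')
  exact
    { hn := hn
      hm := hm
      cn := cn
      prim := hξ
      hx := hx
      deg := by rw [finrank_FF, heq, mul_comm] }

end Pool.Agent.H11.BK
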