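import Pool.Agent.H11.BK.Zero

/-!
# Module DegL (MP_187c26_nt, THEOREM VK): the degree condition for exponents with large prime factors

STATEMENT: `b_i ∈ 𝓞 K` nonzero, multiplicatively independent. There is `p₀` such that `[K(ξ, x_1, …, x_r) : K(ξ)] = ∏ m_i` for all roots of unity `ξ` and
all pairwise coprime `m_i` all of whose prime factors are `≥ p₀` (so `Sys K b n m ξ x` if moreover `n` is prime to the `m_i`).

PROOF. `zero` (module Zero) for `b : Fin 0`, `d = 1`: `c > 0` with: every `β ≠ 0` in `K(ξ)`, `ξ` a root of unity, `h(β) < c`, is a root of unity (`InG` for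
`Fin 0`: `β ^ k = ∏ over the empty set = 1`). `p₀ > h(b_i) / c` for all `i`, `p₀ ≥ 3`. If `b_i = β ^ p`, `p ≥ p₀` prime, `β ∈ K(ξ)`: `h(b_i) = p h(β)`
(`height_pow`), so `h(β) < c`, `β` and `b_i` are roots of unity, against the independence. So (`m_i` odd, `X_pow_sub_C_irreducible_iff_of_odd` or
`X_pow_sub_C_irreducible_of_odd`) `X ^ (m_i) - b_i` is irreducible over `A = K(ξ)` and `[A(x_i) : A] = m_i`. The degree of `A(x_1, …, x_r)` is divisible by all
`m_i`, pairwise coprime, so by `∏ m_i`, and it is at most `∏ m_i` (`deg_le` in module Lin). `finrank_FF` (module Bas) gives the field `deg` of `Sys`.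
-/

set_option autoImplicit false

open NumberField IntermediateField

namespace Pool.Agent.H11.BK

/-- Elements of `K(ξ)` of small height are roots of unity. -/
private theorem small_AA {K : Type} [Field K] [NumberField K] :
    ∃ c : ℝ, 0 < c ∧ ∀ (Ω : Type) [Field Ω] [CharZero Ω] [Algebra K Ω]
    [Algebra.IsAlgebraic K Ω] (n : ℕ) (ξ β : Ω), 1 ≤ n → IsPrimitiveRoot ξ n → β ∈ AA K ξ →
    β ≠ 0 → absLogHeight₁ β < c → ∃ k : ℕ, 1 ≤ k ∧ β ^ k = 1 := by
  obtain ⟨c, hc, h⟩ := zero (K := K) (fun i : Fin 0 => i.elim0) 1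
  refine ⟨c, hc, ?_⟩
  intro Ω _ _ _ _ n ξ β hn hξ hβ hβ0 hh
  have hFF : FF K ξ (fun i : Fin 0 => i.elim0) = AA K ξ := by
    unfold FF AA
    congr 1
    rw [Set.range_eq_empty, Set.union_empty]
  obtain ⟨k, hk, j, hj⟩ := h Ω n (fun i : Fin 0 => i.elim0) ξ (fun i : Fin 0 => i.elim0) β
    { hn := hn
      hm := fun i => i.elim0
      cn := fun i => i.elim0
      prim := hξ
      hx := fun i => i.elim0
      deg := by rw [hFF, Finset.univ_eq_empty, Finset.prod_empty, one_mul] } hβ0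
    (by
      unfold dgr
      have h1 : β ∈ FF K ξ (fun i : Fin 0 => i.elim0) := by rw [hFF]; exact hβ
      have h2 : minpoly (FF K ξ (fun i : Fin 0 => i.elim0)) β = _ :=
        minpoly.eq_X_sub_C (B := Ω)
          (⟨β, h1⟩ : FF K ξ (fun i : Fin 0 => i.elim0))
      rw [h2, Polynomial.natDegree_X_sub_C]) hh
  refine ⟨k, hk, ?_⟩
  rw [hj, Finset.univ_eq_empty, Finset.prod_empty]

/-- `b i` is not a `p`-th power in `K(ξ)`, `p` large. -/
theorem not_pow {K : Type} [Field K] [NumberField K] {r : ℕ} (b : Fin r → 𝓞 K)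
    (hb : Ind K b) : ∃ p₀ : ℕ, 3 ≤ p₀ ∧ ∀ (Ω : Type) [Field Ω] [CharZero Ω] [Algebra K Ω]
    [Algebra.IsAlgebraic K Ω] (n : ℕ) (ξ β : Ω) (i : Fin r) (p : ℕ), 1 ≤ n →
    IsPrimitiveRoot ξ n → β ∈ AA K ξ → p₀ ≤ p → β ^ p ≠ algebraMap (𝓞 K) Ω (b i) := by
  obtain ⟨c, hc, h⟩ := small_AA (K := K)
  obtain ⟨p₀, hp₀⟩ := exists_nat_gt (∑ i, absLogHeight₁ (b i : K) / c)
  refine ⟨max 3 p₀, le_max_left _ _, ?_⟩
  intro Ω _ _ _ _ n ξ β i p hn hξ hβ hp hpow
  have hp3 : 3 ≤ p := (le_max_left _ _).trans hp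
  have hpp : p₀ ≤ p := (le_max_right _ _).trans hp
  have hbK : (b i : K) ≠ 0 := RingOfIntegers.coe_ne_zero_iff.2 (hb.1 i)
  have hmap : algebraMap (𝓞 K) Ω (b i) = algebraMap K Ω (b i : K) := rfl
  have hb0 : algebraMap (𝓞 K) Ω (b i) ≠ 0 := by
    rw [hmap, Ne, map_eq_zero]
    exact hbK
  have hβ0 : β ≠ 0 := by
    rintro rfl
    rw [zero_pow (by omega)] at hpow
    exact hb0 hpow.symm
  have hβQ : IsIntegral ℚ β :=
    isIntegral_trans (R := ℚ) (A := K) β (Algebra.IsIntegral.isIntegral β)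
  have hbQ : ∀ i, IsIntegral ℚ (b i : K) := fun i => Algebra.IsIntegral.isIntegral _
  have h1 : absLogHeight₁ (algebraMap (𝓞 K) Ω (b i)) = absLogHeight₁ (b i : K) := by
    rw [hmap]
    exact (height_map (algebraMap K Ω) (b i : K) (hbQ i)).1
  have h2 : (p : ℝ) * absLogHeight₁ β = absLogHeight₁ (b i : K) := by
    rw [← Pool.Agent.H4.RR.absLogHeight_pow Ω β hβQ p, hpow, h1]
  have h3 : absLogHeight₁ (b i : K) / c < p := by
    have h4 : absLogHeight₁ (b i : K) / c ≤ ∑ i, absLogHeight₁ (b i : K) / c :=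
      Finset.single_le_sum (f := fun i => absLogHeight₁ (b i : K) / c) (fun j _ =>
        div_nonneg (height_map (algebraMap K Ω) (b j : K) (hbQ j)).2 hc.le) (Finset.mem_univ i)
    have h5 : (p₀ : ℝ) ≤ p := by exact_mod_cast hpp
    linarith
  have hp0 : (0 : ℝ) < p := by exact_mod_cast (by omega : 0 < p)
  have h4 : absLogHeight₁ β < c := by
    rw [div_lt_iff₀ hc, ← h2] at h3
    exact lt_of_mul_lt_mul_left h3 hp0.le
  obtain ⟨k, hk, hβk⟩ := h Ω n ξ β hn hξ hβ hβ0 h4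
  have h5 : (b i : K) ^ k = 1 := by
    apply (algebraMap K Ω).injective
    rw [map_pow, ← hmap, ← hpow, ← pow_mul, mul_comm, pow_mul, hβk, one_pow, map_one]
  have h6 := hb.2 (Pi.single i (k : ℤ)) (by
    rw [Finset.prod_eq_single i]
    · rw [Pi.single_eq_same, zpow_natCast, h5]
    · intro j _ hj
      rw [Pi.single_eq_of_ne hj, zpow_zero]
    · intro hi
      exact absurd (Finset.mem_univ i) hi)
  have h7 := congrFun h6 i
  rw [Pi.single_eq_same, Pi.zero_apply] at h7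
  omega

theorem deg_large {K : Type} [Field K] [NumberField K] {r : ℕ} (b : Fin r → 𝓞 K)
    (hb : Ind K b) : ∃ p₀ : ℕ, ∀ (Ω : Type) [Field Ω] [CharZero Ω] [Algebra K Ω]
    [Algebra.IsAlgebraic K Ω] (n : ℕ) (m : Fin r → ℕ) (ξ : Ω) (x : Fin r → Ω), 1 ≤ n →
    (∀ i, 1 ≤ m i) → (∀ i, Nat.Coprime n (m i)) → IsPrimitiveRoot ξ n →
    (∀ i, x i ^ m i = algebraMap (𝓞 K) Ω (b i)) → (∀ i j, i ≠ j → Nat.Coprime (m i) (m j)) →
    (∀ i p, p.Prime → p ∣ m i → p₀ ≤ p) → Sys K b n m ξ x := by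
  obtain ⟨p₀, hp3, hp₀⟩ := not_pow b hb
  refine ⟨p₀, ?_⟩
  intro Ω _ _ _ _ n m ξ x hn hm cn hξ hx hco hp
  have hxA : ∀ i, x i ^ m i = algebraMap (AA K ξ) Ω (bA b ξ i) := fun i => by rw [hx, coe_bA]
  have hodd : ∀ i, Odd (m i) := fun i => by
    rw [← Nat.not_even_iff_odd]
    intro h
    have h1 := hp i 2 Nat.prime_two h.two_dvd
    omega
  have hirr : ∀ i, Irreducible (Polynomial.X ^ m i - Polynomial.C (bA b ξ i)) := fun i => by
    refine X_pow_sub_C_irreducible_of_odd (hodd i) fun p hpp hpm β h => ?_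
    refine hp₀ Ω n ξ β i p hn hξ β.2 (hp i p hpp hpm) ?_
    have h1 := congrArg (algebraMap (AA K ξ) Ω) h
    rw [map_pow, coe_bA] at h1
    exact h1
  have hint : ∀ i, IsIntegral (AA K ξ) (x i) := fun i => isAlg_of_pow hm hxA i
  have hdeg : ∀ i, Module.finrank (AA K ξ) ((AA K ξ)⟮x i⟯) = m i := fun i => by
    rw [adjoin.finrank (hint i)]
    have h0 : Polynomial.aeval (x i) (Polynomial.X ^ m i - Polynomial.C (bA b ξ i)) = 0 := by
      rw [map_sub, map_pow, Polynomial.aeval_X, Polynomial.aeval_C, hxA, sub_self]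
    have h1 := minpoly.eq_of_irreducible_of_monic (hirr i) h0
      (Polynomial.monic_X_pow_sub_C _ (by have := hm i; omega))
    rw [← h1, Polynomial.natDegree_X_pow_sub_C]
  have hfin := fin_adj hm hxA
  have hdvd : ∏ i, m i ∣
      Module.finrank (AA K ξ) (IntermediateField.adjoin (AA K ξ) (Set.range x)) := by
    refine Fintype.prod_dvd_of_isRelPrime (fun i j hij => ?_) fun i => ?_
    · exact Nat.coprime_iff_isRelPrime.1 (hco i j hij)
    · rw [← hdeg i]
      apply IntermediateField.finrank_dvd_of_le_right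
      rw [adjoin_simple_le_iff]
      exact subset_adjoin _ _ ⟨i, rfl⟩
  have hle := deg_le hm hxA
  have heq : Module.finrank (AA K ξ) (IntermediateField.adjoin (AA K ξ) (Set.range x)) =
      ∏ i, m i := le_antisymm hle (Nat.le_of_dvd Module.finrank_pos hdvd)
  exact
    { hn := hn
      hm := hm
      cn := cn
      prim := hξ
      hx := hx
      deg := by rw [finrank_FF, heq, mul_comm] }

end Pool.Agent.H11.BK
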