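import Pool.Agent.H11.BK.Dsc

/-!
# Module DesK (MP_187c26_nt, THEOREM VK): the automorphism of `K(ξ, x)` over `K(ξ ^ q, x)`

Port of H72/BE/DesA, DesG to a number field `K`. `gal_one`, `gal_cyc`, `gal_abs` are copies. `frob_cong`: for `q ∣ n` prime, `q` prime to `N`
(module Dsc), to `E` (a multiple of `∏ b_i`) and to the `m_i`: `s(y) ^ q ≡ y ^ q` modulo `q` for the integers `y` of `K(ξ, x)`, where `s` fixes
`K`, the `x_i` and `ξ ^ q`.
-/

set_option autoImplicit false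

open NumberField IntermediateField

namespace Pool.Agent.H11.BK

open Pool.Agent.H4.OG (intOf mem_intOf)

private theorem gal_one {K L : Type} [Field K] [Field L] [Algebra K L] {ξ : L}
    (htop : Algebra.adjoin K {ξ} = ⊤) (s : L ≃ₐ[K] L) (hs : s ξ = ξ) : s = 1 := by
  have h1 : (s : L →ₐ[K] L) = AlgHom.id K L :=
    AlgHom.ext_of_adjoin_eq_top htop fun y hy => by
      rw [Set.mem_singleton_iff] at hy
      rw [hy]
      exact hs
  ext y
  exact DFunLike.congr_fun h1 y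

private theorem gal_cyc {K L : Type} [Field K] [Field L] [Algebra K L] [FiniteDimensional K L]
    {n q : ℕ} (hn : 1 ≤ n)
    {ξ : L} (hξ : IsPrimitiveRoot ξ n) (hq : q.Prime) (hqn : q ∣ n) {a : K}
    (ha : algebraMap K L a = ξ ^ q) (htop : Algebra.adjoin K {ξ} = ⊤) :
    IsCyclic (L ≃ₐ[K] L) := by
  have : NeZero q := ⟨hq.ne_zero⟩
  have hξ0 : ξ ≠ 0 := hξ.ne_zero (by omega)
  have hζ : IsPrimitiveRoot (ξ ^ (n / q)) q := by
    refine hξ.pow hn ?_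
    rw [Nat.div_mul_cancel hqn]
  by_cases hA : q ∣ n / q
  · -- case A
    have hfix : ∀ (s : L ≃ₐ[K] L) (z : L), z ^ q = 1 → s z = z := by
      intro s z hz
      obtain ⟨i, -, rfl⟩ := hζ.eq_pow_of_pow_eq_one hz
      have h1 : ξ ^ (n / q) = algebraMap K L (a ^ (n / q / q)) := by
        rw [map_pow, ha, ← pow_mul, Nat.mul_div_cancel' hA]
      rw [h1, ← map_pow, AlgEquiv.commutes]
    have hr : ∀ s : L ≃ₐ[K] L, (s ξ / ξ) ^ q = 1 := by
      intro s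
      have h1 : s (ξ ^ q) = ξ ^ q := by rw [← ha, AlgEquiv.commutes]
      rw [div_pow, ← map_pow, h1, div_self (pow_ne_zero _ hξ0)]
    let f : (L ≃ₐ[K] L) →* L :=
      { toFun := fun s => s ξ / ξ
        map_one' := by
          show ξ / ξ = 1
          exact div_self hξ0
        map_mul' := fun s t => by
          show s (t ξ) / ξ = s ξ / ξ * (t ξ / ξ)
          have h1 := hfix s _ (hr t)
          rw [map_div₀] at h1
          have hs0 : s ξ ≠ 0 := (map_ne_zero s).2 hξ0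
          rw [div_eq_iff hs0] at h1
          rw [h1]
          field_simp }
    refine isCyclic_of_injective_ringHom f fun s t hst => ?_
    have h1 : s ξ / ξ = t ξ / ξ := hst
    have h2 : s ξ = t ξ := by
      field_simp at h1
      exact h1
    have h3 : t⁻¹ * s = 1 := gal_one htop _ (by
      show t.symm (s ξ) = ξ
      rw [h2, AlgEquiv.symm_apply_apply])
    exact (inv_mul_eq_one.1 h3).symm
  · -- case B
    have : Fact q.Prime := ⟨hq⟩
    have hcop : Nat.Coprime q (n / q) := (Nat.Prime.coprime_iff_not_dvd hq).2 hA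
    let f : (L ≃ₐ[K] L) →* ZMod q := (Units.coeHom (ZMod q)).comp (hζ.autToPow K)
    refine isCyclic_of_injective_ringHom f ?_
    refine Function.Injective.comp (g := fun u : (ZMod q)ˣ => (u : ZMod q)) Units.val_injective ?_
    rw [injective_iff_map_eq_one]
    intro s hs
    have h1 : s (ξ ^ (n / q)) = ξ ^ (n / q) := by
      rw [← hζ.autToPow_spec K s, hs]
      rw [Units.val_one, ZMod.val_one, pow_one]
    refine gal_one htop s ?_
    have h2 : s (ξ ^ q) = ξ ^ q := by rw [← ha, AlgEquiv.commutes]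
    -- (s ξ / ξ) ^ q = 1, (s ξ / ξ) ^ (n/q) = 1
    have h3 : (s ξ / ξ) ^ q = 1 := by
      rw [div_pow, ← map_pow, h2, div_self (pow_ne_zero _ hξ0)]
    have h4 : (s ξ / ξ) ^ (n / q) = 1 := by
      rw [div_pow, ← map_pow, h1, div_self (pow_ne_zero _ hξ0)]
    have h5 : s ξ / ξ = 1 := by
      have h6 := Nat.dvd_gcd (orderOf_dvd_of_pow_eq_one h3) (orderOf_dvd_of_pow_eq_one h4)
      rw [hcop.gcd_eq_one, Nat.dvd_one, orderOf_eq_one_iff] at h6
      exact h6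
    exact (div_eq_one_iff_eq hξ0).1 h5

private theorem gal_abs {K L : Type} [Field K] [Field L] [Algebra K L] [CharZero K] {n q : ℕ}
    (hn : 1 ≤ n) {ξ : L} (hξ : IsPrimitiveRoot ξ n) (hq : q.Prime) (hqn : q ∣ n) {a : K}
    (ha : algebraMap K L a = ξ ^ q) (htop : Algebra.adjoin K {ξ} = ⊤)
    (hne : ξ ∉ Set.range (algebraMap K L)) :
    ∃ s : L ≃ₐ[K] L, (∀ y, s y = y ↔ y ∈ Set.range (algebraMap K L)) ∧
      ∀ k : ℕ, ∃ η : L, η ^ n = 1 ∧ s η = (ξ ^ (n / q)) ^ k * η := by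
  have : NeZero n := ⟨by omega⟩
  have : NeZero q := ⟨hq.ne_zero⟩
  have : Fact q.Prime := ⟨hq⟩
  have hξ0 : ξ ≠ 0 := hξ.ne_zero (by omega)
  have hc : IsCyclotomicExtension {n} K L := by
    rw [IsCyclotomicExtension.iff_adjoin_eq_top]
    refine ⟨fun r hr _ => ?_, ?_⟩
    · rw [Set.mem_singleton_iff] at hr
      rw [hr]
      exact ⟨ξ, hξ⟩
    · rw [eq_top_iff, ← htop]
      refine Algebra.adjoin_mono ?_
      rw [Set.singleton_subset_iff]
      exact ⟨n, rfl, by omega, hξ.pow_eq_one⟩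
  have : FiniteDimensional K L := IsCyclotomicExtension.finiteDimensional {n} K L
  have : IsGalois K L := IsCyclotomicExtension.isGalois {n} K L
  obtain ⟨s, hs⟩ := (gal_cyc hn hξ hq hqn ha htop).exists_generator
  have hfix : ∀ y, s y = y ↔ y ∈ Set.range (algebraMap K L) := by
    intro y
    refine ⟨fun hy => ?_, fun ⟨z, hz⟩ => by rw [← hz, AlgEquiv.commutes]⟩
    rw [IsGalois.mem_range_algebraMap_iff_fixed]
    intro f
    have h1 : s ∈ MulAction.stabilizer (L ≃ₐ[K] L) y := hy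
    have h2 : f ∈ MulAction.stabilizer (L ≃ₐ[K] L) y :=
      (Subgroup.zpowers_le.2 h1) (hs f)
    exact h2
  refine ⟨s, hfix, fun k => ?_⟩
  have hζ : IsPrimitiveRoot (ξ ^ (n / q)) q := by
    refine hξ.pow hn ?_
    rw [Nat.div_mul_cancel hqn]
  have h1 : s (ξ ^ q) = ξ ^ q := by rw [← ha, AlgEquiv.commutes]
  have h2 : (s ξ / ξ) ^ q = 1 := by
    rw [div_pow, ← map_pow, h1, div_self (pow_ne_zero _ hξ0)]
  obtain ⟨c, -, hc2⟩ := hζ.eq_pow_of_pow_eq_one h2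
  have h3 : s ξ = (ξ ^ (n / q)) ^ c * ξ := by
    rw [hc2, div_mul_cancel₀ _ hξ0]
  have hc0 : (c : ZMod q) ≠ 0 := by
    intro h0
    rw [ZMod.natCast_eq_zero_iff] at h0
    obtain ⟨t, rfl⟩ := h0
    rw [pow_mul, hζ.pow_eq_one, one_pow, one_mul] at h3
    exact hne ((hfix ξ).1 h3)
  refine ⟨ξ ^ ((c : ZMod q)⁻¹ * k).val, ?_, ?_⟩
  · rw [← pow_mul, mul_comm, pow_mul, hξ.pow_eq_one, one_pow]
  · rw [map_pow, h3, mul_pow, ← pow_mul]
    congr 1
    have h4 : c * ((c : ZMod q)⁻¹ * k).val ≡ k [MOD q] := by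
      rw [← ZMod.natCast_eq_natCast_iff, Nat.cast_mul, ZMod.natCast_zmod_val, ← mul_assoc,
        mul_inv_cancel₀ hc0, one_mul]
    exact pow_eq_pow_of_modEq h4 hζ.pow_eq_one

variable {K : Type} [Field K] [NumberField K] {r : ℕ} {Ω : Type} [Field Ω] [CharZero Ω]
  [Algebra K Ω] {b : Fin r → 𝓞 K} {n : ℕ} {m : Fin r → ℕ} {ξ : Ω} {x : Fin r → Ω}

/-- `ξ` as an element of `K(ξ, x)`. -/
noncomputable def ξF (K : Type) [Field K] {r : ℕ} {Ω : Type} [Field Ω] [Algebra K Ω] (ξ : Ω)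
    (x : Fin r → Ω) : FF K ξ x := ⟨ξ, mem_FF_ξ ξ x⟩

/-- `x i` as an element of `K(ξ, x)`. -/
noncomputable def xF (K : Type) [Field K] {r : ℕ} {Ω : Type} [Field Ω] [Algebra K Ω] (ξ : Ω)
    (x : Fin r → Ω) (i : Fin r) : FF K ξ x := ⟨x i, mem_FF ξ x i⟩

private theorem fc_pred {F : Type} [Field F] [NumberField F] (s : 𝓞 F ≃+* 𝓞 F) (q : ℕ)
    (hq : q.Prime) : (∀ y z : 𝓞 F, (∃ c, s y ^ q - y ^ q = q * c) →
      (∃ c, s z ^ q - z ^ q = q * c) → ∃ c, s (y + z) ^ q - (y + z) ^ q = q * c) ∧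
    (∀ y z : 𝓞 F, (∃ c, s y ^ q - y ^ q = q * c) →
      (∃ c, s z ^ q - z ^ q = q * c) → ∃ c, s (y * z) ^ q - (y * z) ^ q = q * c) ∧
    ∀ y : 𝓞 F, (∃ c, s y ^ q - y ^ q = q * c) → ∃ c, s (-y) ^ q - (-y) ^ q = q * c := by
  refine ⟨?_, ?_, ?_⟩
  · rintro y z ⟨c, hc⟩ ⟨d, hd⟩
    obtain ⟨t, ht⟩ := exists_add_pow_prime_eq hq (s y) (s z)
    obtain ⟨u, hu⟩ := exists_add_pow_prime_eq hq y z
    refine ⟨c + d + s y * s z * t - y * z * u, ?_⟩
    rw [map_add, ht, hu]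
    linear_combination hc + hd
  · rintro y z ⟨c, hc⟩ ⟨d, hd⟩
    refine ⟨c * s z ^ q + y ^ q * d, ?_⟩
    rw [map_mul, mul_pow, mul_pow]
    linear_combination (s z ^ q) * hc + y ^ q * hd
  · rintro y ⟨c, hc⟩
    refine ⟨(-1) ^ q * c, ?_⟩
    rw [map_neg, neg_pow, neg_pow y]
    linear_combination (-1) ^ q * hc

omit [NumberField K] [CharZero Ω] in
theorem gen_top (ξ : Ω) :
    IntermediateField.adjoin K {(⟨ξ, mem_AA ξ⟩ : AA K ξ)} = (⊤ : IntermediateField K (AA K ξ)) := by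
  rw [eq_top_iff]
  intro z _
  have h1 : (IntermediateField.adjoin K {(⟨ξ, mem_AA ξ⟩ : AA K ξ)}).map (AA K ξ).val =
      AA K ξ := by
    rw [IntermediateField.adjoin_map, Set.image_singleton]
    rfl
  have h2 : (z : Ω) ∈ (IntermediateField.adjoin K {(⟨ξ, mem_AA ξ⟩ : AA K ξ)}).map
      (AA K ξ).val := by
    rw [h1]
    exact z.2
  obtain ⟨w, hw, hwz⟩ := h2
  have h3 : w = z := Subtype.ext hwz
  rw [← h3]
  exact hw

/-- `N E ∏ m_i` kills the integers of `K(ξ, x)` modulo every ring which contains `𝓞 K`, `ξ` and the `x i`. -/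
theorem Sys.kill_ring [Algebra.IsAlgebraic K Ω] (h : Sys K b n m ξ x) (N : ℕ)
    (hN : ∀ (A : Type) [Field A] [NumberField A] [Algebra K A] (n : ℕ) (ξ : A), 1 ≤ n →
      IsPrimitiveRoot ξ n → IntermediateField.adjoin K {ξ} = ⊤ → ∀ (R : Subring A),
      (∀ s : 𝓞 K, algebraMap (𝓞 K) A s ∈ R) → ξ ∈ R → ∀ a : 𝓞 A, (N : A) * (a : A) ∈ R)
    (E : ℕ) (hE : (∏ i, b i) ∣ (E : 𝓞 K)) (R : Subring Ω)
    (hK : ∀ s : 𝓞 K, algebraMap (𝓞 K) Ω s ∈ R) (hξ : ξ ∈ R) (hx : ∀ i, x i ∈ R) (z : Ω)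
    (hz : z ∈ FF K ξ x) (hzi : IsIntegral ℤ z) :
    ((N * E * ∏ i, m i : ℕ) : Ω) * z ∈ R := by
  have := h.nf_A
  -- the integers of `K(ξ)`
  have hA : ∀ a ∈ intOf (AA K ξ), (N : Ω) * a ∈ R := by
    intro a ha
    rw [mem_intOf] at ha
    obtain ⟨a', ha'⟩ : ∃ a' : AA K ξ, (a' : Ω) = a := ⟨⟨a, ha.1⟩, rfl⟩
    have hai : IsIntegral ℤ a' := by
      refine (isIntegral_algHom_iff (IsScalarTower.toAlgHom ℤ (AA K ξ) Ω)
        (algebraMap (AA K ξ) Ω).injective).1 ?_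
      change IsIntegral ℤ (a' : Ω)
      rw [ha']
      exact ha.2
    have h1 := hN (AA K ξ) n ⟨ξ, mem_AA ξ⟩ h.hn (IsPrimitiveRoot.of_map_of_injective
      (f := algebraMap (AA K ξ) Ω) h.prim (algebraMap (AA K ξ) Ω).injective) (gen_top ξ)
      (R.comap (algebraMap (AA K ξ) Ω)) (fun s => hK s) hξ ⟨a', hai⟩
    have h2 : algebraMap (AA K ξ) Ω ((N : AA K ξ) * a') ∈ R := h1
    rw [map_mul, map_natCast] at h2
    rw [← ha']
    exact h2
  have h1 := kill_F h.hm h.hx z ((mem_intOf _ _).2 ⟨hz, hzi⟩)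
  have h2 := Pool.Agent.H11.FR.mem_sup_closure _ _ _ h1
  have h3 : ∀ w ∈ AddSubgroup.closure {t : Ω | ∃ a ∈ intOf (AA K ξ),
      ∃ w ∈ Subring.closure (Set.range x), t = a * w}, (N : Ω) * w ∈ R := by
    intro w hw
    induction hw using AddSubgroup.closure_induction with
    | mem w hw =>
      obtain ⟨a, ha, w, hw, rfl⟩ := hw
      rw [← mul_assoc]
      refine R.mul_mem (hA a ha) ?_
      have h4 : Subring.closure (Set.range x) ≤ R := by
        rw [Subring.closure_le]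
        rintro _ ⟨i, rfl⟩
        exact hx i
      exact h4 hw
    | zero =>
      rw [mul_zero]
      exact R.zero_mem
    | add u v _ _ hu hv =>
      rw [mul_add]
      exact R.add_mem hu hv
    | neg u _ hu =>
      rw [mul_neg]
      exact R.neg_mem hu
  have h4 := h3 _ h2
  obtain ⟨c, hc⟩ := hE
  have h5 : ((N * E * ∏ i, m i : ℕ) : Ω) * z = algebraMap (𝓞 K) Ω c *
      ((N : Ω) * (algebraMap (𝓞 K) Ω (∏ i, (m i : 𝓞 K) * b i) * z)) := by
    have h6 : ((E : ℕ) : Ω) = algebraMap (𝓞 K) Ω (∏ i, b i) * algebraMap (𝓞 K) Ω c := by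
      rw [← map_mul, ← hc, map_natCast]
    rw [Finset.prod_mul_distrib, map_mul (algebraMap (𝓞 K) Ω), Nat.cast_mul, Nat.cast_mul,
      Nat.cast_prod, h6]
    have h7 : algebraMap (𝓞 K) Ω (∏ i, (m i : 𝓞 K)) = ∏ i, (m i : Ω) := by
      rw [map_prod]
      exact Finset.prod_congr rfl fun i _ => map_natCast _ _
    rw [h7]
    ring
  rw [h5]
  exact R.mul_mem (hK c) h4

theorem Sys.frob_cong [Algebra.IsAlgebraic K Ω] (h : Sys K b n m ξ x)
    [NumberField (FF K ξ x)] (N : ℕ)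
    (hN : ∀ (A : Type) [Field A] [NumberField A] [Algebra K A] (n : ℕ) (ξ : A), 1 ≤ n →
      IsPrimitiveRoot ξ n → IntermediateField.adjoin K {ξ} = ⊤ → ∀ (R : Subring A),
      (∀ s : 𝓞 K, algebraMap (𝓞 K) A s ∈ R) → ξ ∈ R → ∀ a : 𝓞 A, (N : A) * (a : A) ∈ R)
    (E : ℕ) (hE : (∏ i, b i) ∣ (E : 𝓞 K)) (q : ℕ) (hq : q.Prime) (hqn : q ∣ n)
    (hqN : ¬ q ∣ N) (hqE : ¬ q ∣ E) (s : FF K ξ x ≃+* FF K ξ x)
    (hsK : ∀ y : K, s (algebraMap K (FF K ξ x) y) = algebraMap K (FF K ξ x) y)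
    (hsx : ∀ i, s (xF K ξ x i) = xF K ξ x i) (hsξ : s (ξF K ξ x ^ q) = ξF K ξ x ^ q) :
    ∀ y : 𝓞 (FF K ξ x), ∃ c : 𝓞 (FF K ξ x),
      s (y : FF K ξ x) ^ q - (y : FF K ξ x) ^ q = q * (c : FF K ξ x) := by
  obtain ⟨s', hs'⟩ : ∃ s' : 𝓞 (FF K ξ x) ≃+* 𝓞 (FF K ξ x), ∀ y,
      algebraMap (𝓞 (FF K ξ x)) (FF K ξ x) (s' y) = s (algebraMap (𝓞 (FF K ξ x)) (FF K ξ x) y) :=
    ⟨RingOfIntegers.mapRingEquiv s, fun y => rfl⟩
  obtain ⟨padd, pmul, pneg⟩ := fc_pred s' q hq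
  obtain ⟨R, hR⟩ : ∃ R : Subring Ω, ∀ z : Ω, z ∈ R ↔ ∃ y : 𝓞 (FF K ξ x),
      ((y : FF K ξ x) : Ω) = z ∧ ∃ c, s' y ^ q - y ^ q = q * c := by
    refine ⟨{ carrier := {z | ∃ y : 𝓞 (FF K ξ x), ((y : FF K ξ x) : Ω) = z ∧
                ∃ c, s' y ^ q - y ^ q = q * c}
              zero_mem' := ⟨0, by simp, 0, by rw [map_zero, sub_self, mul_zero]⟩
              one_mem' := ⟨1, by simp, 0, by rw [map_one, sub_self, mul_zero]⟩
              add_mem' := ?_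
              neg_mem' := ?_
              mul_mem' := ?_ }, fun z => Iff.rfl⟩
    · rintro _ _ ⟨y, rfl, hy⟩ ⟨t, rfl, ht⟩
      exact ⟨y * t, rfl, pmul y t hy ht⟩
    · rintro _ _ ⟨y, rfl, hy⟩ ⟨t, rfl, ht⟩
      exact ⟨y + t, rfl, padd y t hy ht⟩
    · rintro _ ⟨y, rfl, hy⟩
      exact ⟨-y, rfl, pneg y hy⟩
  have hgen : ∀ (w : FF K ξ x) (hw : IsIntegral ℤ (w : Ω)), s (w ^ q) = w ^ q → (w : Ω) ∈ R := by
    intro w hw hsw
    have hint : IsIntegral ℤ w :=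
      (isIntegral_algHom_iff (IsScalarTower.toAlgHom ℤ (FF K ξ x) Ω)
        (algebraMap (FF K ξ x) Ω).injective).1 hw
    obtain ⟨t, ht⟩ : ∃ t : 𝓞 (FF K ξ x), algebraMap (𝓞 (FF K ξ x)) (FF K ξ x) t = w :=
      ⟨⟨w, hint⟩, rfl⟩
    rw [hR]
    refine ⟨t, congrArg Subtype.val ht, 0, ?_⟩
    apply RingOfIntegers.coe_injective
    rw [mul_zero, map_sub, map_pow, map_pow, hs', map_zero, ht, ← map_pow, hsw, sub_self]
  have hKR : ∀ t : 𝓞 K, algebraMap (𝓞 K) Ω t ∈ R := by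
    intro t
    refine hgen (algebraMap K (FF K ξ x) (t : K)) (Pool.Agent.H11.FR.isIntegral_algebraMap_int t) ?_
    rw [map_pow, hsK]
  have hξR : ξ ∈ R := hgen (ξF K ξ x) h.integral_ξ hsξ
  have hxR : ∀ i, x i ∈ R := fun i => hgen (xF K ξ x i) (h.integral_x i) (by rw [map_pow, hsx])
  intro y
  have hyi : IsIntegral ℤ ((y : FF K ξ x) : Ω) :=
    y.isIntegral_coe.map (algebraMap (FF K ξ x) Ω).toIntAlgHom
  have h1 := h.kill_ring N hN E hE R hKR hξR hxR _ (y : FF K ξ x).2 hyi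
  obtain ⟨M, hM⟩ : ∃ M, M = N * E * ∏ i, m i := ⟨_, rfl⟩
  rw [← hM, hR] at h1
  obtain ⟨t, ht, c, hc⟩ := h1
  have htN : t = (M : 𝓞 (FF K ξ x)) * y := by
    apply RingOfIntegers.coe_injective
    apply Subtype.ext
    rw [map_mul, map_natCast]
    exact ht
  have hcop : Nat.Coprime (M ^ q) q := by
    apply Nat.Coprime.pow_left
    rw [hM]
    refine Nat.Coprime.mul_left (Nat.Coprime.mul_left
      ((Nat.Prime.coprime_iff_not_dvd hq).2 hqN).symm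
      ((Nat.Prime.coprime_iff_not_dvd hq).2 hqE).symm) ?_
    exact (Nat.Coprime.prod_right fun i _ => Nat.Coprime.coprime_dvd_left hqn (h.cn i)).symm
  have hbez : ∃ u v : ℤ, u * (M ^ q : ℕ) + v * q = 1 := by
    have h1 : IsCoprime ((M ^ q : ℕ) : ℤ) (q : ℤ) := Nat.isCoprime_iff_coprime.2 hcop
    exact h1
  obtain ⟨u, v, huv⟩ := hbez
  have huv' : (u : 𝓞 (FF K ξ x)) * (M : 𝓞 (FF K ξ x)) ^ q + v * q = 1 := by
    have h1 := congrArg (fun z : ℤ => (z : 𝓞 (FF K ξ x))) huv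
    push_cast at h1
    exact h1
  rw [htN, map_mul, map_natCast, mul_pow, mul_pow] at hc
  refine ⟨u * c + v * (s' y ^ q - y ^ q), ?_⟩
  have h2 : s' y ^ q - y ^ q = q * (u * c + v * (s' y ^ q - y ^ q)) := by
    linear_combination (-(s' y ^ q - y ^ q)) * huv' + u * hc
  have h3 := congrArg (algebraMap (𝓞 (FF K ξ x)) (FF K ξ x)) h2
  rw [map_sub, map_pow, map_pow, hs', map_mul, map_natCast] at h3
  exact h3

theorem Sys.exists_s (h : Sys K b n m ξ x) (q : ℕ) (hq : q.Prime) (hqn : q ∣ n)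
    (hξ : ξ ∉ FF K (ξ ^ q) x) :
    ∃ s : FF K ξ x ≃+* FF K ξ x, (∀ y : FF K ξ x, s y = y ↔ (y : Ω) ∈ FF K (ξ ^ q) x) ∧
      ∀ k : ℕ, ∃ η : FF K ξ x, η ^ n = 1 ∧ s η = (ξF K ξ x ^ (n / q)) ^ k * η := by
  have hle : FF K (ξ ^ q) x ≤ FF K ξ x := FF_mono ξ (ξ ^ q) x (pow_mem (mem_FF_ξ ξ x) q)
  let alg : Algebra (FF K (ξ ^ q) x) (FF K ξ x) :=
    (IntermediateField.inclusion hle).toRingHom.toAlgebra
  have tow : IsScalarTower (FF K (ξ ^ q) x) (FF K ξ x) Ω := IsScalarTower.of_algebraMap_eq' rfl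
  have htop : Algebra.adjoin (FF K (ξ ^ q) x) {ξF K ξ x} = ⊤ := by
    have halg : IsIntegral (FF K (ξ ^ q) x) ξ := h.integral_ξ.tower_top
    have h1 : ∀ y ∈ FF K ξ x, y ∈ IntermediateField.adjoin (FF K (ξ ^ q) x) {ξ} := by
      intro y hy
      have h2 : IntermediateField.adjoin K ({ξ} ∪ Set.range x) ≤
          (IntermediateField.adjoin (FF K (ξ ^ q) x) {ξ}).restrictScalars K := by
        rw [IntermediateField.adjoin_le_iff]
        rintro z (hz | ⟨i, rfl⟩)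
        · rw [Set.mem_singleton_iff] at hz
          rw [hz]
          exact IntermediateField.mem_adjoin_simple_self _ ξ
        · exact (IntermediateField.adjoin (FF K (ξ ^ q) x) {ξ}).algebraMap_mem
            ⟨x i, mem_FF (ξ ^ q) x i⟩
      exact h2 hy
    rw [Algebra.eq_top_iff]
    intro y
    have h3 := h1 y y.2
    rw [← IntermediateField.mem_toSubalgebra,
      IntermediateField.adjoin_simple_toSubalgebra_of_isAlgebraic halg.isAlgebraic] at h3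
    have h4 : (Algebra.adjoin (FF K (ξ ^ q) x) {ξF K ξ x}).map
        (IsScalarTower.toAlgHom (FF K (ξ ^ q) x) (FF K ξ x) Ω) =
        Algebra.adjoin (FF K (ξ ^ q) x) {ξ} := by
      rw [AlgHom.map_adjoin, Set.image_singleton]
      rfl
    rw [← h4] at h3
    obtain ⟨z, hz, hzy⟩ := h3
    have h5 : z = y := Subtype.ext hzy
    rw [← h5]
    exact hz
  have hξF : IsPrimitiveRoot (ξF K ξ x) n :=
    IsPrimitiveRoot.of_map_of_injective (f := (FF K ξ x).val) h.prim (FF K ξ x).val.injective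
  obtain ⟨s, hs, hk⟩ := gal_abs h.hn hξF hq hqn
    (a := (⟨ξ ^ q, mem_FF_ξ _ x⟩ : FF K (ξ ^ q) x)) (Subtype.ext rfl) htop
    (fun ⟨z, hz⟩ => hξ (by
      have h1 : (z : Ω) = ξ := congrArg Subtype.val hz
      have h2 := z.2
      rwa [h1] at h2))
  exact ⟨s.toRingEquiv, fun y => (hs y).trans ⟨fun ⟨z, hz⟩ => by
    rw [← hz]
    exact z.2, fun hy => ⟨⟨y, hy⟩, rfl⟩⟩, hk⟩

end Pool.Agent.H11.BK
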