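import Pool.Agent.H11.BK.DesK
import Pool.Agent.H72.BE.DesB

/-!
# Module DescK (MP_187c26_nt, THEOREM VK): the descent in `n` over a number field

Port of H72/BE/DesC, DesS. For `q ∣ n` prime and large and `α` of small height: `η ^ n = 1` such that the degree of `η α` over `K(ξ ^ q, x)` is at
most the degree of `α` over `K(ξ, x)`.
-/

set_option autoImplicit false

open NumberField IntermediateField

namespace Pool.Agent.H11.BK

private theorem ext_hom {F Ω M : Type} [Field F] [Field Ω] [Field M] [Algebra F Ω]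
    [Algebra.IsAlgebraic F Ω] [IsAlgClosed M] (f : F →+* M) :
    ∃ σ : Ω →+* M, ∀ y, σ (algebraMap F Ω y) = f y := by
  let _ : Algebra F M := f.toAlgebra
  exact ⟨(IsAlgClosed.lift : Ω →ₐ[F] M), fun y => (IsAlgClosed.lift : Ω →ₐ[F] M).commutes y⟩

private theorem ext_aeval {F Ω : Type} [Field F] [Field Ω] [Algebra F Ω] (s : F ≃+* F)
    (σ : Ω →+* Ω) (hσ : ∀ y, σ (algebraMap F Ω y) = algebraMap F Ω (s y))
    (f : Polynomial F) (α : Ω) (hf : Polynomial.aeval α f = 0) :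
    Polynomial.aeval (σ α) (f.map (s : F →+* F)) = 0 := by
  rw [Polynomial.aeval_def, Polynomial.eval₂_map]
  have h1 : (algebraMap F Ω).comp (s : F →+* F) = σ.comp (algebraMap F Ω) := by
    ext y
    exact (hσ y).symm
  rw [h1, ← Polynomial.hom_eval₂, ← Polynomial.aeval_def, hf, map_zero]

section

variable {K : Type} [Field K] [NumberField K] {Ω : Type} [Field Ω] [CharZero Ω] [Algebra K Ω]
  [Algebra.IsAlgebraic K Ω] [IsAlgClosed Ω] {r : ℕ} {b : Fin r → 𝓞 K} {n : ℕ} {m : Fin r → ℕ}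
  {ξ : Ω} {x : Fin r → Ω}

theorem Sys.desc (h : Sys K b n m ξ x) (N : ℕ)
    (hN : ∀ (A : Type) [Field A] [NumberField A] [Algebra K A] (n : ℕ) (ξ : A), 1 ≤ n →
      IsPrimitiveRoot ξ n → IntermediateField.adjoin K {ξ} = ⊤ → ∀ (R : Subring A),
      (∀ s : 𝓞 K, algebraMap (𝓞 K) A s ∈ R) → ξ ∈ R → ∀ a : 𝓞 A, (N : A) * (a : A) ∈ R)
    (E : ℕ) (hE : (∏ i, b i) ∣ (E : 𝓞 K)) (q : ℕ) (hq : q.Prime) (hq2 : 3 ≤ q) (hqn : q ∣ n)
    (hqN : ¬ q ∣ N) (hqE : ¬ q ∣ E)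
    (α : Ω) (d : ℕ) (hd : (minpoly (FF K ξ x) α).natDegree = d)
    (hh : 2 * q * d * absLogHeight₁ α + d * Real.log 2 < Real.log q) :
    ∃ η : Ω, η ^ n = 1 ∧ (minpoly (FF K (ξ ^ q) x) (η * α)).natDegree ≤ d := by
  by_cases hξ : ξ ∈ FF K (ξ ^ q) x
  · have h1 : FF K (ξ ^ q) x = FF K ξ x := le_antisymm
      (FF_mono ξ (ξ ^ q) x (pow_mem (mem_FF_ξ ξ x) q)) (FF_mono (ξ ^ q) ξ x hξ)
    refine ⟨1, one_pow _, ?_⟩
    rw [h1, one_mul]
    exact hd.le
  have := h.nf_F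
  obtain ⟨s, hs1, hs2⟩ := h.exists_s q hq hqn hξ
  have hprim : IsPrimitiveRoot (ξF K ξ x) n :=
    IsPrimitiveRoot.of_map_of_injective (f := algebraMap (FF K ξ x) Ω) h.prim
      (algebraMap (FF K ξ x) Ω).injective
  have hζ : IsPrimitiveRoot (ξF K ξ x ^ (n / q)) q := by
    refine hprim.pow h.hn ?_
    rw [Nat.div_mul_cancel hqn]
  have hsx : ∀ i, s (xF K ξ x i) = xF K ξ x i := fun i => (hs1 _).2 (mem_FF (ξ ^ q) x i)
  have hsξ : s (ξF K ξ x ^ q) = ξF K ξ x ^ q := (hs1 _).2 (mem_FF_ξ (ξ ^ q) x)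
  have hfr := h.frob_cong N hN E hE q hq hqn hqN hqE s
    (fun y => (hs1 _).2 ((FF K (ξ ^ q) x).algebraMap_mem y)) hsx hsξ
  have hαK : IsIntegral K α := Algebra.IsIntegral.isIntegral α
  have hαQ : IsIntegral ℚ α := isIntegral_trans (R := ℚ) (A := K) α hαK
  have hαF : IsIntegral (FF K ξ x) α := hαK.tower_top
  have halg : Algebra.IsAlgebraic (FF K ξ x) Ω :=
    Algebra.IsAlgebraic.tower_top (K := K) (FF K ξ x)
  obtain ⟨σ, hσ⟩ := ext_hom (F := FF K ξ x) (Ω := Ω) (M := Ω)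
    ((algebraMap (FF K ξ x) Ω).comp (s : FF K ξ x →+* FF K ξ x))
  have hσ' : ∀ y, σ (algebraMap (FF K ξ x) Ω y) = algebraMap (FF K ξ x) Ω (s y) := hσ
  have hβ := ext_aeval s σ hσ' (minpoly (FF K ξ x) α) α (minpoly.aeval _ _)
  obtain ⟨k, hk⟩ := Pool.Agent.H72.BE.desc_height q hq hq2 _ hζ s hfr α (σ α) hαQ d hd hβ hh
  obtain ⟨η, hηn, hη⟩ := hs2 k
  have hmin : minpoly (FF K ξ x) (algebraMap (FF K ξ x) Ω ((ξF K ξ x ^ (n / q)) ^ k) * σ α) =
      minpoly (FF K ξ x) α :=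
    (minpoly.eq_of_irreducible_of_monic (minpoly.irreducible hαF) hk (minpoly.monic hαF)).symm
  have hnorm : Normal (FF K ξ x) Ω := by
    have : IsAlgClosure (FF K ξ x) Ω := ⟨inferInstance, inferInstance⟩
    exact IsAlgClosure.normal (FF K ξ x) Ω
  obtain ⟨τ, hτ⟩ := isConjRoot_iff_exists_algEquiv.1 hmin
  obtain ⟨ρ, hρ⟩ : ∃ ρ : Ω ≃ₐ[FF K ξ x] Ω,
      ρ (algebraMap (FF K ξ x) Ω ((ξF K ξ x ^ (n / q)) ^ k) * σ α) = α :=
    ⟨τ.symm, by rw [← hτ, AlgEquiv.symm_apply_apply]⟩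
  have hn0 : n ≠ 0 := by have := h.hn; omega
  have hη0 : η ≠ 0 := by
    rintro rfl
    rw [zero_pow hn0] at hηn
    exact zero_ne_one hηn
  set ηΩ : Ω := algebraMap (FF K ξ x) Ω η with hηΩ
  have hη0' : ηΩ ≠ 0 := (map_ne_zero _).2 hη0
  -- the homomorphism `ρ ∘ σ`
  set ω : Ω →+* Ω := (ρ : Ω →+* Ω).comp σ with hω
  have hωF : ∀ y, ω (algebraMap (FF K ξ x) Ω y) = algebraMap (FF K ξ x) Ω (s y) := by
    intro y
    show ρ (σ (algebraMap (FF K ξ x) Ω y)) = _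
    rw [hσ', AlgEquiv.commutes]
  have hωα : ω (ηΩ * α) = ηΩ * α := by
    show ρ (σ (ηΩ * α)) = _
    rw [map_mul, hηΩ, hσ', hη]
    have h1 : ρ (algebraMap (FF K ξ x) Ω ((ξF K ξ x ^ (n / q)) ^ k * η) * σ α) =
        ρ (algebraMap (FF K ξ x) Ω ((ξF K ξ x ^ (n / q)) ^ k) * σ α) * algebraMap (FF K ξ x) Ω η := by
      rw [← AlgEquiv.commutes ρ η, ← map_mul, map_mul (algebraMap (FF K ξ x) Ω)]
      congr 1
      ring
    rw [h1, hρ, mul_comm]
  have hα'F : IsIntegral (FF K ξ x) (ηΩ * α) :=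
    (Algebra.IsIntegral.isIntegral (R := FF K ξ x) (ηΩ * α))
  set f := minpoly (FF K ξ x) (ηΩ * α) with hf
  have hfmon : f.Monic := minpoly.monic hα'F
  have hfd : f.natDegree ≤ d := by
    have h1 : Polynomial.aeval (ηΩ * α) ((minpoly (FF K ξ x) α).scaleRoots η) = 0 :=
      Polynomial.scaleRoots_aeval_eq_zero (minpoly.aeval _ _)
    have h2 := minpoly.dvd _ _ h1
    have h3 : (minpoly (FF K ξ x) α).scaleRoots η ≠ 0 :=
      ((Polynomial.monic_scaleRoots_iff η).2 (minpoly.monic hαF)).ne_zero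
    have h4 := Polynomial.natDegree_le_of_dvd h2 h3
    rw [Polynomial.natDegree_scaleRoots, hd] at h4
    exact h4
  have hfs : f.map (s : FF K ξ x →+* FF K ξ x) = f := by
    have h1 := ext_aeval s ω hωF f (ηΩ * α) (minpoly.aeval _ _)
    rw [hωα] at h1
    have h2 := minpoly.dvd _ _ h1
    have h3 : (f.map (s : FF K ξ x →+* FF K ξ x)).natDegree = f.natDegree :=
      hfmon.natDegree_map _
    exact Polynomial.eq_of_monic_of_dvd_of_natDegree_le hfmon (hfmon.map _) h2 h3.le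
  have hcoef : ∀ i, ((f.coeff i : FF K ξ x) : Ω) ∈ FF K (ξ ^ q) x := by
    intro i
    rw [← hs1]
    have h1 := congrArg (fun p => Polynomial.coeff p i) hfs
    rw [Polynomial.coeff_map] at h1
    exact h1
  have hlift : f.map (algebraMap (FF K ξ x) Ω) ∈
      Polynomial.lifts (algebraMap (FF K (ξ ^ q) x) Ω) := by
    rw [Polynomial.lifts_iff_coeff_lifts]
    intro i
    rw [Polynomial.coeff_map]
    exact ⟨⟨_, hcoef i⟩, rfl⟩
  obtain ⟨g, hg1, hg2, hg3⟩ := Polynomial.lifts_and_natDegree_eq_and_monic hlift (hfmon.map _)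
  refine ⟨ηΩ, ?_, ?_⟩
  · rw [hηΩ, ← map_pow, hηn, map_one]
  · have h1 : Polynomial.aeval (ηΩ * α) g = 0 := by
      rw [Polynomial.aeval_def, ← Polynomial.eval_map, hg1, Polynomial.eval_map,
        ← Polynomial.aeval_def]
      exact minpoly.aeval _ _
    have h2 := Polynomial.natDegree_le_of_dvd (minpoly.dvd _ _ h1) hg3.ne_zero
    rw [hg2, hfmon.natDegree_map] at h2
    exact h2.trans hfd

end

theorem nd_equiv {K K' T : Type} [Field K] [Field K'] [Field T] [Algebra K T]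
    [Algebra K' T] (f : K ≃+* K') (h : ∀ y, algebraMap K' T (f y) = algebraMap K T y) (a : T) :
    (minpoly K' a).natDegree = (minpoly K a).natDegree := by
  have hc : (algebraMap K' T).comp (f : K →+* K') = algebraMap K T := RingHom.ext h
  by_cases ha : IsIntegral K a
  · have h1 : (minpoly K a).map (f : K →+* K') = minpoly K' a := by
      refine minpoly.eq_of_irreducible_of_monic ?_ ?_ ((minpoly.monic ha).map _)
      · rw [← Polynomial.mapEquiv_apply, MulEquiv.irreducible_iff]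
        exact minpoly.irreducible ha
      · rw [Polynomial.aeval_def, Polynomial.eval₂_map, hc, ← Polynomial.aeval_def]
        exact minpoly.aeval K a
    rw [← h1, Polynomial.natDegree_map_eq_of_injective f.injective]
  · have ha' : ¬ IsIntegral K' a := by
      rintro ⟨P, hP, hP0⟩
      refine ha ⟨P.map (f.symm : K' →+* K), hP.map _, ?_⟩
      rw [Polynomial.eval₂_map]
      have h2 : (algebraMap K T).comp (f.symm : K' →+* K) = algebraMap K' T := by
        refine RingHom.ext fun y => ?_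
        have h3 := h (f.symm y)
        rw [f.apply_symm_apply] at h3
        exact h3.symm
      rw [h2]
      exact hP0
    rw [minpoly.eq_zero ha, minpoly.eq_zero ha', Polynomial.natDegree_zero,
      Polynomial.natDegree_zero]

theorem height_map {Ω Ω' : Type} [Field Ω] [CharZero Ω] [Field Ω'] [CharZero Ω']
    (σ : Ω →+* Ω') (a : Ω) (ha : IsIntegral ℚ a) : absLogHeight₁ (σ a) = absLogHeight₁ a ∧
    0 ≤ absLogHeight₁ a := by
  have : FiniteDimensional ℚ ℚ⟮a⟯ := adjoin.finiteDimensional ha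
  have : NumberField ℚ⟮a⟯ := {}
  have h1 := Pool.Agent.H4.RR.absLogHeight_eq ℚ⟮a⟯ Ω (ℚ⟮a⟯.val : ℚ⟮a⟯ →+* Ω)
    (AdjoinSimple.gen ℚ a)
  have h2 := Pool.Agent.H4.RR.absLogHeight_eq ℚ⟮a⟯ Ω' (σ.comp (ℚ⟮a⟯.val : ℚ⟮a⟯ →+* Ω))
    (AdjoinSimple.gen ℚ a)
  have h3 : (ℚ⟮a⟯.val : ℚ⟮a⟯ →+* Ω) (AdjoinSimple.gen ℚ a) = a := rfl
  have h4 : (σ.comp (ℚ⟮a⟯.val : ℚ⟮a⟯ →+* Ω)) (AdjoinSimple.gen ℚ a) = σ a := rfl
  rw [h3] at h1
  rw [h4] at h2
  refine ⟨by rw [h1, h2], ?_⟩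
  rw [h1]
  exact div_nonneg (Height.zero_le_logHeight₁ _) (Nat.cast_nonneg _)

theorem degree_map {K : Type} [Field K] [NumberField K] {Ω Ω' : Type} [Field Ω] [CharZero Ω]
    [Algebra K Ω] [Field Ω'] [CharZero Ω'] [Algebra K Ω'] (φ : Ω →ₐ[K] Ω') {r : ℕ} (ξ : Ω)
    (x : Fin r → Ω) (α : Ω) : dgr K (φ ξ) (fun i => φ (x i)) (φ α) = dgr K ξ x α := by
  have h1 : (FF K ξ x).map φ = FF K (φ ξ) (fun i => φ (x i)) := by
    unfold FF
    rw [IntermediateField.adjoin_map, Set.image_union, Set.image_singleton, ← Set.range_comp]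
    rfl
  unfold dgr
  rw [← h1]
  let e : FF K ξ x ≃ₐ[K] (FF K ξ x).map φ := IntermediateField.equivMap (FF K ξ x) φ
  let : Algebra (FF K ξ x) Ω' := (φ.toRingHom.comp (algebraMap (FF K ξ x) Ω)).toAlgebra
  let τ : Ω →ₐ[FF K ξ x] Ω' := { φ.toRingHom with commutes' := fun r => rfl }
  have h2 : minpoly (FF K ξ x) (τ α) = minpoly (FF K ξ x) α :=
    minpoly.algHom_eq τ τ.injective α
  have h4 : τ α = φ α := rfl
  rw [nd_equiv (T := Ω') e.toRingEquiv (fun y => rfl) (φ α), ← h4, h2]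

theorem Sys.map {K : Type} [Field K] [NumberField K] {Ω Ω' : Type} [Field Ω] [CharZero Ω]
    [Algebra K Ω] [Field Ω'] [CharZero Ω'] [Algebra K Ω'] (φ : Ω →ₐ[K] Ω') {r : ℕ}
    {b : Fin r → 𝓞 K} {n : ℕ} {m : Fin r → ℕ} {ξ : Ω} {x : Fin r → Ω} (h : Sys K b n m ξ x) :
    Sys K b n m (φ ξ) (fun i => φ (x i)) where
  hn := h.hn
  hm := h.hm
  cn := h.cn
  prim := h.prim.map_of_injective φ.injective
  hx := fun i => by
    rw [← map_pow, h.hx i]
    exact φ.commutes (b i : K)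
  deg := by
    have h1 : (FF K ξ x).map φ = FF K (φ ξ) (fun i => φ (x i)) := by
      unfold FF
      rw [IntermediateField.adjoin_map, Set.image_union, Set.image_singleton, ← Set.range_comp]
      rfl
    have h2 : (AA K ξ).map φ = AA K (φ ξ) := by
      unfold AA
      rw [IntermediateField.adjoin_map, Set.image_singleton]
    rw [← h1, ← h2, ← (IntermediateField.equivMap (FF K ξ x) φ).toLinearEquiv.finrank_eq,
      ← (IntermediateField.equivMap (AA K ξ) φ).toLinearEquiv.finrank_eq]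
    exact h.deg

/-- The descent for all large prime divisors of `n`. -/
theorem desc_stmt {K : Type} [Field K] [NumberField K] {r : ℕ} (b : Fin r → 𝓞 K)
    (hb : ∀ i, b i ≠ 0) (d : ℕ) : ∃ Q0 : ℕ, ∀ q : ℕ, q.Prime → Q0 ≤ q → DescStmt K r b d q := by
  obtain ⟨N, hN1, hN⟩ := disc_mul_mem K
  obtain ⟨E, hE1, hE⟩ := exists_Eb b hb
  refine ⟨2 ^ (d + 1) + N + E + 1, ?_⟩
  intro q hq hqQ
  have hp2 : 0 < 2 ^ (d + 1) := Nat.two_pow_pos _
  have hbig : 2 ^ (d + 1) < q := by omega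
  have hqN : ¬ q ∣ N := fun h => by
    have := Nat.le_of_dvd (by omega) h
    omega
  have hqE : ¬ q ∣ E := fun h => by
    have := Nat.le_of_dvd (by omega) h
    omega
  have hl2 : 0 < Real.log 2 := Real.log_pos (by norm_num)
  have hq0 : 0 < q := hq.pos
  have hqr : (0 : ℝ) < q := by exact_mod_cast hq0
  have hd0 : (0 : ℝ) ≤ d := Nat.cast_nonneg d
  have hden : (0 : ℝ) < 2 * q * (d + 1) + 1 := by positivity
  refine ⟨Real.log 2 / (2 * q * (d + 1) + 1), by positivity, ?_⟩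
  intro Ω _ _ _ _ n m ξ x α hS hqn hα hdg hh
  -- the embedding
  let φ : Ω →ₐ[K] AlgebraicClosure K := IsAlgClosed.lift
  have hαi : IsIntegral ℚ α :=
    isIntegral_trans (R := ℚ) (A := K) α (Algebra.IsIntegral.isIntegral α)
  obtain ⟨hh1, hh0⟩ := height_map φ.toRingHom α hαi
  have hφα : φ.toRingHom α = φ α := rfl
  rw [hφα] at hh1
  have hD : Sys K b n m (φ ξ) (fun i => φ (x i)) := hS.map φ
  have hq3 : 3 ≤ q := by
    have h1 : 2 ^ 1 ≤ 2 ^ (d + 1) := Nat.pow_le_pow_right (by norm_num) (by omega)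
    omega
  obtain ⟨d', hd'⟩ : ∃ d' : ℕ, (minpoly (FF K (φ ξ) (fun i => φ (x i))) (φ α)).natDegree = d' :=
    ⟨_, rfl⟩
  have hd'd : d' ≤ d := by
    have h1 := degree_map φ ξ x α
    have h2 : dgr K (φ ξ) (fun i => φ (x i)) (φ α) = d' := hd'
    rw [← h2, h1]
    exact hdg
  have hd'r : (d' : ℝ) ≤ d := by exact_mod_cast hd'd
  have hd'0 : (0 : ℝ) ≤ d' := Nat.cast_nonneg d'
  have hlogq : ((d : ℝ) + 1) * Real.log 2 < Real.log q := by
    have h1 : (2 : ℝ) ^ (d + 1) < q := by exact_mod_cast hbig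
    have h2 := Real.log_lt_log (by positivity) h1
    rw [Real.log_pow] at h2
    push_cast at h2
    exact h2
  have hbd : 2 * (q : ℝ) * d' * absLogHeight₁ (φ α) + d' * Real.log 2 < Real.log q := by
    rw [hh1]
    have h1 : absLogHeight₁ α * (2 * q * (d + 1) + 1) < Real.log 2 := (lt_div_iff₀ hden).1 hh
    have h2 : 2 * (q : ℝ) * d' * absLogHeight₁ α ≤ 2 * (q : ℝ) * d * absLogHeight₁ α := by
      refine mul_le_mul_of_nonneg_right ?_ hh0
      exact mul_le_mul_of_nonneg_left hd'r (by positivity)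
    have h3 : 2 * (q : ℝ) * d * absLogHeight₁ α ≤ absLogHeight₁ α * (2 * q * (d + 1) + 1) := by
      have h4 : 0 ≤ absLogHeight₁ α * (2 * q + 1) := by positivity
      nlinarith
    have h4 : (d' : ℝ) * Real.log 2 ≤ d * Real.log 2 := mul_le_mul_of_nonneg_right hd'r hl2.le
    nlinarith
  obtain ⟨η, hη, hdeg⟩ := hD.desc N hN E hE q hq hq3 hqn hqN hqE (φ α) d' hd' hbd
  have : NeZero n := ⟨by have := hS.hn; omega⟩
  obtain ⟨k, hk, hke⟩ := hD.prim.eq_pow_of_pow_eq_one hη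
  refine ⟨n / q, ξ ^ q, ξ ^ k, n, hS.hn, ?_, Nat.div_lt_self hS.hn hq.one_lt,
    hS.pow_q q hqn hq0, ?_⟩
  · rw [← pow_mul, mul_comm, pow_mul, hS.prim.pow_eq_one, one_pow]
  · have h1 := degree_map φ (ξ ^ q) x (ξ ^ k * α)
    rw [← h1, map_mul, map_pow, map_pow, hke]
    exact hdeg.trans hd'd

end Pool.Agent.H11.BK
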