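import Pool.Agent.H11.BK.Pri
import Pool.Agent.H11.BE.FamY

/-!
# Module FamK (MP_187c26_nt, THEOREM VK): families of fields, extensions of bounded degree

`InTameK b D P c L`: every finite subset of `L` lies in a field `M(ξ, x_1, …, x_r, y)`, `y` of degree at most `P` over
`M(ξ, x_1, …, x_r)`, `x_i ^ m_i = b_i`, with pairwise distinct primes `m_i` (or `1`) or with the degree condition and small index.
-/

set_option autoImplicit false

open Polynomial NumberField IntermediateField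

namespace Pool.Agent.H11.BK

variable {r : ℕ}

/-- Every finite subset of `L` lies in a field `M(ξ, x_1, …, x_r, y)`, `ξ ^ n = 1`, `x_i ^ m_i = b_i`, `n` prime to the `m_i`, `y` of degree at most `P`
over `M(ξ, x_1, …, x_r)`, such that the `m_i` are `1` or primes and pairwise coprime, or `[K(ξ, x) : K(ξ)] = ∏ m_i` and
`idxD K D x ≤ exp (c ∏ m_i)`. -/
def InTameK {K M Ω : Type} [Field K] [NumberField K] [Field M] [Field Ω] [CharZero Ω]
    [Algebra K Ω] [Algebra M Ω] (b : Fin r → 𝓞 K) (D P : ℕ) (c : ℝ)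
    (L : IntermediateField M Ω) : Prop :=
  ∀ S : Finset Ω, (∀ s ∈ S, s ∈ L) → ∃ (n : ℕ) (m : Fin r → ℕ) (ξ : Ω) (x : Fin r → Ω) (y : Ω),
    1 ≤ n ∧ (∀ i, 1 ≤ m i) ∧ (∀ i, Nat.Coprime n (m i)) ∧ ξ ^ n = 1 ∧
    (∀ i, x i ^ m i = algebraMap (𝓞 K) Ω (b i)) ∧
    (((∀ i, m i = 1 ∨ (m i).Prime) ∧ ∀ i j, i ≠ j → Nat.Coprime (m i) (m j)) ∨
      (Module.finrank K (IntermediateField.adjoin K ({ξ} ∪ Set.range x)) =
        (∏ i, m i) * Module.finrank K (IntermediateField.adjoin K ({ξ} : Set Ω)) ∧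
        (idxD K D x : ℝ) ≤ Real.exp (c * ((∏ i, m i : ℕ) : ℝ)))) ∧
    (∃ p : Polynomial (IntermediateField.adjoin M ({ξ} ∪ Set.range x)), p ≠ 0 ∧
      p.natDegree ≤ P ∧ Polynomial.aeval y p = 0) ∧
    ∀ s ∈ S, s ∈ IntermediateField.adjoin M ({ξ} ∪ Set.range x ∪ {y})

/-- From `M` to `K`. -/
theorem deg_lev (K M Ω : Type) [Field K] [NumberField K] [Field M] [NumberField M] [Field Ω]
    [CharZero Ω] [Algebra K M] [Algebra K Ω] [Algebra M Ω] [IsScalarTower K M Ω]
    [Algebra.IsAlgebraic K Ω] (ξ : Ω) (x : Fin r → Ω) (a : Ω) :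
    dgr K ξ x a ≤ Module.finrank K M *
      (minpoly (IntermediateField.adjoin M ({ξ} ∪ Set.range x)) a).natDegree := by
  have hfin : FiniteDimensional K M := Module.Finite.of_restrictScalars_finite ℚ K M
  obtain ⟨θ, hθ⟩ := Field.exists_primitive_element K M
  obtain ⟨t, ht⟩ : ∃ t, t = algebraMap M Ω θ := ⟨_, rfl⟩
  obtain ⟨F, hF⟩ : ∃ F, F = FF K ξ x := ⟨_, rfl⟩
  obtain ⟨N, hN⟩ : ∃ N, N = IntermediateField.adjoin M ({ξ} ∪ Set.range x) := ⟨_, rfl⟩
  have hti : IsIntegral F t := (Algebra.IsIntegral.isIntegral (R := K) t).tower_top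
  have haF : IsIntegral F a := (Algebra.IsIntegral.isIntegral (R := K) a).tower_top
  have haM : IsIntegral M a := (Algebra.IsIntegral.isIntegral (R := K) a).tower_top
  have haN : IsIntegral N a := haM.tower_top
  unfold dgr
  rw [← hF, ← hN]
  refine (Pool.Agent.H11.BE.deg_mul_le F Ω t a hti haF).trans (Nat.mul_le_mul ?_ ?_)
  · -- the degree of `t`
    have h1 : (minpoly K θ).natDegree ≤ Module.finrank K M := minpoly.natDegree_le θ
    have h2 : aeval t ((minpoly K θ).map (algebraMap K F)) = 0 := by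
      rw [aeval_map_algebraMap, ht, aeval_algebraMap_apply, minpoly.aeval, map_zero]
    have h3 : (minpoly K θ).map (algebraMap K F) ≠ 0 := by
      rw [Ne, Polynomial.map_eq_zero]
      exact minpoly.ne_zero (Algebra.IsIntegral.isIntegral θ)
    have h4 := natDegree_le_natDegree (minpoly.degree_le_of_ne_zero F t h3 h2)
    rw [natDegree_map] at h4
    exact h4.trans h1
  · refine Pool.Agent.H11.BE.deg_le_range N F⟮t⟯ Ω a haN fun i => ?_
    -- `M` lies in `F(t)`
    have hM : ∀ y : M, algebraMap M Ω y ∈ F⟮t⟯ := by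
      intro y
      have h1 : y ∈ IntermediateField.adjoin K {θ} := by rw [hθ]; trivial
      have h2 : IntermediateField.adjoin K {θ} ≤
          (F⟮t⟯.restrictScalars K).comap (IsScalarTower.toAlgHom K M Ω) := by
        rw [IntermediateField.adjoin_le_iff, Set.singleton_subset_iff]
        change algebraMap M Ω θ ∈ F⟮t⟯
        rw [← ht]
        exact IntermediateField.mem_adjoin_simple_self F t
      exact h2 h1
    let T : IntermediateField M Ω :=
      { F⟮t⟯.toSubfield with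
        algebraMap_mem' := hM }
    have hNT : N ≤ T := by
      rw [hN, IntermediateField.adjoin_le_iff]
      intro y hy
      have h1 : y ∈ F := by
        rw [hF]
        exact IntermediateField.subset_adjoin K _ hy
      exact F⟮t⟯.algebraMap_mem ⟨y, h1⟩
    exact ⟨⟨_, hNT ((minpoly N a).coeff i).2⟩, rfl⟩

theorem famK {K : Type} [Field K] [NumberField K] (b : Fin r → 𝓞 K) (D E : ℕ)
    (hT : T0 K r b D E) (hP : TP K r b E) : ∃ c : ℝ, 0 < c ∧
    ∀ (M Ω : Type) [Field M] [NumberField M] [Field Ω] [CharZero Ω] [Algebra K M] [Algebra K Ω]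
      [Algebra M Ω] [IsScalarTower K M Ω] [Algebra.IsAlgebraic K Ω] (P : ℕ)
      (L : IntermediateField M Ω), InTameK b D P c L →
      ∀ a : Ω, a ≠ 0 → Module.finrank K M * (minpoly L a).natDegree * P ≤ E →
      absLogHeight₁ a < c → InG K b a := by
  classical
  obtain ⟨c0, hc0, h⟩ := hT
  obtain ⟨c1, hc1, h'⟩ := hP
  refine ⟨min c0 c1, lt_min hc0 hc1, ?_⟩
  intro M Ω _ _ _ _ _ _ _ _ _ P L hL a ha0 hdeg hh
  have haM : IsIntegral M a := (Algebra.IsIntegral.isIntegral (R := K) a).tower_top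
  have haL : IsIntegral L a := haM.tower_top
  obtain ⟨n, m, ξ, x, y, hn, hm, hcn, hξ, hx, halt, ⟨p, hp0, hpP, hpy⟩, hmem⟩ := hL
    ((minpoly L a).coeffs.image fun z : L => (z : Ω)) (by
      intro s hs
      rw [Finset.mem_image] at hs
      obtain ⟨z, -, rfl⟩ := hs
      exact z.2)
  have hfo : IsOfFinOrder ξ := isOfFinOrder_iff_pow_eq_one.2 ⟨n, by omega, hξ⟩
  have hdvd : orderOf ξ ∣ n := orderOf_dvd_of_pow_eq_one hξ
  set N : IntermediateField M Ω := IntermediateField.adjoin M ({ξ} ∪ Set.range x) with hN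
  have hyM : IsIntegral M y := (Algebra.IsIntegral.isIntegral (R := K) y).tower_top
  have hyN : IsIntegral N y := hyM.tower_top
  have haN : IsIntegral N a := haM.tower_top
  have hle : ∀ s ∈ IntermediateField.adjoin M ({ξ} ∪ Set.range x ∪ {y}), s ∈ N⟮y⟯ := by
    intro s hs
    have h1 : IntermediateField.adjoin M ({ξ} ∪ Set.range x ∪ {y}) ≤
        N⟮y⟯.restrictScalars M := by
      rw [IntermediateField.adjoin_le_iff]
      rintro z (hz | hz)
      · have hzN : z ∈ N := IntermediateField.subset_adjoin M _ hz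
        exact N⟮y⟯.algebraMap_mem ⟨z, hzN⟩
      · rw [Set.mem_singleton_iff] at hz
        rw [hz]
        exact mem_adjoin_simple_self N y
    exact h1 hs
  have h1 : (minpoly N⟮y⟯ a).natDegree ≤ (minpoly L a).natDegree := by
    refine Pool.Agent.H11.BE.deg_le_range L N⟮y⟯ Ω a haL fun i => ?_
    by_cases h0 : (minpoly L a).coeff i = 0
    · exact ⟨0, by rw [h0, map_zero, map_zero]⟩
    · exact ⟨⟨_, hle _ (hmem _ (Finset.mem_image_of_mem _ (coeff_mem_coeffs h0)))⟩, rfl⟩
  have h2 : (minpoly N y).natDegree ≤ P :=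
    (natDegree_le_natDegree (minpoly.degree_le_of_ne_zero N y hp0 hpy)).trans hpP
  have h3 := Pool.Agent.H11.BE.deg_mul_le N Ω y a hyN haN
  have hd : dgr K ξ x a ≤ E := by
    refine (deg_lev K M Ω ξ x a).trans ((Nat.mul_le_mul_left _ (h3.trans
      (Nat.mul_le_mul h2 h1))).trans ?_)
    refine le_trans (le_of_eq ?_) hdeg
    ring
  have hcn' : ∀ i, Nat.Coprime (orderOf ξ) (m i) := fun i =>
    Nat.Coprime.coprime_dvd_left hdvd (hcn i)
  rcases halt with ⟨hpr, hcm⟩ | ⟨hdg, hidx⟩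
  · exact h' Ω (orderOf ξ) m ξ x a hfo.orderOf_pos (IsPrimitiveRoot.orderOf ξ) hpr hcn' hcm hx
      ha0 hd (hh.trans_le (min_le_right _ _))
  · refine h Ω (orderOf ξ) m ξ x a ⟨hfo.orderOf_pos, hm, hcn', IsPrimitiveRoot.orderOf ξ, hx,
      hdg⟩ ha0 hd (hidx.trans ?_) (hh.trans_le (min_le_left _ _))
    exact Real.exp_le_exp.2 (mul_le_mul_of_nonneg_right (min_le_left _ _) (Nat.cast_nonneg _))

end Pool.Agent.H11.BK
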