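import Pool.Agent.H11.BK.RadK
import Pool.Agent.H72.PB.HNonneg
import Pool.Agent.H4.RR.AbsHeight

/-!
# Module Drop (MP_187c26_nt, THEOREM VK): leaving out one radical, degrees, powers, roots of unity
-/

set_option autoImplicit false

open Polynomial NumberField IntermediateField

namespace Pool.Agent.H11.BK

open Pool.Agent.H4.OG (intOf mem_intOf)
open Pool.Agent.H72.BE (Gm mon vl md mon_add mon_zero)

private theorem dr_deg_le {A B Ω : Type} [Field A] [Field B] [Field Ω] [Algebra A Ω] [Algebra B Ω] (a : Ω)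
    (ha : IsIntegral A a)
    (h : ∀ i, algebraMap A Ω ((minpoly A a).coeff i) ∈ Set.range (algebraMap B Ω)) :
    (minpoly B a).natDegree ≤ (minpoly A a).natDegree := by
  have hl : (minpoly A a).map (algebraMap A Ω) ∈ lifts (algebraMap B Ω) := by
    rw [lifts_iff_coeff_lifts]
    intro i
    rw [coeff_map]
    exact h i
  obtain ⟨q, hq, hqd⟩ := exists_natDegree_eq_of_mem_lifts hl
  rw [natDegree_map] at hqd
  rw [← hqd]
  have hq0 : q ≠ 0 := by
    rintro rfl
    rw [Polynomial.map_zero] at hq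
    exact map_ne_zero (f := algebraMap A Ω) (minpoly.ne_zero ha) hq.symm
  have hev : aeval a q = 0 := by
    rw [aeval_def, ← eval_map, hq, eval_map, ← aeval_def]
    exact minpoly.aeval A a
  exact natDegree_le_natDegree (minpoly.degree_le_of_ne_zero B a hq0 hev)

private theorem dr_mul {A Ω : Type} [Field A] [Field Ω] [Algebra A Ω] (x a : Ω) (hx : IsIntegral A x)
    (ha : IsIntegral A a) :
    (minpoly A a).natDegree ≤ (minpoly A x).natDegree * (minpoly A⟮x⟯ a).natDegree := by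
  have : FiniteDimensional A A⟮x⟯ := adjoin.finiteDimensional hx
  have haK : IsIntegral A⟮x⟯ a := ha.tower_top
  have : FiniteDimensional A⟮x⟯ A⟮x⟯⟮a⟯ := adjoin.finiteDimensional haK
  have : FiniteDimensional A A⟮x⟯⟮a⟯ := FiniteDimensional.trans A A⟮x⟯ A⟮x⟯⟮a⟯
  have : IsScalarTower A A⟮x⟯⟮a⟯ Ω := IsScalarTower.of_algebraMap_eq fun _ => rfl
  have h2 : minpoly A (AdjoinSimple.gen A⟮x⟯ a) = minpoly A a := by
    have h6 := minpoly.algebraMap_eq (A := A) (B := A⟮x⟯⟮a⟯) (B' := Ω)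
      (algebraMap A⟮x⟯⟮a⟯ Ω).injective (AdjoinSimple.gen A⟮x⟯ a)
    rw [← h6]
    rfl
  rw [← h2, ← adjoin.finrank hx, ← adjoin.finrank haK, Module.finrank_mul_finrank]
  exact minpoly.natDegree_le _

section

variable {K : Type} [Field K] [NumberField K] {r : ℕ} {Ω : Type} [Field Ω] [CharZero Ω]
  [Algebra K Ω]

theorem dgr_drop' [Algebra.IsAlgebraic K Ω] {b : Fin (r + 1) → 𝓞 K}
    {m : Fin (r + 1) → ℕ} {ξ : Ω} {x : Fin (r + 1) → Ω} (hm : ∀ i, 1 ≤ m i)
    (hx : ∀ i, x i ^ m i = algebraMap (𝓞 K) Ω (b i)) (i : Fin (r + 1)) (α : Ω) :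
    dgr K ξ (fun j => x (i.succAbove j)) α ≤ m i * dgr K ξ x α := by
  unfold dgr
  obtain ⟨F', hF'⟩ : ∃ F', F' = FF K ξ (fun j => x (i.succAbove j)) := ⟨_, rfl⟩
  rw [← hF']
  have hxi : IsIntegral F' (x i) := (Algebra.IsIntegral.isIntegral (R := K) (x i)).tower_top
  have hai : IsIntegral F' α := (Algebra.IsIntegral.isIntegral (R := K) α).tower_top
  have haL : IsIntegral (FF K ξ x) α := (Algebra.IsIntegral.isIntegral (R := K) α).tower_top
  refine (dr_mul (x i) α hxi hai).trans (Nat.mul_le_mul ?_ ?_)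
  · have h1 : (aeval (x i)) (X ^ m i - C (algebraMap K F' (b i : K))) = 0 := by
      rw [map_sub, map_pow, aeval_X, hx i, aeval_C, sub_eq_zero]
      rfl
    have h2 : (X ^ m i - C (algebraMap K F' (b i : K))) ≠ 0 := X_pow_sub_C_ne_zero (hm i) _
    have h3 := natDegree_le_natDegree (minpoly.degree_le_of_ne_zero F' (x i) h2 h1)
    rwa [natDegree_X_pow_sub_C] at h3
  · refine dr_deg_le α haL fun j => ?_
    have h4 : FF K ξ x ≤ (F'⟮x i⟯).restrictScalars K := by
      unfold FF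
      rw [adjoin_le_iff]
      have h6 : ∀ y ∈ F', y ∈ F'⟮x i⟯ := fun y hy => (F'⟮x i⟯).algebraMap_mem ⟨y, hy⟩
      rintro y (hy | ⟨l, rfl⟩)
      · refine h6 y ?_
        rw [hF']
        exact subset_adjoin _ _ (Or.inl hy)
      · rcases Fin.eq_self_or_eq_succAbove i l with h5 | ⟨l', h5⟩
        · rw [h5]
          exact mem_adjoin_simple_self F' (x i)
        · refine h6 _ ?_
          rw [hF', h5]
          exact subset_adjoin _ _ (Or.inr ⟨l', rfl⟩)
    exact ⟨⟨_, h4 ((minpoly (FF K ξ x) α).coeff j).2⟩, rfl⟩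

theorem dgr_drop [Algebra.IsAlgebraic K Ω] {b : Fin (r + 1) → 𝓞 K} {n : ℕ}
    {m : Fin (r + 1) → ℕ} {ξ : Ω} {x : Fin (r + 1) → Ω} (h : Sys K b n m ξ x)
    (i : Fin (r + 1)) (α : Ω) :
    dgr K ξ (fun j => x (i.succAbove j)) α ≤ m i * dgr K ξ x α := dgr_drop' h.hm h.hx i α

omit [NumberField K] [CharZero Ω] in
theorem inG_drop (b : Fin (r + 1) → 𝓞 K) (i : Fin (r + 1)) (α : Ω)
    (h : InG K (fun j => b (i.succAbove j)) α) : InG K b α := by
  obtain ⟨k, hk, j, hj⟩ := h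
  refine ⟨k, hk, i.insertNth (α := fun _ => ℤ) 0 j, ?_⟩
  rw [Fin.prod_univ_succAbove _ i, Fin.insertNth_apply_same, zpow_zero, one_mul, hj]
  refine Finset.prod_congr rfl fun l _ => ?_
  rw [Fin.insertNth_apply_succAbove]

theorem dgr_pow_le [Algebra.IsAlgebraic K Ω] (ξ : Ω) (x : Fin r → Ω) (α : Ω) (k : ℕ) :
    dgr K ξ x (α ^ k) ≤ dgr K ξ x α := by
  unfold dgr
  have haL : IsIntegral (FF K ξ x) α := (Algebra.IsIntegral.isIntegral (R := K) α).tower_top
  have : FiniteDimensional (FF K ξ x) (FF K ξ x)⟮α⟯ := adjoin.finiteDimensional haL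
  have h2 : minpoly (FF K ξ x) ((AdjoinSimple.gen (FF K ξ x) α) ^ k) =
      minpoly (FF K ξ x) (α ^ k) := by
    have h6 := minpoly.algebraMap_eq (A := FF K ξ x) (B := (FF K ξ x)⟮α⟯) (B' := Ω)
      (algebraMap (FF K ξ x)⟮α⟯ Ω).injective ((AdjoinSimple.gen (FF K ξ x) α) ^ k)
    rw [← h6, map_pow]
    rfl
  rw [← h2, ← adjoin.finrank haL]
  exact minpoly.natDegree_le _

theorem dgr_pos [Algebra.IsAlgebraic K Ω] (ξ : Ω) (x : Fin r → Ω) (α : Ω) :
    1 ≤ dgr K ξ x α := by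
  have h1 : IsIntegral (FF K ξ x) α := (Algebra.IsIntegral.isIntegral (R := K) α).tower_top
  exact minpoly.natDegree_pos h1

omit [NumberField K] [CharZero Ω] in
theorem inG_of_pow (b : Fin r → 𝓞 K) (α : Ω) (k : ℕ) (hk : 1 ≤ k) (h : InG K b (α ^ k)) :
    InG K b α := by
  obtain ⟨l, hl, j, hj⟩ := h
  exact ⟨k * l, Nat.mul_pos hk hl, j, by rw [pow_mul, hj]⟩

omit [NumberField K] [CharZero Ω] in
theorem inG_of_mul (b : Fin r → 𝓞 K) (α z : Ω) (k : ℕ) (hk : 1 ≤ k) (hz : z ^ k = 1)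
    (h : InG K b (z * α)) : InG K b α := by
  obtain ⟨l, hl, j, hj⟩ := h
  refine ⟨k * l, Nat.mul_pos hk hl, fun i => k * j i, ?_⟩
  have h1 : α ^ (k * l) = ((z * α) ^ l) ^ k := by
    rw [← pow_mul, mul_pow, mul_comm l k, pow_mul z, hz, one_pow, one_mul]
  rw [h1, hj, ← Finset.prod_pow]
  refine Finset.prod_congr rfl fun i _ => ?_
  rw [← zpow_natCast, ← zpow_mul, mul_comm (j i)]

theorem height_pow [Algebra.IsAlgebraic ℚ Ω] (α : Ω) (k : ℕ) :
    absLogHeight₁ (α ^ k) = k * absLogHeight₁ α :=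
  Pool.Agent.H4.RR.absLogHeight_pow Ω α (Algebra.IsIntegral.isIntegral α) k

theorem height_mul_root [Algebra.IsAlgebraic ℚ Ω] (α z : Ω) (k : ℕ) (hk : 1 ≤ k)
    (hz : z ^ k = 1) : absLogHeight₁ (z * α) = absLogHeight₁ α := by
  have h1 := height_pow (z * α) k
  have h2 := height_pow α k
  rw [mul_pow, hz, one_mul] at h1
  rw [h1] at h2
  have hk' : (k : ℝ) ≠ 0 := by exact_mod_cast (by omega : k ≠ 0)
  exact mul_left_cancel₀ hk' h2

/-- The powers of `x i` are independent over the field without `x i`. -/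
theorem pow_indep {b : Fin (r + 1) → 𝓞 K} {n : ℕ} {m : Fin (r + 1) → ℕ} {ξ : Ω}
    {x : Fin (r + 1) → Ω} (h : Sys K b n m ξ x) (i : Fin (r + 1)) (c : Fin (m i) → Ω)
    (hc : ∀ k, c k ∈ XX K (fun j => x (i.succAbove j)))
    (h0 : ∑ k, c k * x i ^ (k : ℕ) = 0) : ∀ k, c k = 0 := by
  obtain ⟨E, hE⟩ : ∃ E, E = XX K (fun j => x (i.succAbove j)) := ⟨_, rfl⟩
  have h' := h.drop i
  have hfE : FiniteDimensional K E := by rw [hE]; exact h'.fin_X
  have hdE : Module.finrank K E = ∏ j, m (i.succAbove j) := by rw [hE]; exact h'.deg_X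
  have hxi : IsIntegral E (x i) := (h.integral_x i).tower_top
  have hres : (E⟮x i⟯).restrictScalars K = XX K x := by
    apply le_antisymm
    · rw [IntermediateField.restrictScalars_adjoin_eq_sup]
      refine sup_le ?_ ?_
      · rw [hE]
        unfold XX
        rw [adjoin_le_iff]
        rintro _ ⟨j, rfl⟩
        exact subset_adjoin _ _ ⟨_, rfl⟩
      · rw [adjoin_simple_le_iff]
        exact mem_XX x i
    · unfold XX
      rw [adjoin_le_iff]
      rintro _ ⟨l, rfl⟩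
      rcases Fin.eq_self_or_eq_succAbove i l with h5 | ⟨l', h5⟩
      · rw [h5]
        exact mem_adjoin_simple_self E (x i)
      · have h6 : x l ∈ E := by
          rw [hE, h5]
          exact mem_XX (fun j => x (i.succAbove j)) l'
        exact (E⟮x i⟯).algebraMap_mem ⟨x l, h6⟩
  have hdeg : (minpoly E (x i)).natDegree = m i := by
    have e1 : Module.finrank K E * Module.finrank E (E⟮x i⟯) = Module.finrank K (E⟮x i⟯) :=
      Module.finrank_mul_finrank K E (E⟮x i⟯)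
    have e2 : Module.finrank K (E⟮x i⟯) = Module.finrank K (XX K x) := by
      rw [← hres]
      rfl
    rw [e2, h.deg_X, hdE, Fin.prod_univ_succAbove _ i, adjoin.finrank hxi, mul_comm (m i)] at e1
    refine Nat.eq_of_mul_eq_mul_left ?_ e1
    exact Finset.prod_pos fun j _ => h.hm _
  have hli : LinearIndependent E (fun k : Fin (minpoly E (x i)).natDegree => x i ^ (k : ℕ)) :=
    linearIndependent_pow _
  have hli2 : LinearIndependent E (fun k : Fin (m i) => x i ^ (k : ℕ)) := by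
    have h1 := hli.comp (Fin.cast hdeg.symm) (Fin.cast_injective _)
    exact h1
  rw [← hE] at hc
  rw [Fintype.linearIndependent_iff] at hli2
  have h1 := hli2 (fun k => ⟨c k, hc k⟩) (by
    rw [← h0]
    refine Finset.sum_congr rfl fun k _ => ?_
    rw [Algebra.smul_def]
    rfl)
  intro k
  have h2 := h1 k
  exact congrArg Subtype.val h2

/-- Powers of `y` with exponents less than `μ` are sufficient if `y ^ μ ∈ S`. -/
theorem sum_pow (S : Subring Ω) (y : Ω) (μ : ℕ) (hμ : 1 ≤ μ) (hy : y ^ μ ∈ S) (z : Ω)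
    (hz : z ∈ S ⊔ Subring.closure {y}) :
    ∃ u : Fin μ → Ω, (∀ k, u k ∈ S) ∧ z = ∑ k, u k * y ^ (k : ℕ) := by
  have h2 := Pool.Agent.H11.FR.mem_adjoin_closure S y _ hz
  refine AddSubgroup.closure_induction (p := fun w _ =>
    ∃ u : Fin μ → Ω, (∀ t, u t ∈ S) ∧ w = ∑ t, u t * y ^ (t : ℕ)) ?_ ?_ ?_ ?_ h2
  · rintro _ ⟨a, ha, k, rfl⟩
    have hlt : k % μ < μ := Nat.mod_lt _ hμ
    refine ⟨Pi.single ⟨k % μ, hlt⟩ (a * (y ^ μ) ^ (k / μ)), fun t => ?_, ?_⟩
    · by_cases ht : t = ⟨k % μ, hlt⟩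
      · rw [ht, Pi.single_eq_same]
        exact S.mul_mem ha (pow_mem hy _)
      · rw [Pi.single_eq_of_ne ht]
        exact S.zero_mem
    · rw [Finset.sum_eq_single ⟨k % μ, hlt⟩]
      · rw [Pi.single_eq_same]
        change _ = a * (y ^ μ) ^ (k / μ) * y ^ (k % μ)
        rw [mul_assoc, ← pow_mul, ← pow_add, Nat.div_add_mod]
      · intro t _ ht
        rw [Pi.single_eq_of_ne ht, zero_mul]
      · intro h
        exact absurd (Finset.mem_univ _) h
  · exact ⟨0, fun t => S.zero_mem, by simp⟩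
  · rintro _ _ _ _ ⟨y1, hy1, rfl⟩ ⟨y2, hy2, rfl⟩
    refine ⟨y1 + y2, fun t => S.add_mem (hy1 t) (hy2 t), ?_⟩
    rw [← Finset.sum_add_distrib]
    exact Finset.sum_congr rfl fun t _ => (add_mul _ _ _).symm
  · rintro _ _ ⟨y1, hy1, rfl⟩
    refine ⟨-y1, fun t => S.neg_mem (hy1 t), ?_⟩
    rw [← Finset.sum_neg_distrib]
    exact Finset.sum_congr rfl fun t _ => (neg_mul _ _).symm

/-- The index after leaving out `x i`. -/
theorem idx_drop [Algebra.IsAlgebraic K Ω] {b : Fin (r + 1) → 𝓞 K} {n : ℕ}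
    {m : Fin (r + 1) → ℕ} {ξ : Ω} {x : Fin (r + 1) → Ω} (h : Sys K b n m ξ x)
    (hb : ∀ i, b i ≠ 0) (i : Fin (r + 1)) (D : ℕ) :
    idxD K D (fun j => x (i.succAbove j)) ^ m i ≤ idxD K D x := by
  classical
  have hz : ∀ i, NeZero (m i) := fun i => ⟨by have := h.hm i; omega⟩
  obtain ⟨x', hx'⟩ : ∃ x' : Fin r → Ω, x' = fun j => x (i.succAbove j) := ⟨_, rfl⟩
  rw [← hx']
  obtain ⟨O', hO'⟩ : ∃ O', O' = (intOf (XX K x')).toAddSubgroup := ⟨_, rfl⟩
  obtain ⟨O, hO⟩ : ∃ O, O = (intOf (XX K x)).toAddSubgroup := ⟨_, rfl⟩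
  have hXX : XX K x' ≤ XX K x := by
    unfold XX
    rw [adjoin_le_iff, hx']
    rintro _ ⟨j, rfl⟩
    exact subset_adjoin _ _ ⟨_, rfl⟩
  have hmO' : ∀ z ∈ O', z ∈ XX K x' ∧ IsIntegral ℤ z := by
    intro z hz
    rw [hO'] at hz
    exact (mem_intOf _ _).1 hz
  have hmemO : ∀ w : Fin (m i) → O', (∑ k : Fin (m i), (w k : Ω) * x i ^ (k : ℕ)) ∈ O := by
    intro w
    rw [hO]
    refine (intOf (XX K x)).sum_mem fun k _ => (intOf (XX K x)).mul_mem ?_ (pow_mem ?_ _)
    · have h2 := hmO' _ (w k).2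
      exact (mem_intOf _ _).2 ⟨hXX h2.1, h2.2⟩
    · exact (mem_intOf _ _).2 ⟨mem_XX x i, h.integral_x i⟩
  let φ : (Fin (m i) → O') →+ O :=
    { toFun := fun w => ⟨∑ k : Fin (m i), (w k : Ω) * x i ^ (k : ℕ), hmemO w⟩
      map_zero' := by
        apply Subtype.ext
        simp
      map_add' := fun v w => by
        apply Subtype.ext
        change ∑ k : Fin (m i), ((v + w) k : Ω) * x i ^ (k : ℕ) = _ + _
        rw [← Finset.sum_add_distrib]
        refine Finset.sum_congr rfl fun t _ => ?_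
        simp only [Pi.add_apply, AddSubgroup.coe_add]
        ring }
  let P : AddSubgroup (Fin (m i) → O') :=
    AddSubgroup.pi Set.univ (fun _ => (ordD K D x').addSubgroupOf O')
  have hPidx : P.index = idxD K D x' ^ m i := by
    rw [AddSubgroup.index_pi, Finset.prod_const, Finset.card_univ, Fintype.card_fin, hO']
    rfl
  let H : AddSubgroup O := (ordD K D x).addSubgroupOf O
  have hHidx : H.index = idxD K D x := by
    change (ordD K D x).relIndex O = _
    rw [hO]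
    rfl
  -- linear independence of the powers of `x i`
  have hH0 : H.index ≠ 0 := by
    rw [hHidx]
    exact idxD_ne h hb D
  have hcomap : H.comap φ ≤ P := by
    intro w hw
    have h1 : (D : Ω) * ∑ k : Fin (m i), (w k : Ω) * x i ^ (k : ℕ) ∈
        Algebra.adjoin (𝓞 K) (Set.range x) := hw
    obtain ⟨S, hS⟩ : ∃ S, S = (Algebra.adjoin (𝓞 K) (Set.range x')).toSubring := ⟨_, rfl⟩
    have hSa : ∀ s : 𝓞 K, algebraMap (𝓞 K) Ω s ∈ S := fun s => by
      rw [hS]
      exact (Algebra.adjoin (𝓞 K) (Set.range x')).algebraMap_mem s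
    have h2 : (D : Ω) * ∑ k : Fin (m i), (w k : Ω) * x i ^ (k : ℕ) ∈
        S ⊔ Subring.closure {x i} := by
      refine adj_le (S ⊔ Subring.closure {x i}) (fun s => (le_sup_left : S ≤ _) (hSa s))
        (fun l => ?_) h1
      rcases Fin.eq_self_or_eq_succAbove i l with h5 | ⟨l', h5⟩
      · rw [h5]
        exact (le_sup_right : Subring.closure {x i} ≤ _) (Subring.subset_closure rfl)
      · refine (le_sup_left : S ≤ _) ?_
        rw [hS, h5, hx']
        exact Algebra.subset_adjoin ⟨l', rfl⟩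
    obtain ⟨u, hu, hsum⟩ := sum_pow S (x i) (m i) (h.hm i) (by rw [h.hx]; exact hSa _) _ h2
    have hSX : ∀ z ∈ S, z ∈ XX K x' := by
      intro z hz
      rw [hS] at hz
      refine adj_le (XX K x').toSubalgebra.toSubring (fun s => ?_) (fun l => mem_XX x' l) hz
      rw [IsScalarTower.algebraMap_apply (𝓞 K) K Ω]
      exact (XX K x').algebraMap_mem _
    have h3 := pow_indep h i (fun k => (D : Ω) * (w k : Ω) - u k) (fun k => by
      rw [← hx']
      exact sub_mem (mul_mem (_root_.natCast_mem _ D) (hmO' _ (w k).2).1) (hSX _ (hu k))) (by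
      have h4 : ∀ k : Fin (m i), ((D : Ω) * (w k : Ω) - u k) * x i ^ (k : ℕ) =
          (D : Ω) * ((w k : Ω) * x i ^ (k : ℕ)) - u k * x i ^ (k : ℕ) := fun k => by ring
      rw [Finset.sum_congr rfl fun k _ => h4 k, Finset.sum_sub_distrib, ← Finset.mul_sum, hsum,
        sub_self])
    intro k _
    have h5 : (D : Ω) * (w k : Ω) = u k := sub_eq_zero.1 (h3 k)
    have h6 : (D : Ω) * (w k : Ω) ∈ Algebra.adjoin (𝓞 K) (Set.range x') := by
      rw [h5]
      have h7 := hu k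
      rw [hS] at h7
      exact h7
    exact h6
  have h1 : (H.comap φ).index ≤ H.index := by
    rw [AddSubgroup.index_comap]
    exact Nat.le_of_dvd (Nat.pos_of_ne_zero hH0)
      (AddSubgroup.relIndex_dvd_index_of_normal _ _)
  have h2 : P.index ∣ (H.comap φ).index := AddSubgroup.index_dvd_of_le hcomap
  have h3 : (H.comap φ).index ≠ 0 := by
    rw [AddSubgroup.index_comap]
    intro h4
    have h5 : H.relIndex φ.range ∣ H.index := AddSubgroup.relIndex_dvd_index_of_normal _ _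
    rw [h4, zero_dvd_iff] at h5
    exact hH0 h5
  rw [← hPidx, ← hHidx]
  exact (Nat.le_of_dvd (Nat.pos_of_ne_zero h3) h2).trans h1

end

end Pool.Agent.H11.BK
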