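import Pool.Agent.H11.BK.Kill
import Pool.Agent.H11.FR.Deriv

/-!
# Module Dsc (MP_187c26_nt, THEOREM VK): denominators over `K(ξ)`, independent of `ξ`

`θ` an integral primitive element of `K` over `ℚ`, `g` its minimal polynomial. `g'(θ) a ∈ ℤ[ξ, θ]` for the integers `a` of
`K(ξ) = ℚ(ξ)(θ)` (`deriv_mul_mem` over `ℚ(ξ)`, whose ring of integers is `ℤ[ξ]`). So `N a ∈ 𝓞 K [ξ]`, where `N` is a multiple of `g'(θ)`.
-/

set_option autoImplicit false

open IntermediateField NumberField Polynomial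

namespace Pool.Agent.H11.BK

private theorem exists_prim (K : Type) [Field K] [NumberField K] :
    ∃ θ : 𝓞 K, IntermediateField.adjoin ℚ {(θ : K)} = ⊤ := by
  obtain ⟨α, hα⟩ := Field.exists_primitive_element ℚ K
  obtain ⟨n, hn, h1⟩ := Pool.Agent.H11.FR.int_mult K α
  obtain ⟨θ, hθ⟩ : ∃ θ : 𝓞 K, (θ : K) = (n : K) * α := ⟨⟨_, h1⟩, rfl⟩
  refine ⟨θ, ?_⟩
  rw [hθ, eq_top_iff, ← hα, IntermediateField.adjoin_le_iff, Set.singleton_subset_iff]
  have h2 : (n : K) * α ∈ IntermediateField.adjoin ℚ {(n : K) * α} :=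
    IntermediateField.mem_adjoin_simple_self ℚ _
  have h3 : (n : K) ≠ 0 := by exact_mod_cast hn
  have h4 : (n : K)⁻¹ * ((n : K) * α) = α := by field_simp
  have h5 := mul_mem (inv_mem (intCast_mem (IntermediateField.adjoin ℚ {(n : K) * α}) n)) h2
  rwa [h4] at h5

private theorem adj_top {K A : Type} [Field K] [NumberField K] [Field A] [NumberField A]
    [Algebra K A] (ξ : A) (hgen : IntermediateField.adjoin K {ξ} = ⊤) (θ : K)
    (hθ : IntermediateField.adjoin ℚ {θ} = ⊤) :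
    Algebra.adjoin ℚ⟮ξ⟯ ({algebraMap K A θ} : Set A) = ⊤ := by
  have halg : IsAlgebraic ℚ⟮ξ⟯ (algebraMap K A θ) := by
    have h1 : IsAlgebraic ℚ (algebraMap K A θ) := Algebra.IsAlgebraic.isAlgebraic _
    exact h1.tower_top _
  rw [← IntermediateField.adjoin_simple_toSubalgebra_of_isAlgebraic halg]
  obtain ⟨T, hT⟩ : ∃ T, T = IntermediateField.adjoin ℚ⟮ξ⟯ {algebraMap K A θ} := ⟨_, rfl⟩
  rw [← hT]
  have hK : ∀ y : K, algebraMap K A y ∈ T := by
    have h1 : IntermediateField.adjoin ℚ {θ} ≤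
        (T.restrictScalars ℚ).comap (IsScalarTower.toAlgHom ℚ K A) := by
      rw [IntermediateField.adjoin_le_iff, Set.singleton_subset_iff]
      change algebraMap K A θ ∈ T
      rw [hT]
      exact IntermediateField.mem_adjoin_simple_self _ _
    intro y
    have h2 : y ∈ IntermediateField.adjoin ℚ {θ} := by rw [hθ]; trivial
    exact h1 h2
  have hξT : ξ ∈ T := by
    have h1 : algebraMap ℚ⟮ξ⟯ A ⟨ξ, IntermediateField.mem_adjoin_simple_self ℚ ξ⟩ ∈ T :=
      T.algebraMap_mem _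
    exact h1
  let S : IntermediateField K A :=
    { T.toSubfield with
      algebraMap_mem' := hK }
  have h3 : IntermediateField.adjoin K {ξ} ≤ S := by
    rw [IntermediateField.adjoin_le_iff, Set.singleton_subset_iff]
    exact hξT
  rw [eq_top_iff]
  intro z _
  have h4 : z ∈ IntermediateField.adjoin K {ξ} := by rw [hgen]; trivial
  exact h3 h4

private theorem cyc_int {A : Type} [Field A] [NumberField A] (n : ℕ) (hn : 1 ≤ n) (ξ : A)
    (hξ : IsPrimitiveRoot ξ n) (R : Subring A) (hR : ξ ∈ R) (s : 𝓞 ℚ⟮ξ⟯) :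
    ((s : ℚ⟮ξ⟯) : A) ∈ R := by
  have hn0 : NeZero n := ⟨by omega⟩
  have hc : IsCyclotomicExtension {n} ℚ ℚ⟮ξ⟯ :=
    hξ.intermediateField_adjoin_isCyclotomicExtension ℚ
  obtain ⟨ζ, hζ⟩ : ∃ ζ : ℚ⟮ξ⟯, (ζ : A) = ξ :=
    ⟨⟨ξ, IntermediateField.mem_adjoin_simple_self ℚ ξ⟩, rfl⟩
  have hζp : IsPrimitiveRoot ζ n := by
    refine IsPrimitiveRoot.of_map_of_injective (f := algebraMap ℚ⟮ξ⟯ A) ?_
      (algebraMap ℚ⟮ξ⟯ A).injective
    change IsPrimitiveRoot (ζ : A) n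
    rw [hζ]
    exact hξ
  obtain ⟨y, hy⟩ := (IsCyclotomicExtension.Rat.isIntegralClosure_adjoin_singleton
    hζp).isIntegral_iff.1 (RingOfIntegers.isIntegral_coe s)
  have hy' : ((s : ℚ⟮ξ⟯) : A) = ((y : ℚ⟮ξ⟯) : A) := congrArg (fun t : ℚ⟮ξ⟯ => (t : A)) hy.symm
  rw [hy']
  have h1 : ∀ y ∈ Algebra.adjoin ℤ ({ζ} : Set ℚ⟮ξ⟯), (y : A) ∈ R := by
    intro y hy
    induction hy using Algebra.adjoin_induction with
    | mem w hw =>
      rw [Set.mem_singleton_iff] at hw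
      rw [hw, hζ]
      exact hR
    | algebraMap t =>
      have h2 : ((algebraMap ℤ ℚ⟮ξ⟯ t : ℚ⟮ξ⟯) : A) = (t : A) := by
        change algebraMap ℚ⟮ξ⟯ A (algebraMap ℤ ℚ⟮ξ⟯ t) = _
        simp
      rw [h2]
      exact intCast_mem R t
    | add u v _ _ h2 h3 =>
      change (u : A) + (v : A) ∈ R
      exact R.add_mem h2 h3
    | mul u v _ _ h2 h3 =>
      change (u : A) * (v : A) ∈ R
      exact R.mul_mem h2 h3
  exact h1 _ y.2

/-- `N a ∈ 𝓞 K [ξ]` for the integers `a` of `K(ξ)`, `N` depends only on `K`. -/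
theorem disc_mul_mem (K : Type) [Field K] [NumberField K] : ∃ N : ℕ, 1 ≤ N ∧
    ∀ (A : Type) [Field A] [NumberField A] [Algebra K A] (n : ℕ) (ξ : A), 1 ≤ n →
      IsPrimitiveRoot ξ n → IntermediateField.adjoin K {ξ} = ⊤ → ∀ (R : Subring A),
      (∀ s : 𝓞 K, algebraMap (𝓞 K) A s ∈ R) → ξ ∈ R → ∀ a : 𝓞 A, (N : A) * (a : A) ∈ R := by
  obtain ⟨θ, hθ⟩ := exists_prim K
  have hθi : IsIntegral ℤ (θ : K) := RingOfIntegers.isIntegral_coe θ
  obtain ⟨g, hg⟩ : ∃ g, g = minpoly ℤ (θ : K) := ⟨_, rfl⟩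
  have hgm : g.Monic := by rw [hg]; exact minpoly.monic hθi
  have hg0 : aeval (θ : K) g = 0 := by rw [hg]; exact minpoly.aeval _ _
  have hmin : minpoly ℚ (θ : K) = g.map (algebraMap ℤ ℚ) := by
    rw [hg]
    exact minpoly.isIntegrallyClosed_eq_field_fractions' ℚ hθi
  have hd0 : aeval (θ : K) (derivative g) ≠ 0 := by
    have h1 := (Algebra.IsSeparable.isSeparable ℚ (θ : K)).aeval_derivative_ne_zero
      (minpoly.aeval ℚ (θ : K))
    rw [hmin, derivative_map, aeval_map_algebraMap] at h1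
    exact h1
  obtain ⟨d, hd⟩ : ∃ d : 𝓞 K, (d : K) = aeval (θ : K) (derivative g) := by
    refine ⟨aeval θ (derivative g), ?_⟩
    change algebraMap (𝓞 K) K (aeval θ (derivative g)) = _
    rw [← aeval_algebraMap_apply]
  have hdn : d ≠ 0 := by
    rintro rfl
    apply hd0
    rw [← hd]
    rfl
  obtain ⟨N, hN, c, hc⟩ := Pool.Agent.H11.FR.exists_int_mul d hdn
  refine ⟨N.natAbs, Int.natAbs_pos.2 hN, ?_⟩
  intro A _ _ _ n ξ hn hξ hgen R hK hξR a
  obtain ⟨x, hx⟩ : ∃ x, x = algebraMap K A (θ : K) := ⟨_, rfl⟩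
  have htop := adj_top ξ hgen (θ : K) hθ
  rw [← hx] at htop
  have : FiniteDimensional ℚ⟮ξ⟯ A := Module.Finite.of_restrictScalars_finite ℚ _ _
  have hgx : aeval x (g.map (algebraMap ℤ (𝓞 ℚ⟮ξ⟯))) = 0 := by
    rw [aeval_map_algebraMap, hx, aeval_algebraMap_apply, hg0, map_zero]
  have hai : IsIntegral (𝓞 ℚ⟮ξ⟯) (a : A) := (RingOfIntegers.isIntegral_coe a).tower_top
  have h1 := Pool.Agent.H11.FR.deriv_mul_mem (A := 𝓞 ℚ⟮ξ⟯) (K := ℚ⟮ξ⟯) (L := A) htop
    (g.map (algebraMap ℤ (𝓞 ℚ⟮ξ⟯))) (hgm.map _) hgx (a : A) hai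
  rw [derivative_map, aeval_map_algebraMap, hx, aeval_algebraMap_apply, ← hd] at h1
  have h2 : algebraMap K A (d : K) * (a : A) ∈ R := by
    have h3 : ∀ z ∈ Algebra.adjoin (𝓞 ℚ⟮ξ⟯) ({algebraMap K A (θ : K)} : Set A), z ∈ R := by
      intro z hz
      induction hz using Algebra.adjoin_induction with
      | mem w hw =>
        rw [Set.mem_singleton_iff] at hw
        rw [hw]
        exact hK θ
      | algebraMap s => exact cyc_int n hn ξ hξ R hξR s
      | add u v _ _ h2 h3 => exact R.add_mem h2 h3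
      | mul u v _ _ h2 h3 => exact R.mul_mem h2 h3
    exact h3 _ h1
  have h3 : algebraMap (𝓞 K) A c * (algebraMap K A (d : K) * (a : A)) = (N : A) * (a : A) := by
    rw [← mul_assoc]
    congr 1
    have h4 : algebraMap K A (d : K) = algebraMap (𝓞 K) A d := rfl
    rw [h4, ← map_mul, mul_comm c, ← hc, map_intCast]
  have h4 : (N : A) * (a : A) ∈ R := by
    rw [← h3]
    exact R.mul_mem (hK c) h2
  rcases Int.natAbs_eq N with h5 | h5
  · have h6 : (N : A) = ((N.natAbs : ℕ) : A) := by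
      conv_lhs => rw [h5]
      simp
    rwa [h6] at h4
  · have h6 : (N : A) = -((N.natAbs : ℕ) : A) := by
      conv_lhs => rw [h5]
      simp
    rw [h6, neg_mul] at h4
    exact neg_mem_iff.1 h4

end Pool.Agent.H11.BK
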