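import Pool.Agent.H11.BK.PriG
import Pool.Agent.H11.BK.FamK

/-!
# Module FamG (MP_187c26_nt, THEOREM VK): families of fields, extensions of bounded degree

`InTameG b D P c L`: every finite subset of `L` lies in a field `M(ξ, x_1, …, x_r, y)`, `y` of degree at most `P` over
`M(ξ, x_1, …, x_r)`, `x_i ^ m_i = b_i`, with pairwise coprime `m_i` and few bad primes or with the degree condition and small index.
-/

set_option autoImplicit false

open Polynomial NumberField IntermediateField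

namespace Pool.Agent.H11.BK

variable {r : ℕ}

/-- Every finite subset of `L` lies in a field `M(ξ, x_1, …, x_r, y)`, `ξ ^ n = 1`, `x_i ^ m_i = b_i`, `n` prime to the `m_i`, `y` of degree at most `P`
over `M(ξ, x_1, …, x_r)`, such that the `m_i` are pairwise coprime and have few bad prime factors, or `[K(ξ, x) : K(ξ)] = ∏ m_i` and
`idxD K D x ≤ exp (c ∏ m_i)`. -/
def InTameG {K M Ω : Type} [Field K] [NumberField K] [Field M] [Field Ω] [CharZero Ω]
    [Algebra K Ω] [Algebra M Ω] (b : Fin r → 𝓞 K) (D P : ℕ) (c : ℝ)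
    (L : IntermediateField M Ω) : Prop :=
  ∀ S : Finset Ω, (∀ s ∈ S, s ∈ L) → ∃ (n : ℕ) (m : Fin r → ℕ) (ξ : Ω) (x : Fin r → Ω) (y : Ω),
    1 ≤ n ∧ (∀ i, 1 ≤ m i) ∧ (∀ i, Nat.Coprime n (m i)) ∧ ξ ^ n = 1 ∧
    (∀ i, x i ^ m i = algebraMap (𝓞 K) Ω (b i)) ∧
    (((∀ i j, i ≠ j → Nat.Coprime (m i) (m j)) ∧ FewBad b m P c) ∨
      (Module.finrank K (IntermediateField.adjoin K ({ξ} ∪ Set.range x)) =
        (∏ i, m i) * Module.finrank K (IntermediateField.adjoin K ({ξ} : Set Ω)) ∧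
        (idxD K D x : ℝ) ≤ Real.exp (c * ((∏ i, m i : ℕ) : ℝ)))) ∧
    (∃ p : Polynomial (IntermediateField.adjoin M ({ξ} ∪ Set.range x)), p ≠ 0 ∧
      p.natDegree ≤ P ∧ Polynomial.aeval y p = 0) ∧
    ∀ s ∈ S, s ∈ IntermediateField.adjoin M ({ξ} ∪ Set.range x ∪ {y})

theorem famG {K : Type} [Field K] [NumberField K] (b : Fin r → 𝓞 K) (D E : ℕ)
    (hT : T0 K r b D E) (hP : TPG K r b E E) : ∃ c : ℝ, 0 < c ∧
    ∀ (M Ω : Type) [Field M] [NumberField M] [Field Ω] [CharZero Ω] [Algebra K M] [Algebra K Ω]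
      [Algebra M Ω] [IsScalarTower K M Ω] [Algebra.IsAlgebraic K Ω] (P : ℕ)
      (L : IntermediateField M Ω), InTameG b D P c L →
      ∀ a : Ω, a ≠ 0 → Module.finrank K M * (minpoly L a).natDegree * P ≤ E →
      absLogHeight₁ a < c → InG K b a := by
  classical
  obtain ⟨c0, hc0, h⟩ := hT
  obtain ⟨c1, hc1, h'⟩ := hP
  refine ⟨min c0 c1, lt_min hc0 hc1, ?_⟩
  intro M Ω _ _ _ _ _ _ _ _ _ P L hL a ha0 hdeg hh
  have haM : IsIntegral M a := (Algebra.IsIntegral.isIntegral (R := K) a).tower_top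
  have haL : IsIntegral L a := haM.tower_top
  obtain ⟨n, m, ξ, x, y, hn, hm, hcn, hξ, hx, halt, ⟨p, hp0, hpP, hpy⟩, hmem⟩ := hL
    ((minpoly L a).coeffs.image fun z : L => (z : Ω)) (by
      intro s hs
      rw [Finset.mem_image] at hs
      obtain ⟨z, -, rfl⟩ := hs
      exact z.2)
  have hfo : IsOfFinOrder ξ := isOfFinOrder_iff_pow_eq_one.2 ⟨n, by omega, hξ⟩
  have hdvd : orderOf ξ ∣ n := orderOf_dvd_of_pow_eq_one hξ
  set N : IntermediateField M Ω := IntermediateField.adjoin M ({ξ} ∪ Set.range x) with hN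
  have hyM : IsIntegral M y := (Algebra.IsIntegral.isIntegral (R := K) y).tower_top
  have hyN : IsIntegral N y := hyM.tower_top
  have haN : IsIntegral N a := haM.tower_top
  have hle : ∀ s ∈ IntermediateField.adjoin M ({ξ} ∪ Set.range x ∪ {y}), s ∈ N⟮y⟯ := by
    intro s hs
    have h1 : IntermediateField.adjoin M ({ξ} ∪ Set.range x ∪ {y}) ≤
        N⟮y⟯.restrictScalars M := by
      rw [IntermediateField.adjoin_le_iff]
      rintro z (hz | hz)
      · have hzN : z ∈ N := IntermediateField.subset_adjoin M _ hz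
        exact N⟮y⟯.algebraMap_mem ⟨z, hzN⟩
      · rw [Set.mem_singleton_iff] at hz
        rw [hz]
        exact mem_adjoin_simple_self N y
    exact h1 hs
  have h1 : (minpoly N⟮y⟯ a).natDegree ≤ (minpoly L a).natDegree := by
    refine Pool.Agent.H11.BE.deg_le_range L N⟮y⟯ Ω a haL fun i => ?_
    by_cases h0 : (minpoly L a).coeff i = 0
    · exact ⟨0, by rw [h0, map_zero, map_zero]⟩
    · exact ⟨⟨_, hle _ (hmem _ (Finset.mem_image_of_mem _ (coeff_mem_coeffs h0)))⟩, rfl⟩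
  have h2 : (minpoly N y).natDegree ≤ P :=
    (natDegree_le_natDegree (minpoly.degree_le_of_ne_zero N y hp0 hpy)).trans hpP
  have h3 := Pool.Agent.H11.BE.deg_mul_le N Ω y a hyN haN
  have hd : dgr K ξ x a ≤ E := by
    refine (deg_lev K M Ω ξ x a).trans ((Nat.mul_le_mul_left _ (h3.trans
      (Nat.mul_le_mul h2 h1))).trans ?_)
    refine le_trans (le_of_eq ?_) hdeg
    ring
  have hPE : P ≤ E := by
    refine le_trans ?_ hdeg
    have hMK : 1 ≤ Module.finrank K M := by
      have : FiniteDimensional K M := Module.Finite.of_restrictScalars_finite ℚ K M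
      exact Module.finrank_pos
    have hL1 : 1 ≤ (minpoly L a).natDegree := minpoly.natDegree_pos haL
    calc P = 1 * 1 * P := by ring
      _ ≤ Module.finrank K M * (minpoly L a).natDegree * P :=
        Nat.mul_le_mul_right _ (Nat.mul_le_mul hMK hL1)
  have hcn' : ∀ i, Nat.Coprime (orderOf ξ) (m i) := fun i =>
    Nat.Coprime.coprime_dvd_left hdvd (hcn i)
  rcases halt with ⟨hcm, hfew⟩ | ⟨hdg, hidx⟩
  · exact h' Ω (orderOf ξ) m ξ x a hfo.orderOf_pos (IsPrimitiveRoot.orderOf ξ) hm hcn' hcm hx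
      (hfew.mono hPE (min_le_right _ _)) ha0 hd (hh.trans_le (min_le_right _ _))
  · refine h Ω (orderOf ξ) m ξ x a ⟨hfo.orderOf_pos, hm, hcn', IsPrimitiveRoot.orderOf ξ, hx,
      hdg⟩ ha0 hd (hidx.trans ?_) (hh.trans_le (min_le_left _ _))
    exact Real.exp_le_exp.2 (mul_le_mul_of_nonneg_right (min_le_left _ _) (Nat.cast_nonneg _))

end Pool.Agent.H11.BK
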