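import Pool.Agent.H11.BK.RadK

/-!
# Module Fro (MP_187c26_nt, THEOREM VK): Frobenius automorphisms of `K(ξ)`

`K` Galois over `ℚ`, `A = K(ξ)`, `ξ` a primitive `n`-th root of unity, `p ∤ n`. `A` is Galois over `ℚ`; let `σ` be a Frobenius automorphism at a
prime `P` of `A` above `p`, `𝔮 = P ∩ K`. Then `σ ξ = ξ ^ p`, `σ a ≡ a ^ p` modulo `𝔮` for `a ∈ 𝓞 K`. The `a ∈ 𝓞 A` with `σ a - a ^ p ∈ 𝔮 𝓞 A`
form a ring which contains `𝓞 K` and `ξ`, and `n 𝓞 A ⊂ 𝓞 K [ξ]`.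
-/

set_option autoImplicit false

open IntermediateField NumberField

namespace Pool.Agent.H11.BK

open Pool.Agent.H4.OG (intOf mem_intOf)
open Pool.Agent.H72.BK (FrobK)

/-- A Frobenius automorphism. -/
theorem exists_arith (k : Type) [Field k] [NumberField k] [IsGalois ℚ k] (p : ℕ)
    (hp : p.Prime) : ∃ (P : Ideal (𝓞 k)) (σ : k ≃ₐ[ℚ] k), P.IsMaximal ∧ (p : 𝓞 k) ∈ P ∧
      (∀ x : 𝓞 k, σ • x - x ^ p ∈ P) ∧
      ∀ (n : ℕ) (z : k), ¬ p ∣ n → z ^ n = 1 → σ z = z ^ p := by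
  classical
  have hq0 : (p : 𝓞 k) ≠ 0 := by exact_mod_cast hp.ne_zero
  obtain ⟨P, hPm, hqP⟩ : ∃ P : Ideal (𝓞 k), P.IsMaximal ∧ (p : 𝓞 k) ∈ P := by
    have h1 : Ideal.span {(p : 𝓞 k)} ≠ ⊤ := by
      intro h
      have h3 : Ideal.absNorm (Ideal.span {(p : 𝓞 k)}) = 1 := by
        rw [h, Ideal.absNorm_top]
      rw [Ideal.absNorm_span_natCast] at h3
      have h4 : 0 < Module.finrank ℤ (𝓞 k) := by
        rw [RingOfIntegers.rank]
        exact Module.finrank_pos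
      exact (Nat.one_lt_pow h4.ne' hp.one_lt).ne' h3
    obtain ⟨P, hP, hle⟩ := Ideal.exists_le_maximal _ h1
    exact ⟨P, hP, hle (Ideal.mem_span_singleton_self _)⟩
  have hPp : P.IsPrime := hPm.isPrime
  have hP0 : P ≠ ⊥ := fun h => hq0 (by rw [h] at hqP; exact hqP)
  have hfin : Finite (𝓞 k ⧸ P) := Ideal.finiteQuotientOfFreeOfNeBot P hP0
  have hnot : ∀ N : ℕ, ¬ p ∣ N → (N : 𝓞 k) ∉ P := by
    intro N hN hmem
    obtain ⟨a, b, hab⟩ : ∃ a b : 𝓞 k, a * N + b * p = 1 := by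
      have h1 : IsCoprime (N : ℤ) (p : ℤ) :=
        Nat.isCoprime_iff_coprime.2 ((Nat.Prime.coprime_iff_not_dvd hp).2 hN).symm
      obtain ⟨a, b, h2⟩ := h1
      exact ⟨a, b, by exact_mod_cast congrArg (fun t : ℤ => (t : 𝓞 k)) h2⟩
    apply hPp.ne_top
    rw [Ideal.eq_top_iff_one, ← hab]
    exact add_mem (Ideal.mul_mem_left _ _ hmem) (Ideal.mul_mem_left _ _ hqP)
  obtain ⟨σ, hσ⟩ := IsArithFrobAt.exists_of_isInvariant ℤ (k ≃ₐ[ℚ] k) P
  have hunder : P.under ℤ = Ideal.span {(p : ℤ)} := by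
    have h1 : Ideal.span {(p : ℤ)} ≤ P.under ℤ := by
      rw [Ideal.span_singleton_le_iff_mem, Ideal.mem_comap, eq_intCast, Int.cast_natCast]
      exact hqP
    have h2 : (Ideal.span {(p : ℤ)}).IsMaximal :=
      PrincipalIdealRing.isMaximal_of_irreducible (Nat.prime_iff_prime_int.1 hp).irreducible
    exact (h2.eq_of_le (Ideal.IsPrime.ne_top inferInstance) h1).symm
  have hcard : Nat.card (ℤ ⧸ P.under ℤ) = p := by
    rw [hunder]
    have h1 := Int.quotientSpanNatEquivZMod p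
    rw [Nat.card_congr h1.toEquiv, Nat.card_zmod]
  refine ⟨P, σ, hPm, hqP, ?_, ?_⟩
  · intro x
    have h1 := hσ x
    rw [hcard] at h1
    exact h1
  · intro n z hn hz
    have hn0 : n ≠ 0 := by
      rintro rfl
      exact hn (dvd_zero p)
    have hzi : IsIntegral ℤ z := IsIntegral.of_pow (Nat.pos_of_ne_zero hn0) (by
      rw [hz]
      exact isIntegral_one)
    let zO : 𝓞 k := ⟨z, hzi⟩
    have hzO : zO ^ n = 1 := by
      apply RingOfIntegers.ext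
      exact hz
    have h1 : σ • zO = zO ^ p := by
      have h2 := hσ.apply_of_pow_eq_one hzO (hnot n hn)
      rw [hcard] at h2
      exact h2
    exact congrArg (fun x : 𝓞 k => (x : k)) h1

private theorem normal_of_sup {F L : Type} [Field F] [Field L] [Algebra F L]
    (E1 E2 : IntermediateField F L) [Normal F E1] [Normal F E2] (h : E1 ⊔ E2 = ⊤) :
    Normal F L := by
  have hn3 : Normal F (E1 ⊔ E2 : IntermediateField F L) := inferInstance
  rw [h] at hn3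
  exact Normal.of_algEquiv (IntermediateField.topEquiv (F := F) (E := L))

private theorem normal_gen {F K A : Type} [Field F] [CharZero F] [Field K] [Field A]
    [Algebra F K] [Algebra F A] [Algebra K A] [IsScalarTower F K A] [Normal F K]
    [Algebra.IsIntegral F A] (n : ℕ)
    (hn : 1 ≤ n) (ξ : A) (hξ : IsPrimitiveRoot ξ n)
    (hgen : IntermediateField.adjoin K {ξ} = ⊤) : Normal F A := by
  have hn0 : NeZero n := ⟨by omega⟩
  obtain ⟨E1, hE1⟩ : ∃ E1 : IntermediateField F A,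
      E1 = (IsScalarTower.toAlgHom F K A).fieldRange := ⟨_, rfl⟩
  have hn1 : Normal F E1 := by
    rw [hE1]
    exact Normal.of_algEquiv (AlgEquiv.ofInjectiveField (IsScalarTower.toAlgHom F K A))
  have hc : IsCyclotomicExtension {n} F F⟮ξ⟯ := hξ.intermediateField_adjoin_isCyclotomicExtension F
  have hg2 : IsGalois F F⟮ξ⟯ := IsCyclotomicExtension.isGalois {n} F F⟮ξ⟯
  have hn2 : Normal F F⟮ξ⟯ := hg2.to_normal
  have htop : E1 ⊔ F⟮ξ⟯ = ⊤ := by
    rw [eq_top_iff]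
    intro z _
    have h1 : z ∈ IntermediateField.adjoin K {ξ} := by rw [hgen]; trivial
    let T : IntermediateField K A :=
      { (E1 ⊔ F⟮ξ⟯).toSubfield with
        algebraMap_mem' := fun y => by
          have h2 : algebraMap K A y ∈ E1 := by
            rw [hE1]
            exact ⟨y, rfl⟩
          exact (le_sup_left : E1 ≤ E1 ⊔ F⟮ξ⟯) h2 }
    have h3 : IntermediateField.adjoin K {ξ} ≤ T := by
      rw [IntermediateField.adjoin_le_iff, Set.singleton_subset_iff]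
      exact (le_sup_right : F⟮ξ⟯ ≤ E1 ⊔ F⟮ξ⟯) (IntermediateField.mem_adjoin_simple_self F ξ)
    exact h3 h1
  exact normal_of_sup E1 F⟮ξ⟯ htop

/-- `K(ξ)` is Galois over `ℚ`. -/
theorem galois_A {K A : Type} [Field K] [NumberField K] [IsGalois ℚ K] [Field A]
    [NumberField A] [Algebra K A] (n : ℕ) (hn : 1 ≤ n) (ξ : A) (hξ : IsPrimitiveRoot ξ n)
    (hgen : IntermediateField.adjoin K {ξ} = ⊤) : IsGalois ℚ A := by
  have h1 : Normal ℚ A := normal_gen (F := ℚ) (K := K) n hn ξ hξ hgen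
  exact ⟨⟩

section

variable {K A : Type} [Field K] [NumberField K] [Field A] [NumberField A] [Algebra K A]

/-- `n a` lies in `𝓞 K [ξ]` for the integers `a` of `K(ξ)`. -/
theorem n_mul_mem (n : ℕ) (hn : 1 ≤ n) (ξ : A) (hξ : ξ ^ n = 1)
    (hgen : IntermediateField.adjoin K {ξ} = ⊤) (R : Subring A)
    (hK : ∀ s : 𝓞 K, algebraMap (𝓞 K) A s ∈ R) (hξR : ξ ∈ R) (a : 𝓞 A) :
    (n : A) * (a : A) ∈ R := by
  have : FiniteDimensional K A := Module.Finite.of_restrictScalars_finite ℚ K A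
  have : Algebra.IsAlgebraic K A := Algebra.IsAlgebraic.of_finite K A
  have h1 := Pool.Agent.H11.FR.ordOf_kill (K := K) (Ω := A) (θ := ξ) (μ := n) hn (b := 1)
    (by rw [hξ, map_one]) (a : A) ((mem_intOf _ _).2 ⟨by rw [hgen]; trivial,
      RingOfIntegers.isIntegral_coe a⟩)
  rw [mul_one, map_natCast] at h1
  exact Pool.Agent.H11.FR.ordOf_le ξ R hK hξR h1

variable [IsGalois ℚ K]

omit [IsGalois ℚ K] in
/-- The restriction of a Frobenius automorphism at `P` satisfies the congruence modulo `(P ∩ K) 𝓞 A`. -/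
theorem frob_core (n : ℕ) (hn : 1 ≤ n) (ξ : A) (hξ : IsPrimitiveRoot ξ n)
    (hgen : IntermediateField.adjoin K {ξ} = ⊤) (p : ℕ) (hp : p.Prime) (hpn : ¬ p ∣ n)
    (P : Ideal (𝓞 A)) (hPp : P.IsPrime) (hpP : (p : 𝓞 A) ∈ P) (σ : A ≃ₐ[ℚ] A)
    (hσ : ∀ x : 𝓞 A, σ • x - x ^ p ∈ P) (hσξ : σ ξ = ξ ^ p) (s : K ≃ₐ[ℚ] K)
    (hs : ∀ y : K, σ (algebraMap K A y) = algebraMap K A (s y)) :
    FrobK K A (P.comap (algebraMap (𝓞 K) (𝓞 A))) p (σ : A →+* A) := by
  have hn0 : NeZero n := ⟨by omega⟩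
  obtain ⟨𝔮, h𝔮⟩ : ∃ 𝔮 : Ideal (𝓞 K), 𝔮 = P.comap (algebraMap (𝓞 K) (𝓞 A)) := ⟨_, rfl⟩
  obtain ⟨J, hJ⟩ : ∃ J : Ideal (𝓞 A), J = 𝔮.map (algebraMap (𝓞 K) (𝓞 A)) := ⟨_, rfl⟩
  have hp𝔮 : (p : 𝓞 K) ∈ 𝔮 := by
    rw [h𝔮, Ideal.mem_comap, map_natCast]
    exact hpP
  have hpJ : (p : 𝓞 A) ∈ J := by
    rw [hJ, ← map_natCast (algebraMap (𝓞 K) (𝓞 A))]
    exact Ideal.mem_map_of_mem _ hp𝔮
  have hσO : ∀ a : 𝓞 A, ((σ • a : 𝓞 A) : A) = σ (a : A) := fun a => rfl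
  -- the ring
  obtain ⟨R, hR⟩ : ∃ R : Subring A, ∀ z : A, z ∈ R ↔ ∃ a : 𝓞 A, (a : A) = z ∧
      σ • a - a ^ p ∈ J := by
    refine ⟨{ carrier := {z | ∃ a : 𝓞 A, (a : A) = z ∧ σ • a - a ^ p ∈ J}
              zero_mem' := ⟨0, map_zero _, by
                rw [smul_zero, zero_pow hp.ne_zero, sub_self]
                exact J.zero_mem⟩
              one_mem' := ⟨1, map_one _, by
                rw [smul_one, one_pow, sub_self]
                exact J.zero_mem⟩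
              add_mem' := ?_
              neg_mem' := ?_
              mul_mem' := ?_ }, fun z => Iff.rfl⟩
    · rintro _ _ ⟨a, rfl, ha⟩ ⟨c, rfl, hc⟩
      refine ⟨a * c, map_mul _ _ _, ?_⟩
      rw [smul_mul', mul_pow]
      have e1 : σ • a * σ • c - a ^ p * c ^ p =
          (σ • a - a ^ p) * σ • c + a ^ p * (σ • c - c ^ p) := by ring
      rw [e1]
      exact add_mem (Ideal.mul_mem_right _ _ ha) (Ideal.mul_mem_left _ _ hc)
    · rintro _ _ ⟨a, rfl, ha⟩ ⟨c, rfl, hc⟩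
      refine ⟨a + c, map_add _ _ _, ?_⟩
      obtain ⟨e, he⟩ := exists_add_pow_prime_eq hp a c
      rw [smul_add, he]
      have e1 : σ • a + σ • c - (a ^ p + c ^ p + (p : 𝓞 A) * a * c * e) =
          (σ • a - a ^ p) + (σ • c - c ^ p) - (p : 𝓞 A) * (a * c * e) := by ring
      rw [e1]
      exact sub_mem (add_mem ha hc) (Ideal.mul_mem_right _ _ hpJ)
    · rintro _ ⟨a, rfl, ha⟩
      refine ⟨-a, map_neg _ _, ?_⟩
      rw [smul_neg]
      rcases hp.eq_two_or_odd' with h2 | h2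
      · subst h2
        have e1 : -(σ • a) - (-a) ^ 2 = (σ • a - a ^ 2) - ((2 : ℕ) : 𝓞 A) * (σ • a) := by
          push_cast
          ring
        rw [e1]
        exact sub_mem ha (Ideal.mul_mem_right _ _ hpJ)
      · rw [h2.neg_pow]
        have e1 : -(σ • a) - -a ^ p = -(σ • a - a ^ p) := by ring
        rw [e1]
        exact neg_mem ha
  have hKR : ∀ t : 𝓞 K, algebraMap (𝓞 K) A t ∈ R := by
    intro t
    rw [hR]
    refine ⟨algebraMap (𝓞 K) (𝓞 A) t, rfl, ?_⟩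
    -- `s t` is an integer of `K`
    obtain ⟨t', ht'⟩ : ∃ t' : 𝓞 K, (t' : K) = s (t : K) :=
      ⟨RingOfIntegers.mapRingEquiv s.toRingEquiv t, rfl⟩
    have e1 : σ • (algebraMap (𝓞 K) (𝓞 A) t) - (algebraMap (𝓞 K) (𝓞 A) t) ^ p =
        algebraMap (𝓞 K) (𝓞 A) (t' - t ^ p) := by
      have e2 : σ • (algebraMap (𝓞 K) (𝓞 A) t) = algebraMap (𝓞 K) (𝓞 A) t' := by
        apply RingOfIntegers.ext
        change σ (algebraMap K A (t : K)) = algebraMap K A (t' : K)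
        rw [ht', hs]
      rw [e2, map_sub, map_pow]
    rw [e1, hJ]
    refine Ideal.mem_map_of_mem _ ?_
    rw [h𝔮, Ideal.mem_comap, ← e1]
    exact hσ _
  have hξR : ξ ∈ R := by
    rw [hR]
    refine ⟨hξ.toInteger, rfl, ?_⟩
    have e1 : σ • hξ.toInteger - hξ.toInteger ^ p = 0 := by
      rw [sub_eq_zero]
      apply RingOfIntegers.ext
      exact hσξ
    rw [e1]
    exact J.zero_mem
  rw [← h𝔮]
  refine ⟨?_, hp𝔮, ?_⟩
  · rw [h𝔮]
    exact Ideal.comap_isPrime _ _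
  · intro a
    have h1 := n_mul_mem (K := K) n hn ξ hξ.pow_eq_one hgen R hKR hξR a
    rw [hR] at h1
    obtain ⟨a', ha', h2⟩ := h1
    have e1 : a' = (n : 𝓞 A) * a := by
      apply RingOfIntegers.ext
      rw [ha']
      change (n : A) * (a : A) = algebraMap (𝓞 A) A ((n : 𝓞 A) * a)
      rw [map_mul, map_natCast]
    rw [e1, smul_mul', mul_pow] at h2
    have e2 : σ • (n : 𝓞 A) = (n : 𝓞 A) := by
      apply RingOfIntegers.ext
      change σ ((n : 𝓞 A) : A) = ((n : 𝓞 A) : A)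
      simp
    rw [e2] at h2
    -- `n ^ p - n` is divisible by `p`
    have h3 : ((n : 𝓞 A) ^ p - n) ∈ J := by
      have h4 : (p : ℤ) ∣ (n : ℤ) ^ p - n := by
        have hpf : Fact p.Prime := ⟨hp⟩
        rw [← ZMod.intCast_zmod_eq_zero_iff_dvd]
        push_cast
        rw [ZMod.pow_card, sub_self]
      obtain ⟨c, hc⟩ := h4
      have h5 : (n : 𝓞 A) ^ p - n = (p : 𝓞 A) * (c : 𝓞 A) := by
        exact_mod_cast congrArg (fun t : ℤ => (t : 𝓞 A)) hc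
      rw [h5]
      exact Ideal.mul_mem_right _ _ hpJ
    have h4 : (n : 𝓞 A) * (σ • a - a ^ p) ∈ J := by
      have e3 : (n : 𝓞 A) * (σ • a - a ^ p) =
          (n : 𝓞 A) * σ • a - (n : 𝓞 A) ^ p * a ^ p + ((n : 𝓞 A) ^ p - n) * a ^ p := by ring
      rw [e3]
      exact add_mem h2 (Ideal.mul_mem_right _ _ h3)
    obtain ⟨u, v, huv⟩ : ∃ u v : 𝓞 A, u * n + v * p = 1 := by
      have h5 : IsCoprime (n : ℤ) (p : ℤ) :=
        Nat.isCoprime_iff_coprime.2 ((Nat.Prime.coprime_iff_not_dvd hp).2 hpn).symm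
      obtain ⟨u, v, h6⟩ := h5
      exact ⟨u, v, by exact_mod_cast congrArg (fun t : ℤ => (t : 𝓞 A)) h6⟩
    have h5 : σ • a - a ^ p ∈ J := by
      have e3 : σ • a - a ^ p = u * ((n : 𝓞 A) * (σ • a - a ^ p)) +
          (p : 𝓞 A) * (v * (σ • a - a ^ p)) := by
        linear_combination (-(σ • a - a ^ p)) * huv
      rw [e3]
      exact add_mem (Ideal.mul_mem_left _ _ h4) (Ideal.mul_mem_right _ _ hpJ)
    refine ⟨σ • a - a ^ p, ?_, ?_⟩
    · rw [← hJ]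
      exact h5
    · change σ (a : A) = (a : A) ^ p + ((σ • a - a ^ p : 𝓞 A) : A)
      have e4 : ((σ • a - a ^ p : 𝓞 A) : A) = σ (a : A) - (a : A) ^ p := rfl
      rw [e4]
      ring

/-- Existence of a Frobenius automorphism of `K(ξ)` at a prime of `K` above `p`. -/
theorem frobK (n : ℕ) (hn : 1 ≤ n) (ξ : A) (hξ : IsPrimitiveRoot ξ n)
    (hgen : IntermediateField.adjoin K {ξ} = ⊤) (p : ℕ) (hp : p.Prime) (hpn : ¬ p ∣ n) :
    ∃ (𝔮 : Ideal (𝓞 K)) (σ : A →+* A), FrobK K A 𝔮 p σ ∧ σ ξ = ξ ^ p ∧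
      ∃ s : K ≃ₐ[ℚ] K, ∀ y : K, σ (algebraMap K A y) = algebraMap K A (s y) := by
  have := galois_A n hn ξ hξ hgen
  obtain ⟨P, σ, hPm, hpP, hσ, hσz⟩ := exists_arith A p hp
  have hσξ : σ ξ = ξ ^ p := hσz n ξ hpn hξ.pow_eq_one
  obtain ⟨s, hs⟩ : ∃ s : K ≃ₐ[ℚ] K, ∀ y : K, σ (algebraMap K A y) = algebraMap K A (s y) :=
    ⟨σ.restrictNormal K, fun y => (AlgEquiv.restrictNormal_commutes σ K y).symm⟩
  exact ⟨_, _, frob_core n hn ξ hξ hgen p hp hpn P hPm.isPrime hpP σ hσ hσξ s hs, hσξ, s, hs⟩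

end

end Pool.Agent.H11.BK
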