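import Pool.Agent.H11.BK.Kill
import Pool.Agent.H4.OH.Regular

/-!
# Module IdxF (MP_187c26_nt, THEOREM VK): the index over `K(ξ, x)` and the index over `K(x)`

`e = [K(ξ) : K]`, `E` a positive integer divisible by `∏ b_i`, `R = RF K ξ x` the ring generated by the integers of `K(ξ)` and the `x_i`.
For an integer `z` of `K(ξ, x)`: `n z = ∑ y_j ξ ^ j`, `y_j` integers of `K(x)`, `j < e`, and `E (∏ m_i) z ∈ R`. As `n`, `∏ m_i` are
coprime, the index of `{z : D E z ∈ R}` in the integers of `K(ξ, x)` is at most `idxD K (D E) x ^ e`.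
-/

set_option autoImplicit false

open IntermediateField NumberField

namespace Pool.Agent.H11.BK

open Pool.Agent.H4.OG (intOf mem_intOf)

section

variable {K : Type} [Field K] [NumberField K] {r : ℕ} {Ω : Type} [Field Ω] [CharZero Ω]
  [Algebra K Ω] {b : Fin r → 𝓞 K} {n : ℕ} {m : Fin r → ℕ} {ξ : Ω} {x : Fin r → Ω}

theorem adj_le_ordD (D : ℕ) (x : Fin r → Ω) :
    (Algebra.adjoin (𝓞 K) (Set.range x)).toSubring.toAddSubgroup ≤ ordD K D x := by
  intro z hz
  have h1 : z ∈ Algebra.adjoin (𝓞 K) (Set.range x) := hz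
  have h2 : (D : Ω) * z ∈ Algebra.adjoin (𝓞 K) (Set.range x) :=
    (Algebra.adjoin (𝓞 K) (Set.range x)).mul_mem (natCast_mem _ D) h1
  exact h2

theorem idxD_ne [Algebra.IsAlgebraic K Ω] (h : Sys K b n m ξ x) (hb : ∀ i, b i ≠ 0) (D : ℕ) :
    idxD K D x ≠ 0 := by
  have := h.fin_X
  have := Pool.Agent.H11.FR.finite_intOf (K := K) (XX K x)
  have hd : (∏ i, (m i : 𝓞 K) * b i) ≠ 0 := Finset.prod_ne_zero_iff.2 fun i _ =>
    mul_ne_zero (by have := h.hm i; exact_mod_cast (by omega : m i ≠ 0)) (hb i)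
  obtain ⟨k, hk, c, hc⟩ := Pool.Agent.H11.FR.exists_int_mul _ hd
  have h1 := Pool.Agent.H11.FR.relIndex_ne_zero_of_mul
    (Algebra.adjoin (𝓞 K) (Set.range x)).toSubring (intOf (XX K x)) k hk (fun z hz => by
      have h1 := kill_X h.hm h.hx z hz
      have h2 : (k : Ω) * z = algebraMap (𝓞 K) Ω c *
          (algebraMap (𝓞 K) Ω (∏ i, (m i : 𝓞 K) * b i) * z) := by
        rw [← mul_assoc, ← map_mul, mul_comm c, ← hc, map_intCast]
      rw [h2]
      exact (Algebra.adjoin (𝓞 K) (Set.range x)).mul_mem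
        ((Algebra.adjoin (𝓞 K) (Set.range x)).algebraMap_mem c) h1)
  unfold idxD
  intro h0
  have h2 := AddSubgroup.relIndex_dvd_of_le_left (intOf (XX K x)).toAddSubgroup
    (adj_le_ordD (K := K) D x)
  rw [h0, zero_dvd_iff] at h2
  exact h1 h2

/-- Larger denominators. -/
theorem idxD_mul_le [Algebra.IsAlgebraic K Ω] (h : Sys K b n m ξ x) (hb : ∀ i, b i ≠ 0)
    (D E : ℕ) : idxD K (D * E) x ≤ idxD K D x := by
  have h1 : ordD K D x ≤ ordD K (D * E) x := by
    intro z hz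
    have h2 : (D : Ω) * z ∈ Algebra.adjoin (𝓞 K) (Set.range x) := hz
    have h3 : ((D * E : ℕ) : Ω) * z ∈ Algebra.adjoin (𝓞 K) (Set.range x) := by
      have h4 : ((D * E : ℕ) : Ω) * z = (E : Ω) * ((D : Ω) * z) := by
        push_cast
        ring
      rw [h4]
      exact (Algebra.adjoin (𝓞 K) (Set.range x)).mul_mem (natCast_mem _ E) h2
    exact h3
  have h2 := AddSubgroup.relIndex_dvd_of_le_left (intOf (XX K x)).toAddSubgroup h1
  exact Nat.le_of_dvd (Nat.pos_of_ne_zero (idxD_ne h hb D)) h2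

/-- The elements `z` with `D z ∈ RF K ξ x`. -/
def ordF (K : Type) [Field K] [NumberField K] {Ω : Type} [Field Ω] [CharZero Ω]
    [Algebra K Ω] (D : ℕ) (ξ : Ω) (x : Fin r → Ω) : AddSubgroup Ω where
  carrier := {z | (D : Ω) * z ∈ RF K ξ x}
  zero_mem' := by
    have h : (D : Ω) * 0 ∈ RF K ξ x := by
      rw [mul_zero]
      exact zero_mem _
    exact h
  add_mem' := fun {y z} hy hz => by
    have h : (D : Ω) * (y + z) ∈ RF K ξ x := by
      rw [mul_add]
      exact add_mem hy hz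
    exact h
  neg_mem' := fun {y} hy => by
    have h : (D : Ω) * (-y) ∈ RF K ξ x := by
      rw [mul_neg]
      exact neg_mem hy
    exact h

theorem alg_mem_RF (ξ : Ω) (x : Fin r → Ω) (s : 𝓞 K) : algebraMap (𝓞 K) Ω s ∈ RF K ξ x := by
  refine (le_sup_left : intOf (AA K ξ) ≤ _) ((mem_intOf _ _).2 ⟨?_, ?_⟩)
  · rw [IsScalarTower.algebraMap_apply (𝓞 K) K Ω]
    exact IntermediateField.algebraMap_mem _ _
  · exact Pool.Agent.H11.FR.isIntegral_algebraMap_int s

theorem x_mem_RF (ξ : Ω) (x : Fin r → Ω) (i : Fin r) : x i ∈ RF K ξ x :=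
  (le_sup_right : Subring.closure (Set.range x) ≤ _) (Subring.subset_closure ⟨i, rfl⟩)

theorem Sys.xi_mem_RF (h : Sys K b n m ξ x) : ξ ∈ RF K ξ x :=
  (le_sup_left : intOf (AA K ξ) ≤ _) ((mem_intOf _ _).2 ⟨mem_AA ξ, h.integral_ξ⟩)

/-- Powers of `ξ` with exponent less than `[K(ξ) : K]` are sufficient. -/
theorem pow_red (hξ : IsIntegral ℤ ξ) (e : ℕ) (he : e = Module.finrank K (AA K ξ)) (k : ℕ) :
    ∃ a : Fin e → 𝓞 K, ξ ^ k = ∑ j, algebraMap (𝓞 K) Ω (a j) * ξ ^ (j : ℕ) := by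
  have hξO : IsIntegral (𝓞 K) ξ := hξ.tower_top
  have hξK : IsIntegral K ξ := hξ.tower_top
  obtain ⟨P, hP⟩ : ∃ P, P = minpoly (𝓞 K) ξ := ⟨_, rfl⟩
  have hPm : P.Monic := by rw [hP]; exact minpoly.monic hξO
  have hmin : minpoly K ξ = P.map (algebraMap (𝓞 K) K) := by
    rw [hP]
    exact minpoly.isIntegrallyClosed_eq_field_fractions' K hξO
  have hdeg : P.natDegree = e := by
    rw [he]
    unfold AA
    rw [IntermediateField.adjoin.finrank hξK, hmin, hPm.natDegree_map]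
  have hP1 : P ≠ 1 := by
    intro h1
    have h2 := minpoly.natDegree_pos hξK
    rw [hmin, hPm.natDegree_map, h1, Polynomial.natDegree_one] at h2
    exact lt_irrefl 0 h2
  have hP0 : Polynomial.aeval ξ P = 0 := by rw [hP]; exact minpoly.aeval _ _
  have h4 : Polynomial.aeval ξ (Polynomial.X ^ k %ₘ P : Polynomial (𝓞 K)) = ξ ^ k := by
    have h5 := congrArg (Polynomial.aeval ξ) (Polynomial.modByMonic_add_div
      (Polynomial.X ^ k : Polynomial (𝓞 K)) P)
    rw [map_add, map_mul, hP0, zero_mul, add_zero, map_pow, Polynomial.aeval_X] at h5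
    exact h5
  rw [← hdeg]
  refine ⟨fun j => (Polynomial.X ^ k %ₘ P : Polynomial (𝓞 K)).coeff j, ?_⟩
  rw [← h4, Polynomial.aeval_eq_sum_range' (Polynomial.natDegree_modByMonic_lt _ hPm hP1),
    ← Fin.sum_univ_eq_sum_range (fun k' => (Polynomial.X ^ k %ₘ P : Polynomial (𝓞 K)).coeff k' • ξ ^ k')]
  refine Finset.sum_congr rfl fun j _ => ?_
  rw [Algebra.smul_def]

theorem idx_F [Algebra.IsAlgebraic K Ω] (h : Sys K b n m ξ x) (hb : ∀ i, b i ≠ 0) (D E : ℕ)
    (hE : (∏ i, b i) ∣ (E : 𝓞 K)) :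
    (ordF K (D * E) ξ x).relIndex (intOf (FF K ξ x)).toAddSubgroup ≠ 0 ∧
    (ordF K (D * E) ξ x).relIndex (intOf (FF K ξ x)).toAddSubgroup ≤
      idxD K (D * E) x ^ Module.finrank K (AA K ξ) := by
  classical
  obtain ⟨e, he⟩ : ∃ e, e = Module.finrank K (AA K ξ) := ⟨_, rfl⟩
  rw [← he]
  have hcop : Nat.Coprime n (∏ i, m i) := Nat.Coprime.prod_right fun i _ => h.cn i
  obtain ⟨u, v, huv⟩ : ∃ u v : ℤ, u * (n : ℤ) + v * ((∏ i, m i : ℕ) : ℤ) = 1 :=
    Nat.isCoprime_iff_coprime.2 hcop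
  have huvΩ : (u : Ω) * (n : Ω) + (v : Ω) * ((∏ i, m i : ℕ) : Ω) = 1 := by
    exact_mod_cast congrArg (Int.cast : ℤ → Ω) huv
  obtain ⟨O, hO⟩ : ∃ O, O = intOf (XX K x) := ⟨_, rfl⟩
  let φ : (Fin e → O.toAddSubgroup) →+ Ω :=
    { toFun := fun w => (u : Ω) * ∑ t : Fin e, (w t : Ω) * ξ ^ (t : ℕ)
      map_zero' := by simp
      map_add' := fun v w => by
        rw [← mul_add, ← Finset.sum_add_distrib]
        congr 1
        refine Finset.sum_congr rfl fun t _ => ?_
        simp only [Pi.add_apply, AddSubgroup.coe_add]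
        ring }
  let P : AddSubgroup (Fin e → O.toAddSubgroup) :=
    AddSubgroup.pi Set.univ (fun _ => (ordD K (D * E) x).addSubgroupOf O.toAddSubgroup)
  have hPidx : P.index = idxD K (D * E) x ^ e := by
    rw [AddSubgroup.index_pi, Finset.prod_const, Finset.card_univ, Fintype.card_fin, hO]
    rfl
  have hadj : ∀ z ∈ Algebra.adjoin (𝓞 K) (Set.range x), z ∈ RF K ξ x := fun z hz =>
    adj_le (RF K ξ x) (alg_mem_RF ξ x) (x_mem_RF ξ x) hz
  have hmain := Pool.Agent.H4.OH.relIndex_le_of_surj φ P (ordF K (D * E) ξ x)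
    (intOf (FF K ξ x)).toAddSubgroup (by
      intro w hw
      have h1 : ((D * E : ℕ) : Ω) * ((u : Ω) * ∑ t : Fin e, (w t : Ω) * ξ ^ (t : ℕ)) ∈
          RF K ξ x := by
        have h2 : ((D * E : ℕ) : Ω) * ((u : Ω) * ∑ t : Fin e, (w t : Ω) * ξ ^ (t : ℕ)) =
            (u : Ω) * ∑ t : Fin e, (((D * E : ℕ) : Ω) * (w t : Ω)) * ξ ^ (t : ℕ) := by
          rw [mul_left_comm, Finset.mul_sum]
          congr 1
          refine Finset.sum_congr rfl fun t _ => ?_
          ring
        rw [h2]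
        refine mul_mem (intCast_mem _ u) (sum_mem fun t _ => mul_mem ?_
          (pow_mem h.xi_mem_RF _))
        have h3 : (w t : Ω) ∈ ordD K (D * E) x := hw t (Set.mem_univ _)
        exact hadj _ h3
      exact h1) (by
      intro z hz
      have hz' := (mem_intOf _ _).1 hz
      -- `n z`
      have h1 := Pool.Agent.H11.FR.step (K := K) (O ⊔ Subring.closure {ξ}) (XX K x)
        (fun w hw hwi => (le_sup_left : O ≤ _) (by rw [hO]; exact (mem_intOf _ _).2 ⟨hw, hwi⟩)) ξ
        ((le_sup_right : Subring.closure {ξ} ≤ _) (Subring.subset_closure rfl)) n h.hn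
        1 (by rw [h.prim.pow_eq_one, map_one]) z (by
          have h2 : FF K ξ x = XX K x ⊔ K⟮ξ⟯ := by
            unfold FF XX
            rw [Set.union_comm, IntermediateField.adjoin_union]
          rw [← h2]
          exact hz'.1) hz'.2
      rw [mul_one, map_natCast] at h1
      have h2 := Pool.Agent.H11.FR.mem_adjoin_closure O ξ _ h1
      have h3 : ∃ y : Fin e → Ω, (∀ t, y t ∈ O) ∧ (n : Ω) * z = ∑ t, y t * ξ ^ (t : ℕ) := by
        refine AddSubgroup.closure_induction (p := fun w _ =>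
          ∃ y : Fin e → Ω, (∀ t, y t ∈ O) ∧ w = ∑ t, y t * ξ ^ (t : ℕ)) ?_ ?_ ?_ ?_ h2
        · rintro _ ⟨a, ha, k, rfl⟩
          obtain ⟨c, hc⟩ := pow_red (K := K) h.integral_ξ e he k
          refine ⟨fun t => a * algebraMap (𝓞 K) Ω (c t), fun t => O.mul_mem ha ?_, ?_⟩
          · rw [hO]
            refine (mem_intOf _ _).2 ⟨?_, Pool.Agent.H11.FR.isIntegral_algebraMap_int (c t)⟩
            rw [IsScalarTower.algebraMap_apply (𝓞 K) K Ω]
            exact IntermediateField.algebraMap_mem _ _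
          · rw [hc, Finset.mul_sum]
            exact Finset.sum_congr rfl fun t _ => (mul_assoc _ _ _).symm
        · exact ⟨0, fun t => O.zero_mem, by simp⟩
        · rintro _ _ _ _ ⟨y, hy, rfl⟩ ⟨y', hy', rfl⟩
          refine ⟨y + y', fun t => O.add_mem (hy t) (hy' t), ?_⟩
          rw [← Finset.sum_add_distrib]
          exact Finset.sum_congr rfl fun t _ => (add_mul _ _ _).symm
        · rintro _ _ ⟨y, hy, rfl⟩
          refine ⟨-y, fun t => O.neg_mem (hy t), ?_⟩
          rw [← Finset.sum_neg_distrib]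
          exact Finset.sum_congr rfl fun t _ => (neg_mul _ _).symm
      obtain ⟨y, hy, hny⟩ := h3
      refine ⟨fun t => ⟨y t, hy t⟩, (v : Ω) * (((∏ i, m i : ℕ) : Ω) * z), ?_, ?_⟩
      · have h4 : ((D * E : ℕ) : Ω) * ((v : Ω) * (((∏ i, m i : ℕ) : Ω) * z)) ∈ RF K ξ x := by
          obtain ⟨s, hs⟩ := hE
          have h5 := kill_F (b := b) h.hm h.hx z hz
          have h6 : ((D * E : ℕ) : Ω) * ((v : Ω) * (((∏ i, m i : ℕ) : Ω) * z)) =
              ((D : Ω) * (v : Ω)) * (algebraMap (𝓞 K) Ω s *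
                (algebraMap (𝓞 K) Ω (∏ i, (m i : 𝓞 K) * b i) * z)) := by
            have h7 : (E : Ω) = algebraMap (𝓞 K) Ω (∏ i, b i) * algebraMap (𝓞 K) Ω s := by
              rw [← map_mul, ← hs, map_natCast]
            have h8 : algebraMap (𝓞 K) Ω (∏ i, (m i : 𝓞 K) * b i) =
                ((∏ i, m i : ℕ) : Ω) * algebraMap (𝓞 K) Ω (∏ i, b i) := by
              rw [Finset.prod_mul_distrib, map_mul, Nat.cast_prod, map_prod]
              simp only [map_natCast]
            rw [h8]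
            push_cast
            rw [h7]
            push_cast
            ring
          rw [h6]
          exact mul_mem (mul_mem (natCast_mem _ D) (intCast_mem _ v))
            (mul_mem (alg_mem_RF ξ x s) h5)
        exact h4
      · change z = (u : Ω) * ∑ t : Fin e, y t * ξ ^ (t : ℕ) +
          (v : Ω) * (((∏ i, m i : ℕ) : Ω) * z)
        rw [← hny]
        linear_combination (-z) * huvΩ) (by
      rw [hPidx]
      exact pow_ne_zero _ (idxD_ne h hb _))
  rw [hPidx] at hmain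
  exact hmain

end

end Pool.Agent.H11.BK
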