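import Pool.Agent.H11.BK.InM

/-!
# Module InD (MP_187c26_nt, THEOREM VK): the index bound

`m_1, …, m_r` pairwise coprime, `[K(x_1, …, x_r) : K] = ∏ m_i`, `∏ b_i ∣ E`, `W` a finite set of primes, unramified in `K`, not `p ^ 2 ∣ ∏ m_i`,
`b_i` prime to `p` if `p ∣ m_i`, such that the other primes `p ∣ m_i` are good. Then `log idxD K (E ^ 2) x ≤ (∏ m_i) [K : ℚ] ∑ p ∈ W, log p / p`.
-/

set_option autoImplicit false

open IntermediateField NumberField Polynomial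

namespace Pool.Agent.H11.BK

open Pool.Agent.H4.OG (intOf mem_intOf)
open Pool.Agent.H72.BE (Gm mon vl)

variable {K Ω : Type} [Field K] [NumberField K] [Field Ω] [CharZero Ω] [Algebra K Ω]
  {r : ℕ} {b : Fin r → 𝓞 K} {m : Fin r → ℕ} {x : Fin r → Ω}

/-- The degree of `x_i ^ (m_i / p)`. -/
theorem deg_sub (hm : ∀ i, 1 ≤ m i) (hx : ∀ i, x i ^ m i = algebraMap (𝓞 K) Ω (b i))
    (hdeg : Module.finrank K (XX K x) = ∏ i, m i) (i : Fin r) (p : ℕ) (hp : 1 ≤ p)
    (hpm : p ∣ m i) : Module.finrank K K⟮x i ^ (m i / p)⟯ = p := by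
  classical
  have hz : ∀ i, NeZero (m i) := fun i => ⟨by have := hm i; omega⟩
  obtain ⟨y, hy⟩ : ∃ y, y = x i ^ (m i / p) := ⟨_, rfl⟩
  rw [← hy]
  have hyp : y ^ p = algebraMap (𝓞 K) Ω (b i) := by
    rw [hy, ← pow_mul, Nat.div_mul_cancel hpm, hx]
  have hyi : IsIntegral K y := by
    refine IsIntegral.of_pow (n := p) hp ?_
    rw [hyp, IsScalarTower.algebraMap_apply (𝓞 K) K Ω]
    exact isIntegral_algebraMap
  have : FiniteDimensional K K⟮y⟯ := IntermediateField.adjoin.finiteDimensional hyi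
  apply le_antisymm
  · rw [IntermediateField.adjoin.finrank hyi]
    have h2 : minpoly K y ∣ X ^ p - C ((b i : 𝓞 K) : K) := minpoly.dvd K y (by
      rw [map_sub, map_pow, aeval_X, aeval_C, hyp, sub_eq_zero]
      rfl)
    have h3 := natDegree_le_of_dvd h2 (X_pow_sub_C_ne_zero (by omega) _)
    rwa [natDegree_X_pow_sub_C] at h3
  · have hli : LinearIndependent K (fun l : Gm m => mon x (vl l)) :=
      (deg_iff (k := K) (β := fun i => (b i : K)) hm (fun i => by rw [hx]; rfl)).1 hdeg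
    let g : Fin p → Gm m := fun k => Pi.single i (((k : ℕ) * (m i / p) : ℕ) : ZMod (m i))
    have hlt : ∀ k : Fin p, (k : ℕ) * (m i / p) < m i := by
      intro k
      have h1 : m i = p * (m i / p) := (Nat.mul_div_cancel' hpm).symm
      have h2 : 1 ≤ m i / p := Nat.div_pos (Nat.le_of_dvd (hm i) hpm) hp
      calc (k : ℕ) * (m i / p) < p * (m i / p) := Nat.mul_lt_mul_of_pos_right k.2 h2
        _ = m i := h1.symm
    have hval : ∀ k : Fin p, ((((k : ℕ) * (m i / p) : ℕ) : ZMod (m i))).val =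
        (k : ℕ) * (m i / p) := fun k => by
      rw [ZMod.val_natCast, Nat.mod_eq_of_lt (hlt k)]
    have hg : Function.Injective g := by
      intro k k' h
      have h1 := congrFun h i
      simp only [g, Pi.single_eq_same] at h1
      have h2 := congrArg ZMod.val h1
      rw [hval, hval] at h2
      have h3 : 1 ≤ m i / p := Nat.div_pos (Nat.le_of_dvd (hm i) hpm) hp
      exact Fin.ext (Nat.eq_of_mul_eq_mul_right h3 h2)
    have h1 := hli.comp g hg
    have h2 : (fun l : Gm m => mon x (vl l)) ∘ g = fun k : Fin p => y ^ (k : ℕ) := by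
      funext k
      show mon x (vl (g k)) = _
      unfold mon
      rw [Finset.prod_eq_single i]
      · have h3 : vl (g k) i = (k : ℕ) * (m i / p) := by
          unfold vl
          simp only [g, Pi.single_eq_same]
          exact hval k
        rw [h3, hy, ← pow_mul, mul_comm]
      · intro j _ hj
        have h3 : vl (g k) j = 0 := by
          unfold vl
          simp only [g, Pi.single_eq_of_ne hj, ZMod.val_zero]
        rw [h3, pow_zero]
      · intro h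
        exact absurd (Finset.mem_univ _) h
    rw [h2] at h1
    have h3 : LinearIndependent K (fun k : Fin p =>
        (IntermediateField.AdjoinSimple.gen K y) ^ (k : ℕ)) := by
      have h5 : (K⟮y⟯.val.toLinearMap) ∘ (fun k : Fin p =>
          (IntermediateField.AdjoinSimple.gen K y) ^ (k : ℕ)) = fun k : Fin p => y ^ (k : ℕ) :=
        rfl
      rw [← h5] at h1
      exact LinearIndependent.of_comp (K⟮y⟯.val.toLinearMap) h1
    have h4 := h3.fintype_card_le_finrank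
    rwa [Fintype.card_fin] at h4

variable [Algebra.IsAlgebraic K Ω]

theorem idx_bound (E : ℕ) (hE1 : 1 ≤ E) (hE : (∏ i, b i) ∣ (E : 𝓞 K)) (hm : ∀ i, 1 ≤ m i)
    (hx : ∀ i, x i ^ m i = algebraMap (𝓞 K) Ω (b i))
    (hcop : ∀ i j, i ≠ j → Nat.Coprime (m i) (m j))
    (hdeg : Module.finrank K (XX K x) = ∏ i, m i) (W : Finset ℕ)
    (hW : ∀ p ∈ W, p.Prime ∧ (∀ P : Ideal (𝓞 K), P.IsMaximal → (p : 𝓞 K) ∉ P ^ 2) ∧
      ∀ i, p ∣ m i → ¬ p ^ 2 ∣ m i ∧ ∀ P : Ideal (𝓞 K), P.IsMaximal → (p : 𝓞 K) ∈ P → b i ∉ P)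
    (hgood : ∀ (P : Ideal (𝓞 K)), P.IsMaximal → ∀ (i : Fin r) (p : ℕ), p.Prime → p ∣ m i →
      p ∉ W → (p : 𝓞 K) ∈ P → b i ∉ P ^ 2 ∧ (b i ∉ P → ∀ c : 𝓞 K, b i - c ^ p ∉ P ^ 2)) :
    Real.log (idxD K (E * E) x) ≤
      (Module.finrank ℚ K * ∑ p ∈ W, Real.log (p : ℕ) / p) * ∏ i, (m i : ℝ) := by
  classical
  let T : Finset (Fin r × ℕ) := (Finset.univ ×ˢ W).filter fun t => t.2 ∣ m t.1
  have hTmem : ∀ t, t ∈ T ↔ t.2 ∈ W ∧ t.2 ∣ m t.1 := by
    intro t
    simp [T]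
  have hb : ∀ t ∈ T, b t.1 ∣ (E : 𝓞 K) := fun t _ =>
    (Finset.dvd_prod_of_mem b (Finset.mem_univ t.1)).trans hE
  have hprime : ∀ t ∈ T, idx1 K E (x t.1 ^ (m t.1 / t.2)) ≠ 0 ∧
      idx1 K E (x t.1 ^ (m t.1 / t.2)) ≤ t.2 ^ Module.finrank ℚ K := by
    intro t ht
    obtain ⟨h1, h2⟩ := (hTmem t).1 ht
    obtain ⟨hp, hunr, hWi⟩ := hW _ h1
    exact idx1_prime (b t.1) E (hb t ht) t.2 hp hunr (hWi _ h2).2 _
      (by rw [← pow_mul, Nat.div_mul_cancel h2, hx])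
      (deg_sub hm hx hdeg t.1 t.2 hp.one_lt.le h2)
  have h1 := idx_multi E hE1 hE hm hx hcop T (fun t ht => by
      obtain ⟨h1, h2⟩ := (hTmem t).1 ht
      exact ⟨(hW _ h1).1, h2, ((hW _ h1).2.2 _ h2).1⟩) (fun P hP i p hp hpm hpP hnT =>
      hgood P hP i p hp hpm (fun hpW => hnT ((hTmem _).2 ⟨hpW, hpm⟩)) hpP)
    (fun t ht => (hprime t ht).1)
  have hpos : (0 : ℝ) ≤ ∏ i, (m i : ℝ) := Finset.prod_nonneg fun i _ => Nat.cast_nonneg _
  have hlogW : ∀ p ∈ W, 0 ≤ Real.log (p : ℕ) / p := fun p hp =>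
    div_nonneg (Real.log_nonneg (by exact_mod_cast (hW p hp).1.one_lt.le)) (Nat.cast_nonneg _)
  rcases Nat.eq_zero_or_pos (idxD K (E * E) x) with h0 | h0
  · rw [h0, Nat.cast_zero, Real.log_zero]
    exact mul_nonneg (mul_nonneg (Nat.cast_nonneg _) (Finset.sum_nonneg hlogW)) hpos
  have h2 : Real.log (idxD K (E * E) x) ≤ ∑ t ∈ T, (((∏ i, m i) / t.2 : ℕ) : ℝ) *
      Real.log (idx1 K E (x t.1 ^ (m t.1 / t.2)) : ℕ) := by
    refine (Real.log_le_log (by exact_mod_cast h0) (show ((idxD K (E * E) x : ℕ) : ℝ) ≤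
      ((∏ t ∈ T, idx1 K E (x t.1 ^ (m t.1 / t.2)) ^ ((∏ i, m i) / t.2) : ℕ) : ℝ) by
        exact_mod_cast h1)).trans (le_of_eq ?_)
    rw [Nat.cast_prod, Real.log_prod]
    · refine Finset.sum_congr rfl fun t _ => ?_
      rw [Nat.cast_pow, Real.log_pow]
    · intro t ht
      exact_mod_cast pow_ne_zero _ (hprime t ht).1
  have h3 : ∀ t ∈ T, (((∏ i, m i) / t.2 : ℕ) : ℝ) *
      Real.log (idx1 K E (x t.1 ^ (m t.1 / t.2)) : ℕ) ≤
        (∏ i, (m i : ℝ)) * (Module.finrank ℚ K * (Real.log (t.2 : ℕ) / t.2)) := by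
    intro t ht
    obtain ⟨h4, h5⟩ := (hTmem t).1 ht
    have hp := (hW _ h4).1
    have hpR : (0 : ℝ) < t.2 := by exact_mod_cast hp.pos
    have h6 : t.2 ∣ ∏ i, m i := h5.trans (Finset.dvd_prod_of_mem m (Finset.mem_univ t.1))
    have h7 : (((∏ i, m i) / t.2 : ℕ) : ℝ) = (∏ i, (m i : ℝ)) / t.2 := by
      rw [Nat.cast_div h6 hpR.ne', Nat.cast_prod]
    have h8 : Real.log (idx1 K E (x t.1 ^ (m t.1 / t.2)) : ℕ) ≤
        Module.finrank ℚ K * Real.log (t.2 : ℕ) := by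
      rw [← Real.log_pow]
      refine Real.log_le_log (by exact_mod_cast Nat.pos_of_ne_zero (hprime t ht).1) ?_
      exact_mod_cast (hprime t ht).2
    rw [h7]
    calc (∏ i, (m i : ℝ)) / t.2 * Real.log (idx1 K E (x t.1 ^ (m t.1 / t.2)) : ℕ) ≤
          (∏ i, (m i : ℝ)) / t.2 * (Module.finrank ℚ K * Real.log (t.2 : ℕ)) :=
          mul_le_mul_of_nonneg_left h8 (div_nonneg hpos hpR.le)
      _ = _ := by ring
  refine (h2.trans (Finset.sum_le_sum h3)).trans ?_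
  rw [← Finset.mul_sum, ← Finset.mul_sum, mul_comm]
  refine mul_le_mul_of_nonneg_right (mul_le_mul_of_nonneg_left ?_ (Nat.cast_nonneg _)) hpos
  have hinj : Set.InjOn (fun t : Fin r × ℕ => t.2) (T : Set (Fin r × ℕ)) := by
    intro t ht t' ht' h
    rw [Finset.mem_coe] at ht ht'
    obtain ⟨h4, h5⟩ := (hTmem t).1 ht
    obtain ⟨h6, h7⟩ := (hTmem t').1 ht'
    have h' : t.2 = t'.2 := h
    by_contra hne
    have hne1 : t.1 ≠ t'.1 := fun h8 => hne (Prod.ext h8 h')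
    have h9 := hcop _ _ hne1
    rw [← h'] at h7
    have h10 := Nat.dvd_gcd h5 h7
    rw [h9.gcd_eq_one] at h10
    exact (hW _ h4).1.one_lt.ne' (Nat.dvd_one.1 h10)
  calc ∑ t ∈ T, Real.log (t.2 : ℕ) / t.2 =
        ∑ p ∈ T.image (fun t => t.2), Real.log (p : ℕ) / p :=
          (Finset.sum_image (f := fun p : ℕ => Real.log (p : ℕ) / (p : ℝ)) hinj).symm
    _ ≤ ∑ p ∈ W, Real.log (p : ℕ) / p := by
        refine Finset.sum_le_sum_of_subset_of_nonneg ?_ fun p hp _ => hlogW p hp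
        intro p hp
        obtain ⟨t, ht, rfl⟩ := Finset.mem_image.1 hp
        exact ((hTmem t).1 ht).1

end Pool.Agent.H11.BK
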