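import Pool.Agent.H11.BK.InP
import Pool.Agent.H11.BK.Drop
import Pool.Agent.H11.FR.Red

/-!
# Module InH (MP_187c26_nt, THEOREM VK): subgroups `{z : E z ∈ A}` and adjunction of radicals

`hh_multi`: if `x_i ^ s_i ∈ A ≤ O`, the index of `{z : E z ∈ A[x]}` in `O[x]` is at most the index of `{z : E z ∈ A}` in `O` to the power
`∏ s_i`.
-/

set_option autoImplicit false

open IntermediateField NumberField

namespace Pool.Agent.H11.BK

open Pool.Agent.H4.OG (intOf mem_intOf)
open Pool.Agent.H4.OH (relIndex_le_of_surj)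

section

variable {Ω : Type} [Field Ω]

/-- The `z` with `E z ∈ A`. -/
def HH (E : ℕ) (A : Subring Ω) : AddSubgroup Ω :=
  A.toAddSubgroup.comap (AddMonoidHom.mulLeft (E : Ω))

theorem mem_HH (E : ℕ) (A : Subring Ω) (z : Ω) : z ∈ HH E A ↔ (E : Ω) * z ∈ A := Iff.rfl

theorem le_HH (E : ℕ) (A : Subring Ω) : A.toAddSubgroup ≤ HH E A := by
  intro z hz
  exact A.mul_mem (natCast_mem A E) hz

theorem HH_mono (E : ℕ) {A B : Subring Ω} (h : A ≤ B) : HH E A ≤ HH E B := fun _ hz => h hz

variable [CharZero Ω]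

theorem hh_step (E : ℕ) (A O : Subring Ω) (hAO : A ≤ O) (x : Ω) (s : ℕ) (hs : 1 ≤ s)
    (hx : x ^ s ∈ A) (h0 : (HH E A).relIndex O.toAddSubgroup ≠ 0) :
    (HH E (A ⊔ Subring.closure {x})).relIndex (O ⊔ Subring.closure {x}).toAddSubgroup ≠ 0 ∧
      (HH E (A ⊔ Subring.closure {x})).relIndex (O ⊔ Subring.closure {x}).toAddSubgroup ≤
        (HH E A).relIndex O.toAddSubgroup ^ s := by
  classical
  let φ : (Fin s → O.toAddSubgroup) →+ Ω :=
    { toFun := fun w => ∑ t : Fin s, (w t : Ω) * x ^ (t : ℕ)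
      map_zero' := by simp
      map_add' := fun v w => by
        rw [← Finset.sum_add_distrib]
        refine Finset.sum_congr rfl fun t _ => ?_
        simp only [Pi.add_apply, AddSubgroup.coe_add]
        ring }
  let P : AddSubgroup (Fin s → O.toAddSubgroup) :=
    AddSubgroup.pi Set.univ (fun _ => (HH E A).addSubgroupOf O.toAddSubgroup)
  have hPidx : P.index = (HH E A).relIndex O.toAddSubgroup ^ s := by
    rw [AddSubgroup.index_pi, Finset.prod_const, Finset.card_univ, Fintype.card_fin]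
    rfl
  have hxA : x ∈ A ⊔ Subring.closure {x} :=
    (le_sup_right : Subring.closure {x} ≤ A ⊔ Subring.closure {x}) (Subring.subset_closure rfl)
  have hmain := relIndex_le_of_surj φ P (HH E (A ⊔ Subring.closure {x}))
    (O ⊔ Subring.closure {x}).toAddSubgroup (by
      intro y hy
      rw [mem_HH]
      change (E : Ω) * ∑ t : Fin s, (y t : Ω) * x ^ (t : ℕ) ∈ _
      rw [Finset.mul_sum]
      refine Subring.sum_mem _ fun t _ => ?_
      rw [← mul_assoc]
      have h1 : (E : Ω) * (y t : Ω) ∈ A := hy t (Set.mem_univ t)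
      exact (A ⊔ Subring.closure {x}).mul_mem
        ((le_sup_left : A ≤ A ⊔ Subring.closure {x}) h1) (pow_mem hxA _)) (by
      intro z hz
      obtain ⟨u, hu, huz⟩ := sum_pow O x s hs (hAO hx) z hz
      exact ⟨fun t => ⟨u t, hu t⟩, 0, zero_mem _, by rw [add_zero, huz]; rfl⟩)
    (by rw [hPidx]; exact pow_ne_zero _ h0)
  rw [hPidx] at hmain
  exact hmain

theorem hh_multi {ι : Type} [DecidableEq ι] (E : ℕ) (A O : Subring Ω) (hAO : A ≤ O)
    (x : ι → Ω) (s : ι → ℕ) (hs : ∀ i, 1 ≤ s i) (hx : ∀ i, x i ^ s i ∈ A)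
    (h0 : (HH E A).relIndex O.toAddSubgroup ≠ 0) (T : Finset ι) :
    (HH E (A ⊔ Subring.closure (x '' (T : Set ι)))).relIndex
        (O ⊔ Subring.closure (x '' (T : Set ι))).toAddSubgroup ≠ 0 ∧
      (HH E (A ⊔ Subring.closure (x '' (T : Set ι)))).relIndex
        (O ⊔ Subring.closure (x '' (T : Set ι))).toAddSubgroup ≤
          (HH E A).relIndex O.toAddSubgroup ^ (∏ i ∈ T, s i) := by
  induction T using Finset.induction_on with
  | empty =>
    have h1 : Subring.closure (x '' ((∅ : Finset ι) : Set ι)) = ⊥ := by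
      rw [Finset.coe_empty, Set.image_empty, Subring.closure_empty]
    rw [h1, sup_bot_eq, sup_bot_eq, Finset.prod_empty, pow_one]
    exact ⟨h0, le_rfl⟩
  | insert j T hj ih =>
    have h1 : ∀ B : Subring Ω, B ⊔ Subring.closure (x '' ((insert j T : Finset ι) : Set ι)) =
        (B ⊔ Subring.closure (x '' (T : Set ι))) ⊔ Subring.closure {x j} := by
      intro B
      rw [Finset.coe_insert, Set.image_insert_eq, Set.insert_eq, Subring.closure_union, sup_assoc,
        sup_comm (Subring.closure {x j})]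
    rw [h1, h1, Finset.prod_insert hj]
    obtain ⟨h2, h3⟩ := ih
    have h4 := hh_step E (A ⊔ Subring.closure (x '' (T : Set ι)))
      (O ⊔ Subring.closure (x '' (T : Set ι))) (sup_le_sup_right hAO _) (x j) (s j) (hs j)
      ((le_sup_left : A ≤ _) (hx j)) h2
    refine ⟨h4.1, h4.2.trans ?_⟩
    rw [mul_comm, pow_mul]
    exact Nat.pow_le_pow_left h3 _

/-- Multiplication by `E`. -/
theorem hh_comap (E : ℕ) (hE : 1 ≤ E) (A C : Subring Ω) :
    (HH (E * E) A).relIndex (HH E C) = (HH E A).relIndex C.toAddSubgroup := by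
  have hE0 : (E : Ω) ≠ 0 := by exact_mod_cast (by omega : E ≠ 0)
  have h1 : HH (E * E) A = (HH E A).comap (AddMonoidHom.mulLeft (E : Ω)) := by
    ext z
    rw [mem_HH, AddSubgroup.mem_comap, mem_HH]
    change _ ↔ (E : Ω) * ((E : Ω) * z) ∈ A
    rw [← mul_assoc, Nat.cast_mul]
  have h2 : (HH E C).map (AddMonoidHom.mulLeft (E : Ω)) = C.toAddSubgroup := by
    unfold HH
    refine AddSubgroup.map_comap_eq_self_of_surjective ?_ _
    intro z
    refine ⟨(E : Ω)⁻¹ * z, ?_⟩
    change (E : Ω) * ((E : Ω)⁻¹ * z) = z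
    rw [mul_inv_cancel_left₀ hE0]
  rw [h1, AddSubgroup.relIndex_comap, h2]

end

end Pool.Agent.H11.BK
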