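import Pool.Agent.H11.BK.InH

/-!
# Module InM (MP_187c26_nt, THEOREM VK): the index for pairwise coprime exponents

`m_1, …, m_r` pairwise coprime, `∏ b_i ∣ E`. The index of all `z` with `E ^ 2 z ∈ 𝓞 K [x_1, …, x_r]` in the ring of integers of
`K(x_1, …, x_r)` is at most the product over a finite set `T` of pairs `(i, p)`, `p ∣ m_i` prime, not `p ^ 2 ∣ m_i`, of the indices for
`K(b_i ^ (1 / p))` to the powers `∏ m_j / p`, if the other pairs are good (`b_i` is not a `p`-th power modulo `P ^ 2` for the `P` above `p`).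
-/

set_option autoImplicit false

open IntermediateField NumberField

namespace Pool.Agent.H11.BK

open Pool.Agent.H4.OG (intOf mem_intOf)
open Pool.Agent.H11.FR (ordOf algebraMap_mem_ordOf self_mem_ordOf ordOf_le mem_of_local
  mem_sup_closure exists_mul_mem relIndex_sum_le isIntegral_algebraMap_int step')

section

variable {K Ω : Type} [Field K] [NumberField K] [Field Ω] [CharZero Ω] [Algebra K Ω]

omit [CharZero Ω] in
/-- Localisation of a compositum. -/
theorem loc_sup (P : Ideal (𝓞 K)) (hP : P.IsPrime) (R O B : Subring Ω)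
    (hK : ∀ s : 𝓞 K, algebraMap (𝓞 K) Ω s ∈ R) (hB : B ≤ R)
    (h : ∀ a ∈ O, ∃ r : 𝓞 K, r ∉ P ∧ algebraMap (𝓞 K) Ω r * a ∈ R) (w : Ω) (hw : w ∈ O ⊔ B) :
    ∃ r : 𝓞 K, r ∉ P ∧ algebraMap (𝓞 K) Ω r * w ∈ R := by
  have h1 : (1 : 𝓞 K) ∉ P := (Ideal.ne_top_iff_one P).1 hP.ne_top
  have h2 := mem_sup_closure O B w hw
  induction h2 using AddSubgroup.closure_induction with
  | mem t ht =>
    obtain ⟨a, ha, c, hc, rfl⟩ := ht
    obtain ⟨r, hr, hra⟩ := h a ha
    refine ⟨r, hr, ?_⟩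
    rw [← mul_assoc]
    exact R.mul_mem hra (hB hc)
  | zero =>
    refine ⟨1, h1, ?_⟩
    rw [mul_zero]
    exact R.zero_mem
  | add u v hu' hv' hu hv =>
    have hu1 : ∀ y ∈ AddSubgroup.closure {t : Ω | ∃ a ∈ O, ∃ w ∈ B, t = a * w}, y ∈ O ⊔ B := by
      intro y hy
      have h3 : AddSubgroup.closure {t : Ω | ∃ a ∈ O, ∃ w ∈ B, t = a * w} ≤
          (O ⊔ B).toAddSubgroup := by
        rw [AddSubgroup.closure_le]
        rintro _ ⟨a, ha, c, hc, rfl⟩
        exact (O ⊔ B).mul_mem ((le_sup_left : O ≤ O ⊔ B) ha) ((le_sup_right : B ≤ O ⊔ B) hc)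
      exact h3 hy
    obtain ⟨r, hr, h4⟩ := hu (hu1 _ hu')
    obtain ⟨s, hs, h5⟩ := hv (hu1 _ hv')
    refine ⟨r * s, fun h6 => (hP.mem_or_mem h6).elim hr hs, ?_⟩
    have h6 : algebraMap (𝓞 K) Ω (r * s) * (u + v) =
        algebraMap (𝓞 K) Ω s * (algebraMap (𝓞 K) Ω r * u) +
          algebraMap (𝓞 K) Ω r * (algebraMap (𝓞 K) Ω s * v) := by
      rw [map_mul]
      ring
    rw [h6]
    exact R.add_mem (R.mul_mem (hK s) h4) (R.mul_mem (hK r) h5)
  | neg u hu' hu =>
    have h3 : u ∈ O ⊔ B := by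
      have h4 := (O ⊔ B).neg_mem hw
      rwa [neg_neg] at h4
    obtain ⟨r, hr, h4⟩ := hu h3
    refine ⟨r, hr, ?_⟩
    rw [mul_neg]
    exact R.neg_mem h4

theorem prime_of_mem (P : Ideal (𝓞 K)) (hP : P.IsPrime) : ∀ m : ℕ, 1 ≤ m → (m : 𝓞 K) ∈ P →
    ∃ p : ℕ, p.Prime ∧ p ∣ m ∧ (p : 𝓞 K) ∈ P := by
  intro m
  induction m using Nat.strong_induction_on with
  | _ m ih =>
  intro hm hmP
  have h1 : (1 : 𝓞 K) ∉ P := (Ideal.ne_top_iff_one P).1 hP.ne_top
  have hm1 : m ≠ 1 := by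
    rintro rfl
    rw [Nat.cast_one] at hmP
    exact h1 hmP
  have hp := Nat.minFac_prime hm1
  obtain ⟨k, hk⟩ := Nat.minFac_dvd m
  have hk0 : 1 ≤ k := by
    rcases Nat.eq_zero_or_pos k with h | h
    · rw [h, mul_zero] at hk
      omega
    · exact h
  have hmP' : ((m.minFac : ℕ) : 𝓞 K) * (k : 𝓞 K) ∈ P := by
    rw [← Nat.cast_mul, ← hk]
    exact hmP
  rcases hP.mem_or_mem hmP' with h | h
  · exact ⟨m.minFac, hp, Nat.minFac_dvd m, h⟩
  · have hlt : k < m := by
      have h3 : 1 * k < m.minFac * k := Nat.mul_lt_mul_of_pos_right hp.one_lt hk0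
      rw [one_mul, ← hk] at h3
      exact h3
    obtain ⟨p, hp1, hp2, hp3⟩ := ih k hlt hk0 h
    exact ⟨p, hp1, hp2.trans ⟨m.minFac, by rw [mul_comm]; exact hk⟩, hp3⟩

theorem not_mem_of_coprime (P : Ideal (𝓞 K)) (hP : P.IsPrime) (p m : ℕ) (h : Nat.Coprime p m)
    (hp : (p : 𝓞 K) ∈ P) : (m : 𝓞 K) ∉ P := by
  intro hm
  have h2 : IsCoprime (p : 𝓞 K) (m : 𝓞 K) := by
    have h3 := (Nat.isCoprime_iff_coprime.2 h).map (Int.castRingHom (𝓞 K))
    simpa only [eq_intCast, Int.cast_natCast] using h3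
  obtain ⟨u, v, huv⟩ := h2
  have h3 : (1 : 𝓞 K) ∈ P := by
    rw [← huv]
    exact add_mem (Ideal.mul_mem_left _ _ hp) (Ideal.mul_mem_left _ _ hm)
  exact (Ideal.ne_top_iff_one P).1 hP.ne_top h3

end

section

variable {K Ω : Type} [Field K] [NumberField K] [Field Ω] [CharZero Ω] [Algebra K Ω]
  [Algebra.IsAlgebraic K Ω] {r : ℕ} {b : Fin r → 𝓞 K} {m : Fin r → ℕ} {x : Fin r → Ω}

/-- The index of `𝓞 K [b_i ^ (1 / p)]` up to denominators `E`. -/
noncomputable def idx1 (K : Type) {Ω : Type} [Field K] [NumberField K] [Field Ω] [CharZero Ω]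
    [Algebra K Ω] (E : ℕ) (θ : Ω) : ℕ :=
  (ord1 K E θ).relIndex (intOf K⟮θ⟯).toAddSubgroup

theorem ordOf_root_le_intOf {b : 𝓞 K} {p : ℕ} (hp : 1 ≤ p) {θ : Ω}
    (hθ : θ ^ p = algebraMap (𝓞 K) Ω b) : ordOf K θ ≤ intOf K⟮θ⟯ :=
  Pool.Agent.H11.FR.ordOf_le_intOf hp hθ

theorem idx_multi (E : ℕ) (hE1 : 1 ≤ E) (hE : (∏ i, b i) ∣ (E : 𝓞 K)) (hm : ∀ i, 1 ≤ m i)
    (hx : ∀ i, x i ^ m i = algebraMap (𝓞 K) Ω (b i))
    (hcop : ∀ i j, i ≠ j → Nat.Coprime (m i) (m j)) (T : Finset (Fin r × ℕ))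
    (hT : ∀ t ∈ T, t.2.Prime ∧ t.2 ∣ m t.1 ∧ ¬ t.2 ^ 2 ∣ m t.1)
    (hgood : ∀ (P : Ideal (𝓞 K)), P.IsMaximal → ∀ (i : Fin r) (p : ℕ), p.Prime → p ∣ m i →
      (p : 𝓞 K) ∈ P → (i, p) ∉ T → b i ∉ P ^ 2 ∧ (b i ∉ P → ∀ c : 𝓞 K, b i - c ^ p ∉ P ^ 2))
    (h0 : ∀ t ∈ T, idx1 K E (x t.1 ^ (m t.1 / t.2)) ≠ 0) :
    idxD K (E * E) x ≤ ∏ t ∈ T, idx1 K E (x t.1 ^ (m t.1 / t.2)) ^ ((∏ i, m i) / t.2) := by
  classical
  obtain ⟨A, hA⟩ : ∃ A : Subring Ω, A = (Algebra.adjoin (𝓞 K) (Set.range x)).toSubring :=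
    ⟨_, rfl⟩
  have hKA : ∀ s : 𝓞 K, algebraMap (𝓞 K) Ω s ∈ A := fun s => by
    rw [hA]
    exact (Algebra.adjoin (𝓞 K) (Set.range x)).algebraMap_mem s
  have hxA : ∀ i, x i ∈ A := fun i => by
    rw [hA]
    exact Algebra.subset_adjoin ⟨i, rfl⟩
  have hcA : Subring.closure (Set.range x) ≤ A := by
    rw [Subring.closure_le]
    rintro _ ⟨i, rfl⟩
    exact hxA i
  have hAle : ∀ R : Subring Ω, (∀ s : 𝓞 K, algebraMap (𝓞 K) Ω s ∈ R) →
      Subring.closure (Set.range x) ≤ R → A ≤ R := by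
    intro R h1 h2 z hz
    rw [hA] at hz
    exact adj_le R h1 (fun i => h2 (Subring.subset_closure ⟨i, rfl⟩)) hz
  let y : Fin r × ℕ → Ω := fun t => x t.1 ^ (m t.1 / t.2)
  let C : Fin r × ℕ → Subring Ω := fun t => intOf K⟮y t⟯ ⊔ Subring.closure (Set.range x)
  have hyp : ∀ t ∈ T, y t ^ t.2 = algebraMap (𝓞 K) Ω (b t.1) := by
    intro t ht
    change (x t.1 ^ (m t.1 / t.2)) ^ t.2 = _
    rw [← pow_mul, Nat.div_mul_cancel (hT t ht).2.1, hx]
  have hKint : ∀ (t : Fin r × ℕ) (s : 𝓞 K), algebraMap (𝓞 K) Ω s ∈ intOf K⟮y t⟯ := by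
    intro t s
    refine (mem_intOf _ _).2 ⟨?_, isIntegral_algebraMap_int s⟩
    rw [IsScalarTower.algebraMap_apply (𝓞 K) K Ω]
    exact IntermediateField.algebraMap_mem _ _
  have hAC : ∀ t, A ≤ C t := fun t => hAle _
    (fun s => (le_sup_left : intOf K⟮y t⟯ ≤ C t) (hKint t s)) le_sup_right
  -- the single indices
  have hC : ∀ t ∈ T, (HH (E * E) A).relIndex (HH E (C t)) ≠ 0 ∧
      (HH (E * E) A).relIndex (HH E (C t)) ≤ idx1 K E (y t) ^ ((∏ i, m i) / t.2) := by
    intro t ht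
    obtain ⟨htp, htm, -⟩ := hT t ht
    rw [hh_comap E hE1]
    obtain ⟨s, hs⟩ : ∃ s : Fin r → ℕ, s = Function.update m t.1 (m t.1 / t.2) := ⟨_, rfl⟩
    have hs1 : ∀ i, 1 ≤ s i := by
      intro i
      rw [hs]
      by_cases h : i = t.1
      · rw [h, Function.update_self]
        exact Nat.div_pos (Nat.le_of_dvd (hm _) htm) htp.pos
      · rw [Function.update_of_ne h]
        exact hm i
    have hsx : ∀ i, x i ^ s i ∈ ordOf K (y t) := by
      intro i
      rw [hs]
      by_cases h : i = t.1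
      · rw [h, Function.update_self]
        exact self_mem_ordOf (y t)
      · rw [Function.update_of_ne h, hx]
        exact algebraMap_mem_ordOf _ _
    have hle : ordOf K (y t) ≤ intOf K⟮y t⟯ := ordOf_root_le_intOf htp.one_lt.le (hyp t ht)
    have h2 := hh_multi E (ordOf K (y t)) (intOf K⟮y t⟯) hle x s hs1 hsx (h0 t ht) Finset.univ
    rw [Finset.coe_univ, Set.image_univ] at h2
    have h3 : ordOf K (y t) ⊔ Subring.closure (Set.range x) = A := by
      apply le_antisymm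
      · exact sup_le (ordOf_le _ _ hKA (pow_mem (hxA _) _)) hcA
      · exact hAle _ (fun s => (le_sup_left : ordOf K (y t) ≤ _) (algebraMap_mem_ordOf _ s))
          le_sup_right
    rw [h3] at h2
    have h4 : ∏ i, s i = (∏ i, m i) / t.2 := by
      rw [hs, Finset.prod_update_of_mem (Finset.mem_univ _)]
      have h5 : m t.1 * ∏ i ∈ Finset.univ \ {t.1}, m i = ∏ i, m i := by
        rw [← Finset.erase_eq, Finset.mul_prod_erase _ _ (Finset.mem_univ _)]
      rw [← h5, Nat.div_mul_right_comm htm]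
    rw [h4] at h2
    exact h2
  let D : Fin r × ℕ → AddSubgroup Ω := fun t => if t ∈ T then HH E (C t) else HH (E * E) A
  have hD : ∀ t ∈ T, D t = HH E (C t) := fun t ht => if_pos ht
  have hDidx : ∀ t, (HH (E * E) A).relIndex (D t) ≠ 0 := by
    intro t
    by_cases ht : t ∈ T
    · rw [hD t ht]
      exact (hC t ht).1
    · have : D t = HH (E * E) A := if_neg ht
      rw [this, AddSubgroup.relIndex_self]
      exact one_ne_zero
  obtain ⟨hS0, hSle⟩ := relIndex_sum_le (HH (E * E) A) D hDidx T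
  obtain ⟨S, hS⟩ : ∃ S, S = HH (E * E) A ⊔ T.sup D := ⟨_, rfl⟩
  rw [← hS] at hS0 hSle
  have hAS : HH (E * E) A ≤ S := by rw [hS]; exact le_sup_left
  have hDS : ∀ t ∈ T, HH E (C t) ≤ S := fun t ht => by
    rw [hS, ← hD t ht]
    exact (Finset.le_sup (f := D) ht).trans le_sup_right
  have hHA : HH E A ≤ HH (E * E) A := by
    intro z hz
    rw [mem_HH] at hz ⊢
    rw [Nat.cast_mul, mul_assoc]
    exact A.mul_mem (natCast_mem A E) hz
  have hHmod : ∀ (F : ℕ) (R : Subring Ω), (∀ s : 𝓞 K, algebraMap (𝓞 K) Ω s ∈ R) →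
      ∀ (c : 𝓞 K) (z : Ω), z ∈ HH F R → algebraMap (𝓞 K) Ω c * z ∈ HH F R := by
    intro F R hR c z hz
    rw [mem_HH] at hz ⊢
    have h1 : (F : Ω) * (algebraMap (𝓞 K) Ω c * z) = algebraMap (𝓞 K) Ω c * ((F : Ω) * z) := by
      ring
    rw [h1]
    exact R.mul_mem (hR c) hz
  -- `S` is a module over `𝓞 K`
  have hmod : ∀ (c : 𝓞 K), ∀ s ∈ S, algebraMap (𝓞 K) Ω c * s ∈ S := by
    intro c
    have h1 : S ≤ S.comap (AddMonoidHom.mulLeft (algebraMap (𝓞 K) Ω c)) := by
      conv_lhs => rw [hS]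
      refine sup_le ?_ (Finset.sup_le fun t ht => ?_)
      · intro s hs
        exact hAS (hHmod _ A hKA c s hs)
      · intro s hs
        rw [hD t ht] at hs
        exact hDS t ht (hHmod _ (C t) (fun s => hAC t (hKA s)) c s hs)
    exact fun s hs => h1 hs
  obtain ⟨e, he⟩ := hE
  have heΩ : (E : Ω) = algebraMap (𝓞 K) Ω (∏ i, b i) * algebraMap (𝓞 K) Ω e := by
    rw [← map_mul, ← he, map_natCast]
  -- the integers lie in `S`
  have hOS : (intOf (XX K x)).toAddSubgroup ≤ S := by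
    intro z hz
    obtain ⟨hz1, hz2⟩ := (mem_intOf _ _).1 hz
    refine mem_of_local (K := K) S hmod z (fun P hP => ?_)
    have hPp := hP.isPrime
    by_cases hex : ∃ (i : Fin r) (p : ℕ), p.Prime ∧ p ∣ m i ∧ (p : 𝓞 K) ∈ P
    · obtain ⟨i, p, hp, hpm, hpP⟩ := hex
      have hj : ∀ j ∈ Finset.univ.erase i, (m j : 𝓞 K) ∉ P := by
        intro j hj
        refine not_mem_of_coprime P hPp p (m j) ?_ hpP
        exact Nat.Coprime.coprime_dvd_left hpm (hcop i j (Finset.ne_of_mem_erase hj).symm)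
      have hM : (∏ j ∈ Finset.univ.erase i, (m j : 𝓞 K)) ∉ P := by
        intro h
        obtain ⟨j, hj1, hj2⟩ := (Ideal.IsPrime.prod_mem_iff (hp := hPp)).1 h
        exact hj j hj1 hj2
      have hk := kill K⟮x i⟯ x m hm b hx (Finset.univ.erase i) z (by
        have h1 : XX K x ≤ K⟮x i⟯ ⊔
            IntermediateField.adjoin K (x '' ((Finset.univ.erase i : Finset (Fin r)) :
              Set (Fin r))) := by
          unfold XX
          rw [IntermediateField.adjoin_le_iff]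
          rintro _ ⟨j, rfl⟩
          by_cases hji : j = i
          · rw [hji]
            exact (le_sup_left : K⟮x i⟯ ≤ _) (IntermediateField.mem_adjoin_simple_self K (x i))
          · refine (le_sup_right : IntermediateField.adjoin K _ ≤ _)
              (IntermediateField.subset_adjoin K _ ⟨j, ?_, rfl⟩)
            simp [hji]
        exact h1 hz1) hz2
      have hcl : Subring.closure (x '' ((Finset.univ.erase i : Finset (Fin r)) :
          Set (Fin r))) ≤ A := by
        rw [Subring.closure_le]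
        rintro _ ⟨j, -, rfl⟩
        exact hxA j
      -- reduction to the integers of `K(x_i)`
      have key : ∀ R : Subring Ω, A ≤ R → (∀ a ∈ intOf K⟮x i⟯, ∃ c : 𝓞 K, c ∉ P ∧
          algebraMap (𝓞 K) Ω c * a ∈ R) → ∃ c : 𝓞 K, c ∉ P ∧
            algebraMap (𝓞 K) Ω c * z ∈ HH E R := by
        intro R hAR hR
        obtain ⟨c, hc, hcw⟩ := loc_sup P hPp R _ _ (fun s => hAR (hKA s)) (hcl.trans hAR) hR _ hk
        refine ⟨c * ∏ j ∈ Finset.univ.erase i, (m j : 𝓞 K), fun h =>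
          (hPp.mem_or_mem h).elim hc hM, ?_⟩
        rw [mem_HH]
        have h1 : (E : Ω) * (algebraMap (𝓞 K) Ω (c * ∏ j ∈ Finset.univ.erase i, (m j : 𝓞 K)) *
            z) = algebraMap (𝓞 K) Ω (b i * e) * (algebraMap (𝓞 K) Ω c *
              (algebraMap (𝓞 K) Ω (∏ j ∈ Finset.univ.erase i, (m j : 𝓞 K) * b j) * z)) := by
          rw [heΩ, ← Finset.mul_prod_erase _ _ (Finset.mem_univ i), Finset.prod_mul_distrib]
          simp only [map_mul]
          ring
        rw [h1]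
        exact R.mul_mem (hAR (hKA _)) hcw
      by_cases hiT : (i, p) ∈ T
      · have hmi : m i = p * (m i / p) := (Nat.mul_div_cancel' hpm).symm
        have hq : ¬ p ∣ m i / p := by
          intro h
          apply (hT _ hiT).2.2
          change p ^ 2 ∣ m i
          rw [hmi, pow_two]
          exact Nat.mul_dvd_mul_left p h
        have hqP : ((m i / p : ℕ) : 𝓞 K) ∉ P :=
          not_mem_of_coprime P hPp p _ ((Nat.Prime.coprime_iff_not_dvd hp).2 hq) hpP
        obtain ⟨c, hc, hcz⟩ : ∃ c : 𝓞 K, c ∉ P ∧ algebraMap (𝓞 K) Ω c * z ∈ HH E (C (i, p)) := by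
          -- here the factor `b i` is part of the denominator
          have hstep : ∀ a ∈ intOf K⟮x i⟯, algebraMap (𝓞 K) Ω (((m i / p : ℕ) : 𝓞 K) * b i) * a ∈
              C (i, p) := by
            intro a ha
            obtain ⟨ha1, ha2⟩ := (mem_intOf _ _).1 ha
            have hyi : y (i, p) ^ p = algebraMap (𝓞 K) Ω (b i) := hyp _ hiT
            have hyA : y (i, p) ∈ A := pow_mem (hxA i) _
            have hint : IsIntegral ℤ (y (i, p)) :=
              Pool.Agent.H11.FR.isIntegral_root hp.one_lt.le hyi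
            have h4 := step' (K := K) (C (i, p)) K⟮y (i, p)⟯
              (fun w hw hwi => (le_sup_left : intOf K⟮y (i, p)⟯ ≤ C (i, p))
                ((mem_intOf _ _).2 ⟨hw, hwi⟩)) (x i) (hAC _ (hxA i)) (m i / p)
              (Nat.div_pos (Nat.le_of_dvd (hm i) hpm) hp.pos) (y (i, p))
              (IntermediateField.mem_adjoin_simple_self K _) hint rfl a
              ((le_sup_right : K⟮x i⟯ ≤ K⟮y (i, p)⟯ ⊔ K⟮x i⟯) ha1) ha2
            have h6 := (C (i, p)).mul_mem (pow_mem (hAC _ hyA) (p - 1)) h4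
            have h7 : algebraMap (𝓞 K) Ω (((m i / p : ℕ) : 𝓞 K) * b i) * a =
                y (i, p) ^ (p - 1) * (((m i / p : ℕ) : Ω) * y (i, p) * a) := by
              rw [map_mul, map_natCast, ← hyi]
              have h8 : y (i, p) ^ p = y (i, p) ^ (p - 1) * y (i, p) := by
                rw [← pow_succ, Nat.sub_add_cancel hp.one_lt.le]
              rw [h8]
              ring
            rw [h7]
            exact h6
          have h5 : ∀ w ∈ intOf K⟮x i⟯ ⊔ Subring.closure (x ''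
              ((Finset.univ.erase i : Finset (Fin r)) : Set (Fin r))),
              algebraMap (𝓞 K) Ω (((m i / p : ℕ) : 𝓞 K) * b i) * w ∈ C (i, p) := by
            intro w hw
            have h6 := mem_sup_closure _ _ w hw
            refine AddSubgroup.closure_induction (p := fun w _ =>
              algebraMap (𝓞 K) Ω (((m i / p : ℕ) : 𝓞 K) * b i) * w ∈ C (i, p)) ?_ ?_ ?_ ?_ h6
            · rintro _ ⟨a, ha, c, hc, rfl⟩
              rw [← mul_assoc]
              exact (C (i, p)).mul_mem (hstep a ha) (hAC _ (hcl hc))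
            · rw [mul_zero]
              exact (C (i, p)).zero_mem
            · intro u v _ _ hu hv
              rw [mul_add]
              exact (C (i, p)).add_mem hu hv
            · intro u _ hu
              rw [mul_neg]
              exact (C (i, p)).neg_mem hu
          refine ⟨((m i / p : ℕ) : 𝓞 K) * ∏ j ∈ Finset.univ.erase i, (m j : 𝓞 K), fun h =>
            (hPp.mem_or_mem h).elim hqP hM, ?_⟩
          rw [mem_HH]
          have h7 : (E : Ω) * (algebraMap (𝓞 K) Ω (((m i / p : ℕ) : 𝓞 K) *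
              ∏ j ∈ Finset.univ.erase i, (m j : 𝓞 K)) * z) = algebraMap (𝓞 K) Ω e *
                (algebraMap (𝓞 K) Ω (((m i / p : ℕ) : 𝓞 K) * b i) *
                (algebraMap (𝓞 K) Ω (∏ j ∈ Finset.univ.erase i, (m j : 𝓞 K) * b j) * z)) := by
            rw [heΩ, ← Finset.mul_prod_erase _ _ (Finset.mem_univ i), Finset.prod_mul_distrib]
            simp only [map_mul]
            ring
          rw [h7]
          exact (C (i, p)).mul_mem (hAC _ (hKA e)) (h5 _ hk)
        exact ⟨c, hc, hDS _ hiT hcz⟩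
      · obtain ⟨c, hc, hcz⟩ := key A le_rfl (by
          intro a ha
          obtain ⟨ha1, ha2⟩ := (mem_intOf _ _).1 ha
          have hg := hgood P hP i p hp hpm hpP hiT
          obtain ⟨c, hc, hca⟩ := exists_mul_mem P hP (b i) (m i) (hm i) ⟨hg.1,
            fun hbP p' hp' hp'm hp'P c' => by
              have hpp : p' = p := by
                by_contra hne
                exact not_mem_of_coprime P hPp p p' ((Nat.coprime_primes hp hp').2 (Ne.symm hne))
                  hpP hp'P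
              rw [hpp]
              exact hg.2 hbP c'⟩ (x i) (hx i) a ha1 ha2
          refine ⟨c, hc, ?_⟩
          have h1 : Algebra.adjoin (𝓞 K) {x i} ≤ Algebra.adjoin (𝓞 K) (Set.range x) :=
            Algebra.adjoin_mono (by rw [Set.singleton_subset_iff]; exact ⟨i, rfl⟩)
          rw [hA]
          exact h1 hca)
        exact ⟨c, hc, hAS (hHA hcz)⟩
    · push Not at hex
      have hM : (∏ j, (m j : 𝓞 K)) ∉ P := by
        intro h
        obtain ⟨j, -, hj2⟩ := (Ideal.IsPrime.prod_mem_iff (hp := hPp)).1 h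
        obtain ⟨p, hp1, hp2, hp3⟩ := prime_of_mem P hPp (m j) (hm j) hj2
        exact hex j p hp1 hp2 hp3
      refine ⟨_, hM, hAS (hHA ?_)⟩
      have h1 := kill_X hm hx z hz
      rw [mem_HH]
      have h2 : (E : Ω) * (algebraMap (𝓞 K) Ω (∏ j, (m j : 𝓞 K)) * z) = algebraMap (𝓞 K) Ω e *
          (algebraMap (𝓞 K) Ω (∏ i, (m i : 𝓞 K) * b i) * z) := by
        rw [heΩ, Finset.prod_mul_distrib]
        simp only [map_mul]
        ring
      rw [h2]
      refine A.mul_mem (hKA e) ?_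
      rw [hA]
      exact h1
  have h1 : idxD K (E * E) x ≤ (HH (E * E) A).relIndex S := by
    have h2 : ordD K (E * E) x = HH (E * E) A := by
      rw [hA]
      rfl
    unfold idxD
    rw [h2]
    exact AddSubgroup.relIndex_le_of_le_right hOS hS0
  refine h1.trans (hSle.trans (Finset.prod_le_prod' fun t ht => ?_))
  rw [hD t ht]
  exact (hC t ht).2

end

end Pool.Agent.H11.BK
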