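import Pool.Agent.H11.BK.Bas
import Pool.Agent.H11.FR.Gen

/-!
# Module Kill (MP_187c26_nt, THEOREM VK): denominators of integers

`E` a field between `K` and `Ω`, `x_i ^ m_i = b_i ∈ 𝓞 K`. `kill`: `(∏ m_i b_i) z` lies in the ring generated by the integers of `E` and the
`x_i` for all integers `z` of `E(x_i : i ∈ T)` (derivative of `X ^ m_i - b_i`, one variable after the other).
-/

set_option autoImplicit false

open IntermediateField NumberField

namespace Pool.Agent.H11.BK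

open Pool.Agent.H4.OG (intOf mem_intOf)

section

variable {K : Type} [Field K] [NumberField K] {Ω : Type} [Field Ω] [CharZero Ω]
  [Algebra K Ω] [Algebra.IsAlgebraic K Ω] {ι : Type} [DecidableEq ι]

theorem kill (E : IntermediateField K Ω) (x : ι → Ω) (m : ι → ℕ) (hm : ∀ i, 1 ≤ m i)
    (b : ι → 𝓞 K) (hx : ∀ i, x i ^ m i = algebraMap (𝓞 K) Ω (b i)) (T : Finset ι) :
    ∀ z ∈ E ⊔ IntermediateField.adjoin K (x '' (T : Set ι)), IsIntegral ℤ z →
      algebraMap (𝓞 K) Ω (∏ i ∈ T, (m i : 𝓞 K) * b i) * z ∈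
        intOf E ⊔ Subring.closure (x '' (T : Set ι)) := by
  induction T using Finset.induction_on with
  | empty =>
    intro z hz hzi
    rw [Finset.coe_empty, Set.image_empty, IntermediateField.adjoin_empty, sup_bot_eq] at hz
    rw [Finset.prod_empty, map_one, one_mul]
    exact (le_sup_left : intOf E ≤ _) ((mem_intOf _ _).2 ⟨hz, hzi⟩)
  | insert j T hj ih =>
    intro z hz hzi
    obtain ⟨F, hF⟩ : ∃ F, F = E ⊔ IntermediateField.adjoin K (x '' (T : Set ι)) := ⟨_, rfl⟩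
    rw [← hF] at ih
    obtain ⟨R, hR⟩ : ∃ R, R = intOf E ⊔ Subring.closure (x '' ((insert j T : Finset ι) : Set ι)) :=
      ⟨_, rfl⟩
    have hTR : intOf E ⊔ Subring.closure (x '' (T : Set ι)) ≤ R := by
      rw [hR]
      refine sup_le_sup_left (Subring.closure_mono (Set.image_mono ?_)) _
      rw [Finset.coe_subset]
      exact Finset.subset_insert _ _
    have hxR : x j ∈ R := by
      rw [hR]
      exact (le_sup_right : Subring.closure _ ≤ _)
        (Subring.subset_closure ⟨j, by simp, rfl⟩)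
    have hz' : z ∈ F ⊔ K⟮x j⟯ := by
      rw [hF, sup_assoc, ← IntermediateField.adjoin_union]
      have h1 : x '' (T : Set ι) ∪ {x j} = x '' ((insert j T : Finset ι) : Set ι) := by
        rw [Finset.coe_insert, Set.image_insert_eq, Set.union_singleton]
      rw [h1]
      exact hz
    have h1 := Pool.Agent.H11.FR.step (K := K) (intOf F ⊔ Subring.closure {x j}) F
      (fun w hw hwi => (le_sup_left : intOf F ≤ _) ((mem_intOf _ _).2 ⟨hw, hwi⟩)) (x j)
      ((le_sup_right : Subring.closure {x j} ≤ _) (Subring.subset_closure rfl)) (m j) (hm j)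
      (b j) (hx j) z hz' hzi
    have h2 := Pool.Agent.H11.FR.mem_adjoin_closure (intOf F) (x j) _ h1
    rw [Finset.prod_insert hj, mul_comm ((m j : 𝓞 K) * b j), map_mul, mul_assoc, ← hR]
    refine AddSubgroup.closure_induction (p := fun w _ =>
      algebraMap (𝓞 K) Ω (∏ i ∈ T, (m i : 𝓞 K) * b i) * w ∈ R) ?_ ?_ ?_ ?_ h2
    · rintro _ ⟨a, ha, k, rfl⟩
      rw [← mul_assoc]
      have ha' := (mem_intOf _ _).1 ha
      exact R.mul_mem (hTR (ih a ha'.1 ha'.2)) (pow_mem hxR k)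
    · rw [mul_zero]
      exact R.zero_mem
    · intro u v _ _ hu hv
      rw [mul_add]
      exact R.add_mem hu hv
    · intro u _ hu
      rw [mul_neg]
      exact R.neg_mem hu

end

section

variable {K : Type} [Field K] [NumberField K] {r : ℕ} {Ω : Type} [Field Ω] [CharZero Ω]
  [Algebra K Ω] {b : Fin r → 𝓞 K} {n : ℕ} {m : Fin r → ℕ} {ξ : Ω} {x : Fin r → Ω}

omit [CharZero Ω] in
/-- Subrings which contain `𝓞 K` and the `x i`. -/
theorem adj_le (R : Subring Ω) (hK : ∀ s : 𝓞 K, algebraMap (𝓞 K) Ω s ∈ R) (hx : ∀ i, x i ∈ R)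
    {z : Ω} (hz : z ∈ Algebra.adjoin (𝓞 K) (Set.range x)) : z ∈ R := by
  induction hz using Algebra.adjoin_induction with
  | mem w hw =>
    obtain ⟨i, rfl⟩ := hw
    exact hx i
  | algebraMap s => exact hK s
  | add u v _ _ h2 h3 => exact R.add_mem h2 h3
  | mul u v _ _ h2 h3 => exact R.mul_mem h2 h3

omit [CharZero Ω] in
theorem int_base {z : Ω} (hz : z ∈ (⊥ : IntermediateField K Ω)) (hzi : IsIntegral ℤ z) :
    ∃ s : 𝓞 K, algebraMap (𝓞 K) Ω s = z := by
  rw [IntermediateField.mem_bot] at hz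
  obtain ⟨y, rfl⟩ := hz
  have hy : IsIntegral ℤ y := (isIntegral_algHom_iff (IsScalarTower.toAlgHom ℤ K Ω)
    (algebraMap K Ω).injective).1 hzi
  exact ⟨⟨y, hy⟩, rfl⟩

theorem kill_X [Algebra.IsAlgebraic K Ω] (hm : ∀ i, 1 ≤ m i)
    (hx : ∀ i, x i ^ m i = algebraMap (𝓞 K) Ω (b i)) (z : Ω) (hz : z ∈ intOf (XX K x)) :
    algebraMap (𝓞 K) Ω (∏ i, (m i : 𝓞 K) * b i) * z ∈ Algebra.adjoin (𝓞 K) (Set.range x) := by
  have hz' := (mem_intOf _ _).1 hz
  have h1 := kill (⊥ : IntermediateField K Ω) x m hm b hx Finset.univ z (by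
    rw [Finset.coe_univ, Set.image_univ, bot_sup_eq]
    exact hz'.1) hz'.2
  have h2 : intOf (⊥ : IntermediateField K Ω) ⊔ Subring.closure (x '' ((Finset.univ : Finset (Fin r)) : Set (Fin r))) ≤
      (Algebra.adjoin (𝓞 K) (Set.range x)).toSubring := by
    refine sup_le ?_ ?_
    · intro w hw
      have hw' := (mem_intOf _ _).1 hw
      obtain ⟨s, rfl⟩ := int_base hw'.1 hw'.2
      exact (Algebra.adjoin (𝓞 K) (Set.range x)).algebraMap_mem s
    · rw [Subring.closure_le, Finset.coe_univ, Set.image_univ]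
      exact Algebra.subset_adjoin
  exact h2 h1

/-- The ring generated by the integers of `K(ξ)` and the `x i`. -/
noncomputable def RF (K : Type) [Field K] [NumberField K] {Ω : Type} [Field Ω] [CharZero Ω]
    [Algebra K Ω] (ξ : Ω) (x : Fin r → Ω) : Subring Ω :=
  intOf (AA K ξ) ⊔ Subring.closure (Set.range x)

theorem kill_F [Algebra.IsAlgebraic K Ω] (hm : ∀ i, 1 ≤ m i)
    (hx : ∀ i, x i ^ m i = algebraMap (𝓞 K) Ω (b i)) (z : Ω) (hz : z ∈ intOf (FF K ξ x)) :
    algebraMap (𝓞 K) Ω (∏ i, (m i : 𝓞 K) * b i) * z ∈ RF K ξ x := by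
  have hz' := (mem_intOf _ _).1 hz
  have h1 := kill (AA K ξ) x m hm b hx Finset.univ z (by
    rw [Finset.coe_univ, Set.image_univ]
    unfold AA
    rw [← IntermediateField.adjoin_union]
    exact hz'.1) hz'.2
  rw [Finset.coe_univ, Set.image_univ] at h1
  exact h1

/-- A positive integer which is divisible by `∏ b i`. -/
theorem exists_Eb (b : Fin r → 𝓞 K) (hb : ∀ i, b i ≠ 0) :
    ∃ E : ℕ, 1 ≤ E ∧ (∏ i, b i) ∣ (E : 𝓞 K) := by
  obtain ⟨n, hn, c, hc⟩ := Pool.Agent.H11.FR.exists_int_mul (∏ i, b i)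
    (Finset.prod_ne_zero_iff.2 fun i _ => hb i)
  refine ⟨n.natAbs, Int.natAbs_pos.2 hn, ?_⟩
  rcases Int.natAbs_eq n with h | h
  · refine ⟨c, ?_⟩
    rw [← hc, h]
    simp
  · refine ⟨-c, ?_⟩
    rw [mul_neg, ← hc, h]
    simp

end

end Pool.Agent.H11.BK
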