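import Pool.Agent.H11.FR.Wg
import Pool.Agent.H11.BK.Kill

/-!
# Module InP (MP_187c26_nt, THEOREM VK): the index for a prime exponent, bounded denominators

`θ ^ p = b ∈ 𝓞 K`, `[K(θ) : K] = p`, `p` unramified in `K`, `b` prime to `p`, `b ∣ E`. The index of all `z` with `E z ∈ 𝓞 K [θ]` in the ring of
integers of `K(θ)` is at most `p ^ [K : ℚ]`. No condition on the primes which divide `b`. Model: FR/Wg `ordIdx_prime`.
-/

set_option autoImplicit false

open IntermediateField NumberField Polynomial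

namespace Pool.Agent.H11.BK

open Pool.Agent.H4.OG (intOf mem_intOf)
open Pool.Agent.H4.OH (relIndex_le_of_surj)
open Pool.Agent.H11.FR (ordOf algebraMap_mem_ordOf self_mem_ordOf ordOf_kill mem_of_local
  exists_root_mod clearDen dvd_of_mem not_sq_dvd unit_of_notMem wild_local)

section

variable (K : Type) {Ω : Type} [Field K] [NumberField K] [Field Ω] [CharZero Ω] [Algebra K Ω]

/-- The `z` with `E z ∈ 𝓞 K [θ]`. -/
noncomputable def ord1 (E : ℕ) (θ : Ω) : AddSubgroup Ω where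
  carrier := {z | (E : Ω) * z ∈ ordOf K θ}
  zero_mem' := by
    have h : (E : Ω) * 0 ∈ ordOf K θ := by
      rw [mul_zero]
      exact zero_mem _
    exact h
  add_mem' := fun {y z} hy hz => by
    have h : (E : Ω) * (y + z) ∈ ordOf K θ := by
      rw [mul_add]
      exact add_mem hy hz
    exact h
  neg_mem' := fun {y} hy => by
    have h : (E : Ω) * (-y) ∈ ordOf K θ := by
      rw [mul_neg]
      exact neg_mem hy
    exact h

end

section

variable {K Ω : Type} [Field K] [NumberField K] [Field Ω] [CharZero Ω] [Algebra K Ω]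

theorem mem_ord1 (E : ℕ) (θ z : Ω) : z ∈ ord1 K E θ ↔ (E : Ω) * z ∈ ordOf K θ := Iff.rfl

theorem ordOf_le_ord1 (E : ℕ) (θ : Ω) : (ordOf K θ).toAddSubgroup ≤ ord1 K E θ := by
  intro z hz
  exact (ordOf K θ).mul_mem (natCast_mem _ E) hz

theorem ord1_smul (E : ℕ) (θ : Ω) (r : 𝓞 K) (z : Ω) (hz : z ∈ ord1 K E θ) :
    algebraMap (𝓞 K) Ω r * z ∈ ord1 K E θ := by
  rw [mem_ord1] at hz ⊢
  have h1 : (E : Ω) * (algebraMap (𝓞 K) Ω r * z) = algebraMap (𝓞 K) Ω r * ((E : Ω) * z) := by ring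
  rw [h1]
  exact (ordOf K θ).mul_mem (algebraMap_mem_ordOf θ r) hz

variable [Algebra.IsAlgebraic K Ω]

/-- `m z` has denominator `E` for the integers `z` of `K(θ)`, `θ ^ m = b`, `b ∣ E`. -/
theorem ord1_kill (b : 𝓞 K) (E : ℕ) (hE : b ∣ (E : 𝓞 K)) (m : ℕ) (hm : 1 ≤ m) (θ : Ω)
    (hθ : θ ^ m = algebraMap (𝓞 K) Ω b) (z : Ω) (hz : z ∈ intOf K⟮θ⟯) :
    algebraMap (𝓞 K) Ω (m : 𝓞 K) * z ∈ ord1 K E θ := by
  have h1 := ordOf_kill hm hθ z hz
  obtain ⟨c, hc⟩ := hE
  rw [mem_ord1]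
  have h2 : (E : Ω) * (algebraMap (𝓞 K) Ω (m : 𝓞 K) * z) =
      algebraMap (𝓞 K) Ω c * (algebraMap (𝓞 K) Ω ((m : 𝓞 K) * b) * z) := by
    have h3 : (E : Ω) = algebraMap (𝓞 K) Ω b * algebraMap (𝓞 K) Ω c := by
      rw [← map_mul, ← hc, map_natCast]
    rw [h3, map_mul]
    ring
  rw [h2]
  exact (ordOf K θ).mul_mem (algebraMap_mem_ordOf θ c) h1

/-- The index for a prime exponent, unramified in `K`. -/
theorem idx1_prime (b : 𝓞 K) (E : ℕ) (hE : b ∣ (E : 𝓞 K)) (p : ℕ) (hp : p.Prime)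
    (hunr : ∀ P : Ideal (𝓞 K), P.IsMaximal → (p : 𝓞 K) ∉ P ^ 2)
    (hbp : ∀ P : Ideal (𝓞 K), P.IsMaximal → (p : 𝓞 K) ∈ P → b ∉ P) (θ : Ω)
    (hθ : θ ^ p = algebraMap (𝓞 K) Ω b) (hdeg : Module.finrank K K⟮θ⟯ = p) :
    (ord1 K E θ).relIndex (intOf K⟮θ⟯).toAddSubgroup ≠ 0 ∧
      (ord1 K E θ).relIndex (intOf K⟮θ⟯).toAddSubgroup ≤ p ^ Module.finrank ℚ K := by
  classical
  have hp1 : 1 ≤ p := hp.one_lt.le
  have hpΩ : (p : Ω) ≠ 0 := by exact_mod_cast hp.ne_zero
  obtain ⟨c, hc⟩ := exists_root_mod p hp b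
  set ρ : Ω := (θ - algebraMap (𝓞 K) Ω c) ^ (p - 1) / (p : Ω) with hρ
  let φ : 𝓞 K →+ Ω :=
    { toFun := fun r => algebraMap (𝓞 K) Ω r * ρ
      map_zero' := by rw [map_zero, zero_mul]
      map_add' := fun u v => by rw [map_add, add_mul] }
  set S : AddSubgroup Ω := ord1 K E θ ⊔ φ.range with hS
  have hAS : ord1 K E θ ≤ S := le_sup_left
  have hφS : φ.range ≤ S := le_sup_right
  have hmod : ∀ (r : 𝓞 K), ∀ s ∈ S, algebraMap (𝓞 K) Ω r * s ∈ S := by
    intro r
    have h1 : S ≤ S.comap (AddMonoidHom.mulLeft (algebraMap (𝓞 K) Ω r)) := by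
      refine sup_le ?_ ?_
      · intro s hs
        exact hAS (ord1_smul E θ r s hs)
      · rintro _ ⟨s, rfl⟩
        refine hφS ⟨r * s, ?_⟩
        change algebraMap (𝓞 K) Ω (r * s) * ρ = algebraMap (𝓞 K) Ω r * (algebraMap (𝓞 K) Ω s * ρ)
        rw [map_mul, mul_assoc]
    exact fun s hs => h1 hs
  have hOS : (intOf K⟮θ⟯).toAddSubgroup ≤ S := by
    intro z hz
    obtain ⟨hz1, hz2⟩ := (mem_intOf _ _).1 hz
    refine mem_of_local (K := K) S hmod z (fun P hP => ?_)
    by_cases hpP : (p : 𝓞 K) ∈ P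
    · have hbP : b ∉ P := hbp P hP hpP
      haveI := hP
      have hP0 : P ≠ ⊥ := Ring.ne_bot_of_isMaximal_of_not_isField inferInstance
        (RingOfIntegers.not_isField K)
      let A := Localization.subalgebra.ofField K P.primeCompl P.primeCompl_le_nonZeroDivisors
      haveI : IsLocalization.AtPrime A P :=
        Localization.subalgebra.isLocalization_ofField K P.primeCompl
          P.primeCompl_le_nonZeroDivisors
      haveI : IsDiscreteValuationRing A :=
        IsLocalization.AtPrime.isDiscreteValuationRing_of_dedekind_domain (𝓞 K) hP0 A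
      haveI : IsScalarTower (𝓞 K) A Ω := by
        refine IsScalarTower.of_algebraMap_eq fun r => ?_
        rw [IsScalarTower.algebraMap_apply (𝓞 K) K Ω]
        rfl
      obtain ⟨π, hπ⟩ := IsDiscreteValuationRing.exists_irreducible A
      have hpd : π ∣ (p : A) := by
        have h1 := dvd_of_mem (A := A) P hπ hpP
        rwa [map_natCast] at h1
      have hpd2 : ¬ π ^ 2 ∣ (p : A) := by
        have h1 := not_sq_dvd (A := A) P hπ (hunr P hP)
        rwa [map_natCast] at h1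
      obtain ⟨u, hu⟩ := hpd
      have huu : IsUnit u := by
        by_contra hnu
        have h1 : π ∣ u := by
          have h2 : u ∈ IsLocalRing.maximalIdeal A := (IsLocalRing.mem_maximalIdeal u).2 hnu
          rw [(IsDiscreteValuationRing.irreducible_iff_uniformizer π).1 hπ,
            Ideal.mem_span_singleton] at h2
          exact h2
        apply hpd2
        rw [hu, pow_two]
        exact mul_dvd_mul_left π h1
      have hass : Associated π (p : A) := ⟨huu.unit, by rw [hu]; rfl⟩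
      have hpirr : Irreducible (p : A) := hass.irreducible hπ
      have hbA : IsUnit (algebraMap (𝓞 K) A b) := unit_of_notMem P hbP
      have hcA : (p : A) ∣ algebraMap (𝓞 K) A c ^ p - algebraMap (𝓞 K) A b := by
        rw [← map_pow, ← map_sub]
        exact hass.symm.dvd.trans (dvd_of_mem P hπ (hc P hP hpP))
      have hθA : θ ^ p = algebraMap A Ω (algebraMap (𝓞 K) A b) := by
        rw [hθ, ← IsScalarTower.algebraMap_apply]
      obtain ⟨w, hw, a, hzwa⟩ := wild_local (A := A) (K := K) p hp hpirr _ _ hbA hcA θ hθA hdeg z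
        hz1 hz2.tower_top
      rw [← IsScalarTower.algebraMap_apply, ← hρ] at hzwa
      obtain ⟨r₁, hr₁, hw1⟩ := clearDen (A := A) P θ w hw
      obtain ⟨⟨n, s⟩, h1⟩ := IsLocalization.surj P.primeCompl a
      have h2 : algebraMap (𝓞 K) Ω s * algebraMap A Ω a = algebraMap (𝓞 K) Ω n := by
        rw [IsScalarTower.algebraMap_apply (𝓞 K) A Ω, ← map_mul, mul_comm, h1,
          ← IsScalarTower.algebraMap_apply]
      refine ⟨r₁ * s, ?_, ?_⟩
      · intro h
        rcases hP.isPrime.mem_or_mem h with h3 | h3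
        · exact hr₁ h3
        · exact s.2 h3
      · have h3 : algebraMap (𝓞 K) Ω (r₁ * s) * z =
            algebraMap (𝓞 K) Ω s * (algebraMap (𝓞 K) Ω r₁ * w) +
              algebraMap (𝓞 K) Ω (r₁ * n) * ρ := by
          rw [hzwa, map_mul, map_mul, ← h2]
          ring
        rw [h3]
        exact S.add_mem (hAS (ordOf_le_ord1 E θ ((ordOf K θ).mul_mem
          (algebraMap_mem_ordOf θ _) hw1))) (hφS ⟨r₁ * n, rfl⟩)
    · exact ⟨(p : 𝓞 K), hpP, hAS (ord1_kill b E hE p hp1 θ hθ z hz)⟩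
  -- the index of `S`
  set I : AddSubgroup (𝓞 K) := Submodule.toAddSubgroup (Ideal.span {(p : 𝓞 K)}) with hI
  have hIidx : I.index = p ^ Module.finrank ℚ K := by
    have h1 : I.index = Ideal.absNorm (Ideal.span {(p : 𝓞 K)}) := rfl
    rw [h1, Ideal.absNorm_span_singleton]
    have h2 : (p : 𝓞 K) = algebraMap ℤ (𝓞 K) (p : ℤ) := by simp
    rw [h2, Algebra.norm_algebraMap, RingOfIntegers.rank K, Int.natAbs_pow, Int.natAbs_natCast]
  have hmain := relIndex_le_of_surj φ I (ord1 K E θ) S (by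
    intro y hy
    obtain ⟨y', hy'⟩ := Ideal.mem_span_singleton'.1 hy
    have h1 : φ y = algebraMap (𝓞 K) Ω y' * (θ - algebraMap (𝓞 K) Ω c) ^ (p - 1) := by
      change algebraMap (𝓞 K) Ω y * ρ = _
      rw [← hy', map_mul, map_natCast, hρ]
      field_simp
    rw [h1]
    exact ordOf_le_ord1 E θ ((ordOf K θ).mul_mem (algebraMap_mem_ordOf θ _) ((ordOf K θ).pow_mem
      ((ordOf K θ).sub_mem (self_mem_ordOf θ) (algebraMap_mem_ordOf θ _)) _))) (by
    intro z hz
    obtain ⟨w, hw, t, ⟨y, rfl⟩, rfl⟩ := AddSubgroup.mem_sup.1 hz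
    exact ⟨y, w, hw, add_comm _ _⟩) (by
    rw [hIidx]
    exact pow_ne_zero _ hp.ne_zero)
  rw [hIidx] at hmain
  refine ⟨?_, (AddSubgroup.relIndex_le_of_le_right hOS hmain.1).trans hmain.2⟩
  exact fun h0 => hmain.1 (AddSubgroup.relIndex_eq_zero_of_le_right hOS h0)

end

end Pool.Agent.H11.BK
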