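import Pool.Agent.H11.BK.Def
import Pool.Agent.H72.BK.Co

/-!
# Module Lin (MP_187c26_nt, THEOREM VK): monomials as bases

`adj_span`: `R[x_1, …, x_r]`, `x_i ^ m_i ∈ R`, is spanned over `R` by the monomials `x ^ l`, `l_i < m_i`. `deg_iff`: for a field `k` the
degree of `k(x_1, …, x_r)` over `k` is `∏ m_i` if and only if these monomials are linearly independent.
-/

set_option autoImplicit false

open IntermediateField NumberField

namespace Pool.Agent.H11.BK

open Pool.Agent.H72.BE (Gm mon vl md mon_add mon_zero)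

variable {r : ℕ}

section

variable {R Ω : Type} [CommRing R] [CommRing Ω] [Algebra R Ω] {m : Fin r → ℕ} {x : Fin r → Ω}
  {β : Fin r → R}

theorem mon_red (hx : ∀ i, x i ^ m i = algebraMap R Ω (β i)) (a : Fin r → ℕ) :
    mon x a = algebraMap R Ω (∏ i, β i ^ (a i / m i)) * mon x (vl (md m a)) := by
  unfold mon
  rw [map_prod, ← Finset.prod_mul_distrib]
  refine Finset.prod_congr rfl fun i _ => ?_
  have h1 : vl (md m a) i = a i % m i := ZMod.val_natCast _ _
  rw [h1, map_pow, ← hx i, ← pow_mul, ← pow_add, Nat.div_add_mod]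

theorem mon_mem_span (hx : ∀ i, x i ^ m i = algebraMap R Ω (β i)) (a : Fin r → ℕ) :
    mon x a ∈ Submodule.span R (Set.range fun l : Gm m => mon x (vl l)) := by
  rw [mon_red hx a, ← Algebra.smul_def]
  exact Submodule.smul_mem _ _ (Submodule.subset_span ⟨_, rfl⟩)

theorem mon_single (x : Fin r → Ω) (i : Fin r) : mon x (Pi.single i 1) = x i := by
  unfold mon
  rw [Finset.prod_eq_single i]
  · rw [Pi.single_eq_same, pow_one]
  · intro j _ hj
    rw [Pi.single_eq_of_ne hj, pow_zero]
  · intro hi
    exact absurd (Finset.mem_univ i) hi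

theorem span_mul (hx : ∀ i, x i ^ m i = algebraMap R Ω (β i)) {y z : Ω}
    (hy : y ∈ Submodule.span R (Set.range fun l : Gm m => mon x (vl l)))
    (hz : z ∈ Submodule.span R (Set.range fun l : Gm m => mon x (vl l))) :
    y * z ∈ Submodule.span R (Set.range fun l : Gm m => mon x (vl l)) := by
  induction hy using Submodule.span_induction with
  | mem y hy =>
    obtain ⟨l, rfl⟩ := hy
    induction hz using Submodule.span_induction with
    | mem z hz =>
      obtain ⟨l', rfl⟩ := hz
      show mon x (vl l) * mon x (vl l') ∈ _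
      rw [← mon_add]
      exact mon_mem_span hx _
    | zero => rw [mul_zero]; exact Submodule.zero_mem _
    | add z z' _ _ h1 h2 => rw [mul_add]; exact Submodule.add_mem _ h1 h2
    | smul c z _ h1 => rw [mul_smul_comm]; exact Submodule.smul_mem _ _ h1
  | zero => rw [zero_mul]; exact Submodule.zero_mem _
  | add y y' _ _ h1 h2 => rw [add_mul]; exact Submodule.add_mem _ h1 h2
  | smul c y _ h1 => rw [smul_mul_assoc]; exact Submodule.smul_mem _ _ h1

theorem adj_span (hx : ∀ i, x i ^ m i = algebraMap R Ω (β i)) (z : Ω)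
    (hz : z ∈ Algebra.adjoin R (Set.range x)) :
    z ∈ Submodule.span R (Set.range fun l : Gm m => mon x (vl l)) := by
  have hone : (1 : Ω) ∈ Submodule.span R (Set.range fun l : Gm m => mon x (vl l)) := by
    rw [← mon_zero x]
    exact mon_mem_span hx 0
  induction hz using Algebra.adjoin_induction with
  | mem z hz =>
    obtain ⟨i, rfl⟩ := hz
    rw [← mon_single x i]
    exact mon_mem_span hx _
  | algebraMap c =>
    rw [← mul_one (algebraMap R Ω c), ← Algebra.smul_def]
    exact Submodule.smul_mem _ _ hone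
  | add y z _ _ h1 h2 => exact Submodule.add_mem _ h1 h2
  | mul y z _ _ h1 h2 => exact span_mul hx h1 h2

end

section

variable {k Ω : Type} [Field k] [Field Ω] [Algebra k Ω] {m : Fin r → ℕ} {x : Fin r → Ω}
  {β : Fin r → k}

theorem isAlg_of_pow (hm : ∀ i, 1 ≤ m i) (hx : ∀ i, x i ^ m i = algebraMap k Ω (β i))
    (i : Fin r) : IsIntegral k (x i) := by
  refine IsIntegral.of_pow (n := m i) (hm i) ?_
  rw [hx i]
  exact isIntegral_algebraMap

theorem fld_span (hm : ∀ i, 1 ≤ m i) (hx : ∀ i, x i ^ m i = algebraMap k Ω (β i)) (z : Ω)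
    (hz : z ∈ IntermediateField.adjoin k (Set.range x)) :
    z ∈ Submodule.span k (Set.range fun l : Gm m => mon x (vl l)) := by
  refine adj_span hx z ?_
  rw [← IntermediateField.mem_toSubalgebra, IntermediateField.adjoin_toSubalgebra_of_isAlgebraic
    (by
      rintro _ ⟨i, rfl⟩
      exact (isAlg_of_pow hm hx i).isAlgebraic)] at hz
  exact hz

/-- The monomials as elements of `k(x)`. -/
noncomputable def gx (k : Type) {Ω : Type} [Field k] [Field Ω] [Algebra k Ω] (x : Fin r → Ω)
    (i : Fin r) : IntermediateField.adjoin k (Set.range x) :=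
  ⟨x i, IntermediateField.subset_adjoin k _ ⟨i, rfl⟩⟩

theorem coe_mon_gx (x : Fin r → Ω) (a : Fin r → ℕ) :
    ((mon (gx k x) a : IntermediateField.adjoin k (Set.range x)) : Ω) = mon x a := by
  have h : ((mon (gx k x) a : IntermediateField.adjoin k (Set.range x)) : Ω) =
      (IntermediateField.adjoin k (Set.range x)).val (mon (gx k x) a) := rfl
  rw [h]
  unfold mon
  rw [map_prod]
  refine Finset.prod_congr rfl fun i _ => ?_
  rw [map_pow]
  rfl

theorem gx_top (hm : ∀ i, 1 ≤ m i) (hx : ∀ i, x i ^ m i = algebraMap k Ω (β i)) :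
    ⊤ ≤ Submodule.span k (Set.range fun l : Gm m => mon (gx k x) (vl l)) := by
  intro z _
  have h1 := fld_span hm hx (z : Ω) z.2
  have h2 : (Set.range fun l : Gm m => mon x (vl l)) =
      (IntermediateField.adjoin k (Set.range x)).val.toLinearMap ''
        (Set.range fun l : Gm m => mon (gx k x) (vl l)) := by
    rw [← Set.range_comp]
    congr 1
    funext l
    exact (coe_mon_gx x (vl l)).symm
  rw [h2, ← Submodule.map_span] at h1
  obtain ⟨z', hz', hzz⟩ := h1
  have h3 : z' = z := Subtype.ext hzz
  rw [← h3]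
  exact hz'

theorem li_gx_iff (x : Fin r → Ω) {ι : Type} (f : ι → Fin r → ℕ) :
    LinearIndependent k (fun l : ι => mon (gx k x) (f l)) ↔
      LinearIndependent k (fun l : ι => mon x (f l)) := by
  have h := LinearMap.linearIndependent_iff (v := fun l : ι => mon (gx k x) (f l))
    ((IntermediateField.adjoin k (Set.range x)).val.toLinearMap)
    (LinearMap.ker_eq_bot_of_injective (IntermediateField.adjoin k (Set.range x)).val.injective)
  rw [← h]
  have h1 : (((IntermediateField.adjoin k (Set.range x)).val.toLinearMap) ∘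
      fun l : ι => mon (gx k x) (f l)) = fun l : ι => mon x (f l) := by
    funext l
    exact coe_mon_gx x (f l)
  rw [h1]

theorem card_Gm [∀ i, NeZero (m i)] : Fintype.card (Gm m) = ∏ i, m i := by
  rw [Fintype.card_pi]
  exact Finset.prod_congr rfl fun i _ => ZMod.card _

theorem fin_adj (hm : ∀ i, 1 ≤ m i) (hx : ∀ i, x i ^ m i = algebraMap k Ω (β i)) :
    FiniteDimensional k (IntermediateField.adjoin k (Set.range x)) := by
  refine IntermediateField.finiteDimensional_adjoin ?_
  rintro _ ⟨i, rfl⟩
  exact isAlg_of_pow hm hx i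

theorem deg_le (hm : ∀ i, 1 ≤ m i) (hx : ∀ i, x i ^ m i = algebraMap k Ω (β i)) :
    Module.finrank k (IntermediateField.adjoin k (Set.range x)) ≤ ∏ i, m i := by
  have hz : ∀ i, NeZero (m i) := fun i => ⟨by have := hm i; omega⟩
  have h1 := finrank_range_le_card (R := k) (fun l : Gm m => mon (gx k x) (vl l))
  unfold Set.finrank at h1
  rw [eq_top_iff.2 (gx_top hm hx), finrank_top, card_Gm] at h1
  exact h1

theorem deg_iff (hm : ∀ i, 1 ≤ m i) (hx : ∀ i, x i ^ m i = algebraMap k Ω (β i)) :
    Module.finrank k (IntermediateField.adjoin k (Set.range x)) = ∏ i, m i ↔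
      LinearIndependent k (fun l : Gm m => mon x (vl l)) := by
  have hz : ∀ i, NeZero (m i) := fun i => ⟨by have := hm i; omega⟩
  have := fin_adj hm hx
  rw [← li_gx_iff]
  constructor
  · intro h
    exact linearIndependent_of_top_le_span_of_card_eq_finrank (gx_top hm hx)
      (by rw [card_Gm, h])
  · intro h
    let B := Module.Basis.mk h (gx_top hm hx)
    rw [Module.finrank_eq_card_basis B, card_Gm]

end

end Pool.Agent.H11.BK
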