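import Pool.Agent.H11.BK.Zero

/-!
# Module Main (MP_187c26_nt, THEOREM VK): the induction on `(r, d, n)`

`T0 K r b D d`: there is `c > 0` with `α ∈ Γ_b` for all systems with `idxD K D x ≤ exp (c ∏ m_i)` and all `α ≠ 0` with `dgr K ξ x α ≤ d`,
`h(α) < c`. Induction: small `m_i`: drop `x_i` (`idx_drop`: the logarithm of the index is divided by `m_i`); smaller degree of a power of `α`:
induction on `d`; large prime divisor `q ≤ N` of `n`: the descent, induction on `n`; otherwise the core theorem.
-/

set_option autoImplicit false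

open NumberField IntermediateField

namespace Pool.Agent.H11.BK

theorem exists_min {ι : Type} [Finite ι] (f : ι → ℝ) (hf : ∀ i, 0 < f i) :
    ∃ c : ℝ, 0 < c ∧ ∀ i, c ≤ f i := by
  classical
  have := Fintype.ofFinite ι
  rcases isEmpty_or_nonempty ι with h | h
  · exact ⟨1, one_pos, fun i => h.elim i⟩
  · obtain ⟨i₀, hi₀⟩ := Finite.exists_min f
    exact ⟨f i₀, hf i₀, hi₀⟩

variable {K : Type} [Field K] [NumberField K]

theorem Ind.drop {r : ℕ} {b : Fin (r + 1) → 𝓞 K} (h : Ind K b) (i : Fin (r + 1)) :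
    Ind K (fun j => b (i.succAbove j)) := by
  refine ⟨fun j => h.1 _, fun j hj => ?_⟩
  have h1 := h.2 (i.insertNth (α := fun _ => ℤ) 0 j) (by
    rw [Fin.prod_univ_succAbove _ i, Fin.insertNth_apply_same, zpow_zero, one_mul]
    have h2 : ∀ l, (Fin.insertNth (α := fun _ => ℤ) i 0 j) (i.succAbove l) = j l := fun l =>
      Fin.insertNth_apply_succAbove ..
    simp only [h2]
    exact hj)
  funext l
  have h2 := congrFun h1 (i.succAbove l)
  rw [Fin.insertNth_apply_succAbove] at h2
  exact h2

/-- The induction. -/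
theorem t0 (D : ℕ) (hcore : ∀ (r : ℕ) (b : Fin (r + 1) → 𝓞 K) (d Q0 : ℕ), Ind K b → 1 ≤ d →
      CoreStmt K (r + 1) b D d Q0) :
    ∀ (r : ℕ) (b : Fin r → 𝓞 K) (d : ℕ), Ind K b → T0 K r b D d := by
  intro r
  induction r with
  | zero =>
    intro b d _
    obtain ⟨c, hc, h⟩ := zero b d
    exact ⟨c, hc, fun Ω _ _ _ _ n m ξ x α hS h0 hd _ hh => h Ω n m ξ x α hS h0 hd hh⟩
  | succ r ihr =>
    intro b d hb
    induction d with
    | zero =>
      refine ⟨1, one_pos, ?_⟩
      intro Ω _ _ _ _ n m ξ x α hS h0 hd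
      have := dgr_pos (K := K) ξ x α
      omega
    | succ d ihd =>
      obtain ⟨cd, hcd, hd'⟩ := ihd
      obtain ⟨Q0, hQ0⟩ := desc_stmt b hb.1 (d + 1)
      obtain ⟨Q1, N, c0, hN, hQ1, hc0, hcore'⟩ := hcore r b (d + 1) Q0 hb (by omega)
      choose ci hci hdrop using fun i : Fin (r + 1) =>
        ihr (fun j => b (i.succAbove j)) (N * (d + 1)) (hb.drop i)
      have hdesc' : ∀ q : {q : ℕ // q.Prime ∧ Q1 ≤ q ∧ q ≤ N},
          DescStmt K (r + 1) b (d + 1) q.1 :=
        fun q => hQ0 _ q.2.1 (hQ1.trans q.2.2.1)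
      choose cq hcq hdq using hdesc'
      have hfin : Finite {q : ℕ // q.Prime ∧ Q1 ≤ q ∧ q ≤ N} := by
        refine Set.Finite.to_subtype ((Set.finite_Iic N).subset ?_)
        intro q hq
        exact hq.2.2
      obtain ⟨c1, hc1, hc1'⟩ := exists_min ci hci
      obtain ⟨c2, hc2, hc2'⟩ := exists_min cq hcq
      have hNpos : (0 : ℝ) < N := by exact_mod_cast hN
      refine ⟨min (min c0 (cd / N)) (min c1 c2), by positivity, ?_⟩
      intro Ω _ _ _ _ n
      have : Algebra.IsAlgebraic ℚ Ω := Algebra.IsAlgebraic.trans ℚ K Ω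
      induction n using Nat.strong_induction_on with
      | _ n ihn =>
      intro m ξ x α hS h0 hdeg hidx hh
      have hh0 : absLogHeight₁ α < c0 :=
        hh.trans_le ((min_le_left _ _).trans (min_le_left _ _))
      have hhd : absLogHeight₁ α < cd / N :=
        hh.trans_le ((min_le_left _ _).trans (min_le_right _ _))
      have hP : (0 : ℝ) ≤ ((∏ i, m i : ℕ) : ℝ) := Nat.cast_nonneg _
      have hmono : ∀ c' : ℝ, min (min c0 (cd / N)) (min c1 c2) ≤ c' →
          (idxD K D x : ℝ) ≤ Real.exp (c' * ((∏ i, m i : ℕ) : ℝ)) := by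
        intro c' hc'
        refine hidx.trans (Real.exp_le_exp.2 ?_)
        exact mul_le_mul_of_nonneg_right hc' hP
      by_cases hsm : ∃ i, m i < N
      · obtain ⟨i, hi⟩ := hsm
        refine inG_drop b i α (hdrop i Ω n _ ξ _ α (hS.drop i) h0 ?_ ?_ ?_)
        · refine (dgr_drop hS i α).trans ?_
          exact Nat.mul_le_mul hi.le hdeg
        · -- the index
          have h1 := idx_drop hS hb.1 i D
          have h2 := hmono (ci i) (((min_le_right _ _).trans (min_le_left _ _)).trans (hc1' i))
          have h3 : ((idxD K D (fun j => x (i.succAbove j)) : ℝ)) ^ m i ≤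
              (Real.exp (ci i * ((∏ j, m (i.succAbove j) : ℕ) : ℝ))) ^ m i := by
            have h4 : ((idxD K D (fun j => x (i.succAbove j)) : ℝ)) ^ m i ≤ idxD K D x := by
              exact_mod_cast h1
            refine h4.trans (h2.trans (le_of_eq ?_))
            rw [← Real.exp_nat_mul, Fin.prod_univ_succAbove _ i, Nat.cast_mul]
            congr 1
            ring
          have hmi : m i ≠ 0 := by have := hS.hm i; omega
          exact le_of_pow_le_pow_left₀ hmi (Real.exp_pos _).le h3
        · exact hh.trans_le (((min_le_right _ _).trans (min_le_left _ _)).trans (hc1' i))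
      · push Not at hsm
        by_cases hk : ∀ k, 1 ≤ k → k ≤ N → dgr K ξ x (α ^ k) = d + 1
        · by_cases hq : ∃ q : ℕ, q.Prime ∧ Q1 ≤ q ∧ q ≤ N ∧ q ∣ n
          · obtain ⟨q, hqp, hq1, hqN, hqn⟩ := hq
            obtain ⟨n', ξ', z, k, hk1, hz, hlt, hS', hdeg'⟩ :=
              hdq ⟨q, hqp, hq1, hqN⟩ Ω n m ξ x α hS hqn h0 hdeg
                (hh.trans_le (((min_le_right _ _).trans (min_le_right _ _)).trans
                  (hc2' ⟨q, hqp, hq1, hqN⟩)))
            have hz0 : z ≠ 0 := by
              rintro rfl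
              rw [zero_pow (by omega)] at hz
              exact zero_ne_one hz
            refine inG_of_mul b α z k hk1 hz (ihn n' hlt m ξ' x (z * α) hS'
              (mul_ne_zero hz0 h0) hdeg' hidx ?_)
            rw [height_mul_root α z k hk1 hz]
            exact hh
          · push Not at hq
            exact hcore' Ω n m ξ x α hS hsm (fun q hqp h1 h2 h3 => hq q hqp h1 h2 h3) h0 hk
              (hmono c0 ((min_le_left _ _).trans (min_le_left _ _))) hh0
        · push Not at hk
          obtain ⟨k, hk1, hkN, hkd⟩ := hk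
          have h1 := (dgr_pow_le (K := K) ξ x α k).trans hdeg
          refine inG_of_pow b α k hk1 (hd' Ω n m ξ x (α ^ k) hS (pow_ne_zero _ h0) (by omega) ?_ ?_)
          · refine hmono cd ((min_le_left _ _).trans ((min_le_right _ _).trans ?_))
            rw [div_le_iff₀ hNpos]
            have : (1 : ℝ) ≤ N := by exact_mod_cast hN
            nlinarith
          · rw [height_pow]
            rw [lt_div_iff₀ hNpos] at hhd
            have h2 : (k : ℝ) ≤ N := by exact_mod_cast hkN
            have h3 : 0 ≤ absLogHeight₁ α := by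
              exact Pool.Agent.H72.PB.ht_nonneg α
            nlinarith

end Pool.Agent.H11.BK
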