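import Mathlib

/-!
# Module Unr (MP_187c26_nt, THEOREM VK): large primes are unramified

PROOF. `differentIdeal ℤ (𝓞 K) ≠ ⊥` (`differentIdeal_ne_bot`), so it contains an integer `N ≥ 1` (for instance its norm, `Ideal.absNorm_mem`). If `p > N` is
prime, `P` maximal and `p ∈ P ^ 2`, then `P ^ 2 ∣ (span {(p : ℤ)}).map` (`Ideal.dvd_iff_le`), so `P ^ 1 ∣ differentIdeal` (`pow_sub_one_dvd_differentIdeal`,
`e = 2`), so `N ∈ P`; `p ∈ P ^ 2 ≤ P`; `p`, `N` are coprime, so `1 ∈ P`.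
-/

set_option autoImplicit false

open NumberField

namespace Pool.Agent.H11.BK

theorem unr_large (K : Type) [Field K] [NumberField K] : ∃ p₀ : ℕ, ∀ p : ℕ, p.Prime → p₀ ≤ p →
    ∀ P : Ideal (𝓞 K), P.IsMaximal → (p : 𝓞 K) ∉ P ^ 2 := by
  have h0 : differentIdeal ℤ (𝓞 K) ≠ ⊥ := differentIdeal_ne_bot
  have hN0 : Ideal.absNorm (differentIdeal ℤ (𝓞 K)) ≠ 0 := by
    rw [Ne, Ideal.absNorm_eq_zero_iff]
    exact h0
  have hNm : ((Ideal.absNorm (differentIdeal ℤ (𝓞 K)) : ℕ) : 𝓞 K) ∈ differentIdeal ℤ (𝓞 K) :=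
    Ideal.absNorm_mem _
  refine ⟨Ideal.absNorm (differentIdeal ℤ (𝓞 K)) + 1, ?_⟩
  intro p hp hpN P hP hmem
  have hp0 : (Ideal.span {(p : ℤ)}) ≠ ⊥ := by
    rw [Ne, Ideal.span_singleton_eq_bot]
    exact_mod_cast hp.ne_zero
  have hpp : (Ideal.span {(p : ℤ)}).IsPrime := by
    rw [Ideal.span_singleton_prime (by exact_mod_cast hp.ne_zero)]
    exact Nat.prime_iff_prime_int.1 hp
  have hpmax : (Ideal.span {(p : ℤ)}).IsMaximal := hpp.isMaximal hp0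
  have hdvd : P ^ 2 ∣ (Ideal.span {(p : ℤ)}).map (algebraMap ℤ (𝓞 K)) := by
    rw [Ideal.dvd_iff_le, Ideal.map_span, Ideal.span_le]
    rintro x ⟨y, hy, rfl⟩
    rw [Set.mem_singleton_iff] at hy
    subst hy
    rw [SetLike.mem_coe, map_natCast]
    exact hmem
  have h1 : P ^ (2 - 1) ∣ differentIdeal ℤ (𝓞 K) :=
    pow_sub_one_dvd_differentIdeal ℤ P 2 hp0 hdvd
  rw [show 2 - 1 = 1 from rfl, pow_one, Ideal.dvd_iff_le] at h1
  have h2 : ((Ideal.absNorm (differentIdeal ℤ (𝓞 K)) : ℕ) : 𝓞 K) ∈ P := h1 hNm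
  have h3 : (p : 𝓞 K) ∈ P := Ideal.pow_le_self two_ne_zero hmem
  have hco : Nat.Coprime p (Ideal.absNorm (differentIdeal ℤ (𝓞 K))) := by
    rw [Nat.Prime.coprime_iff_not_dvd hp]
    intro h
    have := Nat.le_of_dvd (Nat.pos_of_ne_zero hN0) h
    omega
  obtain ⟨a, b, hab⟩ := Nat.isCoprime_iff_coprime.2 hco
  apply hP.ne_top
  rw [Ideal.eq_top_iff_one]
  have h4 : (a : 𝓞 K) * (p : 𝓞 K) + (b : 𝓞 K) * ((Ideal.absNorm (differentIdeal ℤ (𝓞 K)) : ℕ) : 𝓞 K) = 1 := by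
    exact_mod_cast congrArg (fun t : ℤ => (t : 𝓞 K)) hab
  rw [← h4]
  exact P.add_mem (P.mul_mem_left _ h3) (P.mul_mem_left _ h2)

end Pool.Agent.H11.BK
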