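import Pool.Agent.H11.BK.Main
import Pool.Agent.H11.BK.InD
import Pool.Agent.H11.BK.DegL
import Pool.Agent.H11.BK.Unr

/-!
# Module Pri (MP_187c26_nt, THEOREM VK): prime exponents, no index condition

For all `b` (multiplicatively independent) and `d` there is `c > 0` with `α ∈ Γ_b` for all `α ≠ 0` of degree `≤ d` over `K(ξ, x_1, …, x_r)` with
`h(α) < c`, where `x_i ^ m_i = b_i`, every `m_i` is `1` or a prime, the `m_i` are pairwise coprime and prime to the order `n` of `ξ`.
Induction on `r`: if all `m_i ≠ 1` are large, the degree condition holds (DegL) and the index is small (InD, `W` = the set of the `m_i ≠ 1`);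
otherwise drop a small `m_i`.
-/

set_option autoImplicit false

open NumberField IntermediateField

namespace Pool.Agent.H11.BK

variable {K : Type} [Field K] [NumberField K]

/-- The theorem for prime exponents. -/
def TP (K : Type) [Field K] [NumberField K] (r : ℕ) (b : Fin r → 𝓞 K) (d : ℕ) : Prop :=
  ∃ c : ℝ, 0 < c ∧ ∀ (Ω : Type) [Field Ω] [CharZero Ω] [Algebra K Ω] [Algebra.IsAlgebraic K Ω]
    (n : ℕ) (m : Fin r → ℕ) (ξ : Ω) (x : Fin r → Ω) (α : Ω), 1 ≤ n → IsPrimitiveRoot ξ n →
    (∀ i, m i = 1 ∨ (m i).Prime) → (∀ i, Nat.Coprime n (m i)) →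
    (∀ i j, i ≠ j → Nat.Coprime (m i) (m j)) → (∀ i, x i ^ m i = algebraMap (𝓞 K) Ω (b i)) →
    α ≠ 0 → dgr K ξ x α ≤ d → absLogHeight₁ α < c → InG K b α

theorem log_div_small (ε : ℝ) (hε : 0 < ε) : ∃ p₀ : ℕ, ∀ p : ℕ, p₀ ≤ p →
    Real.log (p : ℕ) / p ≤ ε := by
  have h1 : Filter.Tendsto (fun x : ℝ => Real.log x / x) Filter.atTop (nhds 0) := by
    have h2 := Real.isLittleO_log_id_atTop.tendsto_div_nhds_zero
    exact h2
  have h2 := h1.comp tendsto_natCast_atTop_atTop
  obtain ⟨p₀, hp⟩ := Filter.eventually_atTop.1 (h2.eventually (gt_mem_nhds hε))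
  exact ⟨p₀, fun p h => (hp p h).le⟩

theorem tP (h0 : ∀ (D : ℕ), 1 ≤ D → ∀ (r : ℕ) (b : Fin r → 𝓞 K) (d : ℕ), Ind K b →
      T0 K r b D d) :
    ∀ (r : ℕ) (b : Fin r → 𝓞 K) (d : ℕ), Ind K b → TP K r b d := by
  classical
  intro r
  induction r with
  | zero =>
    intro b d hb
    obtain ⟨c, hc, h⟩ := zero b d
    obtain ⟨p₀, hp₀⟩ := deg_large b hb
    refine ⟨c, hc, ?_⟩
    intro Ω _ _ _ _ n m ξ x α hn hξ hm hcn hcm hx hα hd hh
    exact h Ω n m ξ x α (hp₀ Ω n m ξ x hn (fun i => i.elim0) hcn hξ hx hcm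
      (fun i => i.elim0)) hα hd hh
  | succ r ihr =>
    intro b d hb
    obtain ⟨E, hE1, hE⟩ := exists_Eb b hb.1
    obtain ⟨c0, hc0, hT⟩ := h0 (E * E) (Nat.mul_pos hE1 hE1) (r + 1) b d hb
    obtain ⟨p₁, hp₁⟩ := deg_large b hb
    obtain ⟨p₂, hp₂⟩ := unr_large K
    obtain ⟨p₃, hp₃⟩ := log_div_small (c0 / (Module.finrank ℚ K * (r + 1))) (by
      have : 0 < Module.finrank ℚ K := Module.finrank_pos
      positivity)
    obtain ⟨P, hP⟩ : ∃ P, P = p₁ + p₂ + p₃ + E + 2 := ⟨_, rfl⟩
    choose ci hci hdrop using fun i : Fin (r + 1) =>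
      ihr (fun j => b (i.succAbove j)) (P * d) (hb.drop i)
    obtain ⟨c1, hc1, hc1'⟩ := exists_min ci hci
    refine ⟨min c0 c1, lt_min hc0 hc1, ?_⟩
    intro Ω _ _ _ _ n m ξ x α hn hξ hm hcn hcm hx hα hd hh
    have hm1 : ∀ i, 1 ≤ m i := fun i => by
      rcases hm i with h | h
      · exact h.ge
      · exact h.one_lt.le
    by_cases hsm : ∃ i, m i < P
    · obtain ⟨i, hi⟩ := hsm
      refine inG_drop b i α (hdrop i Ω n _ ξ _ α hn hξ (fun j => hm _) (fun j => hcn _)
        (fun j k hjk => hcm _ _ fun h => hjk (Fin.succAbove_right_injective h)) (fun j => hx _)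
        hα ?_ ?_)
      · exact (dgr_drop' hm1 hx i α).trans (Nat.mul_le_mul hi.le hd)
      · exact hh.trans_le ((min_le_right _ _).trans (hc1' i))
    · push Not at hsm
      have hmp : ∀ i, (m i).Prime := fun i => by
        rcases hm i with h | h
        · have := hsm i
          omega
        · exact h
      have hmq : ∀ i p, p.Prime → p ∣ m i → p = m i := fun i p hp h =>
        (Nat.prime_dvd_prime_iff_eq hp (hmp i)).1 h
      have hS : Sys K b n m ξ x := hp₁ Ω n m ξ x hn hm1 hcn hξ hx hcm (fun i p hp h => by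
        rw [hmq i p hp h]
        have := hsm i
        omega)
      refine hT Ω n m ξ x α hS hα hd ?_ (hh.trans_le (min_le_left _ _))
      -- the index
      let W : Finset ℕ := Finset.univ.image m
      have hW : ∀ p ∈ W, ∃ i, m i = p := fun p hp => by
        obtain ⟨i, -, hi⟩ := Finset.mem_image.1 hp
        exact ⟨i, hi⟩
      have hbig : ∀ i, E < m i := fun i => by
        have := hsm i
        omega
      have h1 := idx_bound E hE1 hE hm1 hx hcm hS.deg_X W (by
        intro p hp
        obtain ⟨j, rfl⟩ := hW p hp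
        refine ⟨hmp j, ?_, ?_⟩
        · exact hp₂ _ (hmp j) (by have := hsm j; omega)
        · intro i hji
          have hij : m j = m i := hmq i _ (hmp j) hji
          refine ⟨?_, ?_⟩
          · intro h2
            rw [hij] at h2
            have h3 := Nat.le_of_dvd (hm1 i) h2
            have h4 := (hmp i).one_lt
            nlinarith
          · intro Q hQ hjQ hbQ
            have hEQ : (E : 𝓞 K) ∈ Q := by
              obtain ⟨e, he⟩ := (Finset.dvd_prod_of_mem b (Finset.mem_univ i)).trans hE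
              rw [he]
              exact Ideal.mul_mem_right _ _ hbQ
            refine not_mem_of_coprime Q hQ.isPrime (m j) E ?_ hjQ hEQ
            exact (Nat.Prime.coprime_iff_not_dvd (hmp j)).2 fun h2 => by
              have := Nat.le_of_dvd hE1 h2
              have := hbig j
              omega) (by
        intro Q _ i p hp hpm hpW _
        exact absurd (Finset.mem_image.2 ⟨i, Finset.mem_univ i, (hmq i p hp hpm).symm⟩) hpW)
      have hfr : (0 : ℝ) < Module.finrank ℚ K := by
        have : 0 < Module.finrank ℚ K := Module.finrank_pos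
        exact_mod_cast this
      have h2 : ∑ p ∈ W, Real.log (p : ℕ) / p ≤ c0 / Module.finrank ℚ K := by
        calc ∑ p ∈ W, Real.log (p : ℕ) / p ≤
              ∑ p ∈ W, c0 / (Module.finrank ℚ K * ((r : ℝ) + 1)) := by
              refine Finset.sum_le_sum fun p hp => ?_
              obtain ⟨j, rfl⟩ := hW p hp
              exact hp₃ _ (by have := hsm j; omega)
          _ = W.card * (c0 / (Module.finrank ℚ K * ((r : ℝ) + 1))) := by
              rw [Finset.sum_const, nsmul_eq_mul]
          _ ≤ ((r : ℝ) + 1) * (c0 / (Module.finrank ℚ K * ((r : ℝ) + 1))) := by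
              refine mul_le_mul_of_nonneg_right ?_ (by positivity)
              have h3 : W.card ≤ r + 1 := by
                refine Finset.card_image_le.trans ?_
                rw [Finset.card_univ, Fintype.card_fin]
              exact_mod_cast h3
          _ = c0 / Module.finrank ℚ K := by
              field_simp
      have hpos : (0 : ℝ) ≤ ∏ i, (m i : ℝ) := Finset.prod_nonneg fun i _ => Nat.cast_nonneg _
      have h3 : Real.log (idxD K (E * E) x) ≤ c0 * ((∏ i, m i : ℕ) : ℝ) := by
        rw [Nat.cast_prod]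
        refine h1.trans (mul_le_mul_of_nonneg_right ?_ hpos)
        calc (Module.finrank ℚ K : ℝ) * ∑ p ∈ W, Real.log (p : ℕ) / p ≤
              Module.finrank ℚ K * (c0 / Module.finrank ℚ K) :=
              mul_le_mul_of_nonneg_left h2 hfr.le
          _ = c0 := by field_simp
      have h4 : (0 : ℝ) < idxD K (E * E) x := by
        exact_mod_cast Nat.pos_of_ne_zero (idxD_ne hS hb.1 (E * E))
      rw [← Real.exp_log h4]
      exact Real.exp_le_exp.2 h3

end Pool.Agent.H11.BK
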