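import Pool.Agent.H11.BK.Pri
import Pool.Agent.H11.BK.DegG
import Pool.Agent.H11.BE.FamY

/-!
# Module PriG (MP_187c26_nt, THEOREM VK): pairwise coprime exponents, a bounded number of bad primes

A prime `p ∣ m_i` is GOOD if for all maximal ideals `P` of `𝓞 K` above `p`: `b_i ∉ P ^ 2` and, if `b_i ∉ P`, then `b_i` is not a `p`-th power modulo
`P ^ 2`. For all `b` (multiplicatively independent), `s`, `d` there is `c > 0` with `α ∈ Γ_b` for all `α ≠ 0` of degree `≤ d` over
`K(ξ, x_1, …, x_r)` with `h(α) < c`, where `x_i ^ m_i = b_i`, the `m_i` are pairwise coprime and prime to the order of `ξ`, and all primes dividing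
`∏ m_i` are good up to at most `s`, whose squares do not divide `∏ m_i`. Induction on `s`: if the bad primes are large, the degree condition
holds (DegG) and the index is small (InD); otherwise a small bad prime `p ∣ m_i` is removed (`m_i / p`, `x_i ^ p`; the degree of `α` is
multiplied by at most `p`). More generally the bad primes may lie in `W ∪ W'` with `card W' ≤ s` and `∑ p ∈ W, log p / p` small.
-/

set_option autoImplicit false

open NumberField IntermediateField Polynomial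

namespace Pool.Agent.H11.BK

/-- `p` is good for `b i`. -/
def GoodP {K : Type} [Field K] [NumberField K] {r : ℕ} (b : Fin r → 𝓞 K) (i : Fin r) (p : ℕ) :
    Prop :=
  ∀ P : Ideal (𝓞 K), P.IsMaximal → (p : 𝓞 K) ∈ P →
    b i ∉ P ^ 2 ∧ (b i ∉ P → ∀ c : 𝓞 K, b i - c ^ p ∉ P ^ 2)

/-- All primes dividing an `m i` are good up to the elements of a set with at most `s` elements and of a set `W` with
`∑ p ∈ W, log p / p ≤ c`; and these divide it exactly once. -/
def FewBad {K : Type} [Field K] [NumberField K] {r : ℕ} (b : Fin r → 𝓞 K) (m : Fin r → ℕ)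
    (s : ℕ) (c : ℝ) : Prop :=
  ∃ W W' : Finset ℕ, ∑ p ∈ W, Real.log (p : ℕ) / p ≤ c ∧ W'.card ≤ s ∧
    ∀ i p, p.Prime → p ∣ m i → ((p ∈ W ∨ p ∈ W') ∧ ¬ p ^ 2 ∣ m i) ∨ GoodP b i p

/-- The theorem with the constant `c`. -/
def TPGc (K : Type) [Field K] [NumberField K] (r : ℕ) (b : Fin r → 𝓞 K) (s d : ℕ) (c : ℝ) :
    Prop :=
  ∀ (Ω : Type) [Field Ω] [CharZero Ω] [Algebra K Ω] [Algebra.IsAlgebraic K Ω]
    (n : ℕ) (m : Fin r → ℕ) (ξ : Ω) (x : Fin r → Ω) (α : Ω), 1 ≤ n → IsPrimitiveRoot ξ n →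
    (∀ i, 1 ≤ m i) → (∀ i, Nat.Coprime n (m i)) →
    (∀ i j, i ≠ j → Nat.Coprime (m i) (m j)) → (∀ i, x i ^ m i = algebraMap (𝓞 K) Ω (b i)) →
    FewBad b m s c → α ≠ 0 → dgr K ξ x α ≤ d → absLogHeight₁ α < c → InG K b α

/-- The theorem. -/
def TPG (K : Type) [Field K] [NumberField K] (r : ℕ) (b : Fin r → 𝓞 K) (s d : ℕ) : Prop :=
  ∃ c : ℝ, 0 < c ∧ TPGc K r b s d c

/-- The degree if `x i` is replaced by a power. -/
theorem dgr_update {K : Type} [Field K] [NumberField K] {Ω : Type} [Field Ω] [CharZero Ω]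
    [Algebra K Ω] [Algebra.IsAlgebraic K Ω] {r : ℕ} (ξ : Ω) (x : Fin r → Ω) (i : Fin r) (p : ℕ)
    (hp : 1 ≤ p) (α : Ω) :
    dgr K ξ (Function.update x i (x i ^ p)) α ≤ p * dgr K ξ x α := by
  classical
  obtain ⟨x', hx'⟩ : ∃ x', x' = Function.update x i (x i ^ p) := ⟨_, rfl⟩
  rw [← hx']
  obtain ⟨F, hF⟩ : ∃ F, F = FF K ξ x' := ⟨_, rfl⟩
  obtain ⟨F', hF'⟩ : ∃ F', F' = FF K ξ x := ⟨_, rfl⟩
  have hti : IsIntegral F (x i) := (Algebra.IsIntegral.isIntegral (R := K) (x i)).tower_top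
  have haF : IsIntegral F α := (Algebra.IsIntegral.isIntegral (R := K) α).tower_top
  have haF' : IsIntegral F' α := (Algebra.IsIntegral.isIntegral (R := K) α).tower_top
  unfold dgr
  rw [← hF, ← hF']
  refine (Pool.Agent.H11.BE.deg_mul_le F Ω (x i) α hti haF).trans (Nat.mul_le_mul ?_ ?_)
  · have hmem : x i ^ p ∈ F := by
      rw [hF]
      refine IntermediateField.subset_adjoin K _ (Or.inr ⟨i, ?_⟩)
      rw [hx', Function.update_self]
    have h1 : aeval (x i) (X ^ p - C (⟨x i ^ p, hmem⟩ : F)) = 0 := by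
      rw [map_sub, map_pow, aeval_X, aeval_C, sub_eq_zero]
      rfl
    have h2 := natDegree_le_natDegree (minpoly.degree_le_of_ne_zero F (x i)
      (X_pow_sub_C_ne_zero (by omega) _) h1)
    rwa [natDegree_X_pow_sub_C] at h2
  · refine Pool.Agent.H11.BE.deg_le_range F' F⟮x i⟯ Ω α haF' fun k => ?_
    have hle : F' ≤ F⟮x i⟯.restrictScalars K := by
      rw [hF']
      unfold FF
      rw [IntermediateField.adjoin_le_iff]
      rintro y (hy | ⟨j, rfl⟩)
      · have h1 : y ∈ F := by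
          rw [hF]
          exact IntermediateField.subset_adjoin K _ (Or.inl hy)
        exact F⟮x i⟯.algebraMap_mem ⟨y, h1⟩
      · by_cases hji : j = i
        · rw [hji]
          exact IntermediateField.mem_adjoin_simple_self F (x i)
        · have h1 : x j ∈ F := by
            rw [hF]
            refine IntermediateField.subset_adjoin K _ (Or.inr ⟨j, ?_⟩)
            rw [hx', Function.update_of_ne hji]
          exact F⟮x i⟯.algebraMap_mem ⟨x j, h1⟩
    exact ⟨⟨_, hle ((minpoly F' α).coeff k).2⟩, rfl⟩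

theorem few_update {K : Type} [Field K] [NumberField K] {r : ℕ} {b : Fin r → 𝓞 K}
    {m : Fin r → ℕ} (hcm : ∀ i j, i ≠ j → Nat.Coprime (m i) (m j)) {s : ℕ} {c : ℝ}
    (W W' : Finset ℕ) (hWs : ∑ p ∈ W, Real.log (p : ℕ) / p ≤ c) (hWc : W'.card ≤ s)
    (hW : ∀ i p, p.Prime → p ∣ m i → ((p ∈ W ∨ p ∈ W') ∧ ¬ p ^ 2 ∣ m i) ∨ GoodP b i p)
    (i : Fin r) (p : ℕ) (hp : p.Prime) (hpm : p ∣ m i) (hpW : p ∈ W') (hp2 : ¬ p ^ 2 ∣ m i) :
    FewBad b (Function.update m i (m i / p)) (s - 1) c := by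
  classical
  have hmem : ∀ q, q ≠ p → (q ∈ W ∨ q ∈ W') → (q ∈ W ∨ q ∈ W'.erase p) := fun q hqp h =>
    h.imp_right fun h => Finset.mem_erase.2 ⟨hqp, h⟩
  refine ⟨W, W'.erase p, hWs, ?_, ?_⟩
  · rw [Finset.card_erase_of_mem hpW]
    omega
  · intro j q hq hqm
    by_cases hji : j = i
    · rw [hji] at hqm ⊢
      rw [Function.update_self] at hqm ⊢
      have hqm' : q ∣ m i := hqm.trans (Nat.div_dvd_of_dvd hpm)
      have hqp : q ≠ p := by
        intro h
        rw [h] at hqm
        apply hp2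
        rw [pow_two]
        exact (Nat.dvd_div_iff_mul_dvd hpm).1 hqm
      rcases hW i q hq hqm' with ⟨h1, h2⟩ | h1
      · exact Or.inl ⟨hmem q hqp h1, fun h => h2 (h.trans (Nat.div_dvd_of_dvd hpm))⟩
      · exact Or.inr h1
    · rw [Function.update_of_ne hji] at hqm ⊢
      have hqp : q ≠ p := by
        intro h
        rw [h] at hqm
        exact Nat.not_coprime_of_dvd_of_dvd hp.one_lt hqm hpm (hcm j i hji)
      rcases hW j q hq hqm with ⟨h1, h2⟩ | h1
      · exact Or.inl ⟨hmem q hqp h1, h2⟩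
      · exact Or.inr h1

theorem FewBad.mono {K : Type} [Field K] [NumberField K] {r : ℕ} {b : Fin r → 𝓞 K}
    {m : Fin r → ℕ} {s s' : ℕ} {c c' : ℝ} (h : FewBad b m s c) (hs : s ≤ s') (hc : c ≤ c') :
    FewBad b m s' c' := by
  obtain ⟨W, W', h1, h2, h3⟩ := h
  exact ⟨W, W', h1.trans hc, h2.trans hs, h3⟩

theorem tPG {K : Type} [Field K] [NumberField K]
    (h0 : ∀ (D : ℕ), 1 ≤ D → ∀ (r : ℕ) (b : Fin r → 𝓞 K) (d : ℕ), Ind K b →
      T0 K r b D d) (r : ℕ) (b : Fin r → 𝓞 K) (hb : Ind K b) :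
    ∀ (s d : ℕ), TPG K r b s d := by
  classical
  intro s
  induction s using Nat.strong_induction_on with
  | _ s ih =>
  intro d
  obtain ⟨E, hE1, hE⟩ := exists_Eb b hb.1
  obtain ⟨c0, hc0, hT⟩ := h0 (E * E) (Nat.mul_pos hE1 hE1) r b d hb
  obtain ⟨p₁, hp₁⟩ := deg_gen b hb
  obtain ⟨p₂, hp₂⟩ := unr_large K
  have hfr : (0 : ℝ) < Module.finrank ℚ K := by
    have : 0 < Module.finrank ℚ K := Module.finrank_pos
    exact_mod_cast this
  obtain ⟨p₃, hp₃⟩ := log_div_small (c0 / 2 / (Module.finrank ℚ K * (s + 1))) (by positivity)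
  obtain ⟨P, hP⟩ : ∃ P, P = p₁ + p₂ + p₃ + E + 2 := ⟨_, rfl⟩
  have hPpos : (0 : ℝ) < P := by
    have : 0 < P := by omega
    exact_mod_cast this
  obtain ⟨c1, hc1, hc1'⟩ : ∃ c1 : ℝ, 0 < c1 ∧ (1 ≤ s → TPGc K r b (s - 1) (P * d) c1) := by
    by_cases hs : 1 ≤ s
    · obtain ⟨c1, hc1, h⟩ := ih (s - 1) (by omega) (P * d)
      exact ⟨c1, hc1, fun _ => h⟩
    · exact ⟨1, one_pos, fun h => absurd h hs⟩
  obtain ⟨c2, hc2⟩ : ∃ c2 : ℝ, c2 = c0 / 2 / Module.finrank ℚ K := ⟨_, rfl⟩
  obtain ⟨c3, hc3⟩ : ∃ c3 : ℝ, c3 = Real.log 2 / P := ⟨_, rfl⟩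
  have hc2' : 0 < c2 := by
    rw [hc2]
    positivity
  have hc3' : 0 < c3 := by
    rw [hc3]
    exact div_pos (Real.log_pos one_lt_two) hPpos
  refine ⟨min (min c0 c1) (min c2 c3), lt_min (lt_min hc0 hc1) (lt_min hc2' hc3'), ?_⟩
  intro Ω _ _ _ _ n m ξ x α hn hξ hm1 hcn hcm hx hfew hα hd hh
  obtain ⟨W, W', hWs, hWc, hW⟩ := hfew
  have hW0 : ∀ p ∈ W, 0 ≤ Real.log (p : ℕ) / p := fun p _ =>
    div_nonneg (Real.log_natCast_nonneg p) (Nat.cast_nonneg _)
  -- the elements of `W` are large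
  have hWl : ∀ p ∈ W, p.Prime → P ≤ p := by
    intro p hp hpp
    by_contra hlt
    push Not at hlt
    have h1 : Real.log (p : ℕ) / p ≤ c3 :=
      (Finset.single_le_sum hW0 hp).trans (hWs.trans ((min_le_right _ _).trans (min_le_right _ _)))
    have h2 : (0 : ℝ) < p := by exact_mod_cast hpp.pos
    have h3 : Real.log 2 ≤ Real.log (p : ℕ) :=
      Real.log_le_log (by norm_num) (by exact_mod_cast hpp.two_le)
    have h4 : Real.log 2 / P < Real.log 2 / p :=
      div_lt_div_of_pos_left (Real.log_pos one_lt_two) h2 (by exact_mod_cast hlt)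
    have h5 : Real.log 2 / p ≤ Real.log (p : ℕ) / p := div_le_div_of_nonneg_right h3 h2.le
    rw [hc3] at h1
    linarith
  by_cases hsm : ∃ i p, p.Prime ∧ p ∣ m i ∧ p < P ∧ p ∈ W' ∧ ¬ p ^ 2 ∣ m i
  · obtain ⟨i, p, hp, hpm, hpP, hpW, hp2⟩ := hsm
    have hs : 1 ≤ s := by
      have := Finset.card_pos.2 ⟨p, hpW⟩
      omega
    have hmi : 1 ≤ m i / p := Nat.div_pos (Nat.le_of_dvd (hm1 i) hpm) hp.pos
    refine hc1' hs Ω n (Function.update m i (m i / p)) ξ (Function.update x i (x i ^ p)) α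
      hn hξ ?_ ?_ ?_ ?_ ((few_update hcm W W' hWs hWc hW i p hp hpm hpW hp2).mono le_rfl
        ((min_le_left _ _).trans (min_le_right _ _))) hα ?_
      (hh.trans_le ((min_le_left _ _).trans (min_le_right _ _)))
    · intro j
      by_cases hji : j = i
      · rw [hji, Function.update_self]
        exact hmi
      · rw [Function.update_of_ne hji]
        exact hm1 j
    · intro j
      by_cases hji : j = i
      · rw [hji, Function.update_self]
        exact Nat.Coprime.coprime_dvd_right (Nat.div_dvd_of_dvd hpm) (hcn i)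
      · rw [Function.update_of_ne hji]
        exact hcn j
    · intro j k hjk
      by_cases hji : j = i
      · have hki : k ≠ i := fun h => hjk (hji.trans h.symm)
        rw [hji, Function.update_self, Function.update_of_ne hki]
        exact Nat.Coprime.coprime_dvd_left (Nat.div_dvd_of_dvd hpm) (hcm i k hki.symm)
      · rw [Function.update_of_ne hji]
        by_cases hki : k = i
        · rw [hki, Function.update_self]
          exact Nat.Coprime.coprime_dvd_right (Nat.div_dvd_of_dvd hpm) (hcm j i hji)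
        · rw [Function.update_of_ne hki]
          exact hcm j k hjk
    · intro j
      by_cases hji : j = i
      · rw [hji, Function.update_self, Function.update_self, ← pow_mul,
          Nat.mul_div_cancel' hpm, hx]
      · rw [Function.update_of_ne hji, Function.update_of_ne hji]
        exact hx j
    · exact (dgr_update ξ x i p hp.one_lt.le α).trans (Nat.mul_le_mul hpP.le hd)
  · have hlarge : ∀ i p, p.Prime → p ∣ m i → p < P → GoodP b i p := by
      intro i p hp hpm hpP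
      rcases hW i p hp hpm with ⟨h1 | h1, h2⟩ | h1
      · have := hWl p h1 hp
        omega
      · exact absurd ⟨i, p, hp, hpm, hpP, h1, h2⟩ hsm
      · exact h1
    have hS : Sys K b n m ξ x := hp₁ Ω n m ξ x hn hm1 hcn hξ hx hcm (fun i p hp h => by
      by_cases h1 : p < P
      · exact Or.inr (hlarge i p hp h h1)
      · refine Or.inl ?_
        omega)
    refine hT Ω n m ξ x α hS hα hd ?_
      (hh.trans_le ((min_le_left _ _).trans (min_le_left _ _)))
    obtain ⟨T, hT'⟩ : ∃ T : Finset ℕ, T = (W ∪ W').filter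
        (fun p => p.Prime ∧ P ≤ p ∧ ∀ i, p ∣ m i → ¬ p ^ 2 ∣ m i) := ⟨_, rfl⟩
    have hmem : ∀ p, p ∈ T ↔ (p ∈ W ∨ p ∈ W') ∧ p.Prime ∧ P ≤ p ∧
        ∀ i, p ∣ m i → ¬ p ^ 2 ∣ m i := by
      intro p
      rw [hT', Finset.mem_filter, Finset.mem_union]
    have h1 := idx_bound E hE1 hE hm1 hx hcm hS.deg_X T (by
      intro p hp
      obtain ⟨-, hpp, hpP, hp2⟩ := (hmem p).1 hp
      refine ⟨hpp, hp₂ p hpp (by omega), fun i hpi => ⟨hp2 i hpi, ?_⟩⟩
      intro Q hQ hjQ hbQ
      have hEQ : (E : 𝓞 K) ∈ Q := by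
        obtain ⟨e, he⟩ := (Finset.dvd_prod_of_mem b (Finset.mem_univ i)).trans hE
        rw [he]
        exact Ideal.mul_mem_right _ _ hbQ
      refine not_mem_of_coprime Q hQ.isPrime p E ?_ hjQ hEQ
      exact (Nat.Prime.coprime_iff_not_dvd hpp).2 fun h2 => by
        have := Nat.le_of_dvd hE1 h2
        omega) (by
      intro Q hQ i p hp hpm hpW hpQ
      by_cases hpP : p < P
      · exact hlarge i p hp hpm hpP Q hQ hpQ
      · rcases hW i p hp hpm with ⟨h1, h2⟩ | h1
        · exfalso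
          apply hpW
          refine (hmem p).2 ⟨h1, hp, by omega, fun j hpj => ?_⟩
          have hji : j = i := by
            by_contra hne
            exact Nat.not_coprime_of_dvd_of_dvd hp.one_lt hpj hpm (hcm j i hne)
          rw [hji]
          exact h2
        · exact h1 Q hQ hpQ)
    have h2 : ∑ p ∈ T, Real.log (p : ℕ) / p ≤ c0 / Module.finrank ℚ K := by
      have hsub : T ⊆ W ∪ W'.filter (fun p => P ≤ p) := by
        intro p hp
        obtain ⟨h3, -, hpP, -⟩ := (hmem p).1 hp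
        rw [Finset.mem_union, Finset.mem_filter]
        exact h3.imp_right fun h => ⟨h, hpP⟩
      have hn0 : ∀ p : ℕ, 0 ≤ Real.log (p : ℕ) / p := fun p =>
        div_nonneg (Real.log_natCast_nonneg p) (Nat.cast_nonneg _)
      calc ∑ p ∈ T, Real.log (p : ℕ) / p ≤
            ∑ p ∈ W ∪ W'.filter (fun p => P ≤ p), Real.log (p : ℕ) / p :=
            Finset.sum_le_sum_of_subset_of_nonneg hsub fun p _ _ => hn0 p
        _ ≤ ∑ p ∈ W, Real.log (p : ℕ) / p +
            ∑ p ∈ W'.filter (fun p => P ≤ p), Real.log (p : ℕ) / p := by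
            rw [← Finset.sum_union_inter]
            have h3 : 0 ≤ ∑ p ∈ W ∩ W'.filter (fun p => P ≤ p), Real.log (p : ℕ) / p :=
              Finset.sum_nonneg fun p _ => hn0 p
            linarith
        _ ≤ c0 / 2 / Module.finrank ℚ K + ∑ p ∈ W'.filter (fun p => P ≤ p),
              c0 / 2 / (Module.finrank ℚ K * ((s : ℝ) + 1)) := by
            refine add_le_add ?_ (Finset.sum_le_sum fun p hp => ?_)
            · rw [← hc2]
              exact hWs.trans ((min_le_right _ _).trans (min_le_left _ _))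
            · have hpP := (Finset.mem_filter.1 hp).2
              exact hp₃ _ (by omega)
        _ ≤ c0 / 2 / Module.finrank ℚ K +
              ((s : ℝ) + 1) * (c0 / 2 / (Module.finrank ℚ K * ((s : ℝ) + 1))) := by
            rw [Finset.sum_const, nsmul_eq_mul]
            refine add_le_add le_rfl (mul_le_mul_of_nonneg_right ?_ (by positivity))
            have h3 : (W'.filter (fun p => P ≤ p)).card ≤ s + 1 :=
              ((Finset.card_filter_le _ _).trans hWc).trans (by omega)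
            exact_mod_cast h3
        _ = c0 / Module.finrank ℚ K := by
            field_simp
            ring
    have hpos : (0 : ℝ) ≤ ∏ i, (m i : ℝ) := Finset.prod_nonneg fun i _ => Nat.cast_nonneg _
    have h3 : Real.log (idxD K (E * E) x) ≤ c0 * ((∏ i, m i : ℕ) : ℝ) := by
      rw [Nat.cast_prod]
      refine h1.trans (mul_le_mul_of_nonneg_right ?_ hpos)
      calc (Module.finrank ℚ K : ℝ) * ∑ p ∈ T, Real.log (p : ℕ) / p ≤
            Module.finrank ℚ K * (c0 / Module.finrank ℚ K) :=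
            mul_le_mul_of_nonneg_left h2 hfr.le
        _ = c0 := by field_simp
    have h4 : (0 : ℝ) < idxD K (E * E) x := by
      exact_mod_cast Nat.pos_of_ne_zero (idxD_ne hS hb.1 (E * E))
    rw [← Real.exp_log h4]
    exact Real.exp_le_exp.2 h3

end Pool.Agent.H11.BK
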