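import Mathlib

/-!
# Module UnrA (MP_187c26_nt, THEOREM VK): `K(ξ) / K` is unramified at the primes which do not divide the order of `ξ`

PROOF. `P = Q ∩ 𝓞 K`. Suppose `z ∈ 𝓞 K`, `z ∈ Q ^ 2`, `z ∉ P ^ 2` (`z ∈ P` is clear). `z ≠ 0`, `(z) = P J`, `P ∤ J` (Dedekind: `P ∣ (z)`, not
`P ^ 2 ∣ (z)`). `Q ^ 2 ∣ z 𝓞 A = (P 𝓞 A) (J 𝓞 A)` and `Q ∤ J 𝓞 A` (otherwise `J ≤ Q ∩ 𝓞 K = P`), so `Q ^ 2 ∣ P 𝓞 A`. So `Q ∣ differentIdeal (𝓞 K) (𝓞 A)`
(`pow_sub_one_dvd_differentIdeal`, `e = 2`). With `θ = ξ` (integral, generates `A / K`): the different contains `aeval θ (derivative g)`, `g` the minimal polynomial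
of `ξ` over `𝓞 K` (`aeval_derivative_mem_differentIdeal` or the trace dual of `𝓞 K [ξ]`), and this divides `n ξ ^ (n - 1)`, as `g ∣ X ^ n - 1`. So `n ∈ Q`; `p ∈ Q` and
`p ∤ n` give `1 ∈ Q`.
-/

set_option autoImplicit false

open NumberField IntermediateField

namespace Pool.Agent.H11.BK

theorem unr_rel {K A : Type} [Field K] [NumberField K] [Field A] [NumberField A] [Algebra K A]
    (n : ℕ) (hn : 1 ≤ n) (ξ : A) (hξ : ξ ^ n = 1) (hgen : IntermediateField.adjoin K {ξ} = ⊤)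
    (Q : Ideal (𝓞 A)) (hQ : Q.IsMaximal) (p : ℕ) (hp : p.Prime) (hpQ : (p : 𝓞 A) ∈ Q)
    (hpn : ¬ p ∣ n) (z : 𝓞 K) (hz : algebraMap (𝓞 K) (𝓞 A) z ∈ Q ^ 2) :
    z ∈ (Q.comap (algebraMap (𝓞 K) (𝓞 A))) ^ 2 := by
  obtain ⟨P, hPd⟩ : ∃ P, P = Q.comap (algebraMap (𝓞 K) (𝓞 A)) := ⟨_, rfl⟩
  rw [← hPd]
  have hQp : Q.IsPrime := hQ.isPrime
  have hQ0 : Q ≠ ⊥ := by
    rintro rfl
    rw [Ideal.mem_bot] at hpQ
    exact hp.ne_zero (by exact_mod_cast hpQ)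
  have hpP : (p : 𝓞 K) ∈ P := by
    rw [hPd, Ideal.mem_comap, map_natCast]
    exact hpQ
  have hP0 : P ≠ ⊥ := by
    rintro rfl
    rw [Ideal.mem_bot] at hpP
    exact hp.ne_zero (by exact_mod_cast hpP)
  have hPp : P.IsPrime := by
    rw [hPd]
    exact Ideal.comap_isPrime _ _
  have hPm : P.IsMaximal := hPp.isMaximal hP0
  by_contra hcon
  -- the different
  have hdvd : Q ^ 2 ∣ P.map (algebraMap (𝓞 K) (𝓞 A)) := by
    have hzP : z ∈ P := by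
      rw [hPd, Ideal.mem_comap]
      exact Ideal.pow_le_self two_ne_zero hz
    obtain ⟨J, hJ⟩ : P ∣ Ideal.span {z} := by
      rw [Ideal.dvd_iff_le, Ideal.span_singleton_le_iff_mem]
      exact hzP
    have hPJ : ¬ P ∣ J := by
      rintro ⟨J', rfl⟩
      apply hcon
      have h1 : P ^ 2 ∣ Ideal.span {z} := ⟨J', by rw [hJ, pow_two, mul_assoc]⟩
      rwa [Ideal.dvd_iff_le, Ideal.span_singleton_le_iff_mem] at h1
    have h2 : Q ^ 2 ∣ P.map (algebraMap (𝓞 K) (𝓞 A)) * J.map (algebraMap (𝓞 K) (𝓞 A)) := by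
      rw [← Ideal.map_mul, ← hJ, Ideal.map_span, Set.image_singleton, Ideal.dvd_iff_le,
        Ideal.span_singleton_le_iff_mem]
      exact hz
    refine (Ideal.prime_of_isPrime hQ0 hQp).pow_dvd_of_dvd_mul_right 2 (fun h3 => hPJ ?_) h2
    rw [Ideal.dvd_iff_le] at h3 ⊢
    rw [hPd]
    exact Ideal.map_le_iff_le_comap.1 h3
  have hdiff : Q ^ (2 - 1) ∣ differentIdeal (𝓞 K) (𝓞 A) :=
    pow_sub_one_dvd_differentIdeal (𝓞 K) Q 2 hP0 hdvd
  rw [show 2 - 1 = 1 from rfl, pow_one, Ideal.dvd_iff_le] at hdiff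
  -- the derivative
  have hint : IsIntegral ℤ ξ := IsIntegral.of_pow (n := n) (by omega) (by
    rw [hξ]
    exact isIntegral_one)
  obtain ⟨w, hw⟩ : ∃ w : 𝓞 A, algebraMap (𝓞 A) A w = ξ := ⟨⟨ξ, hint⟩, rfl⟩
  have hwn : w ^ n = 1 := by
    apply FaithfulSMul.algebraMap_injective (𝓞 A) A
    rw [map_pow, hw, hξ, map_one]
  have hadj : Algebra.adjoin K {algebraMap (𝓞 A) A w} = ⊤ := by
    rw [hw, ← IntermediateField.adjoin_simple_toSubalgebra_of_isAlgebraic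
      (Algebra.IsAlgebraic.isAlgebraic ξ), hgen, IntermediateField.top_toSubalgebra]
  have hmem := hdiff (aeval_derivative_mem_differentIdeal (𝓞 K) K A w hadj)
  have hwi : IsIntegral (𝓞 K) w := Algebra.IsIntegral.isIntegral w
  obtain ⟨h, hh⟩ : minpoly (𝓞 K) w ∣ (Polynomial.X ^ n - 1 : Polynomial (𝓞 K)) := by
    refine minpoly.isIntegrallyClosed_dvd hwi ?_
    rw [map_sub, map_pow, Polynomial.aeval_X, map_one, hwn, sub_self]
  have hder := congrArg (fun f => Polynomial.aeval w (Polynomial.derivative f)) hh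
  simp only [Polynomial.derivative_sub, Polynomial.derivative_X_pow, Polynomial.derivative_one, sub_zero,
    Polynomial.derivative_mul, map_add, map_mul, minpoly.aeval, zero_mul, add_zero, map_pow,
    Polynomial.aeval_X, map_natCast] at hder
  have hnQ : (n : 𝓞 A) ∈ Q := by
    have h1 : (n : 𝓞 A) * w ^ (n - 1) ∈ Q := by
      rw [hder]
      exact Q.mul_mem_right _ hmem
    have h2 : (n : 𝓞 A) = (n : 𝓞 A) * w ^ (n - 1) * w := by
      rw [mul_assoc, ← pow_succ, Nat.sub_add_cancel hn, hwn, mul_one]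
    rw [h2]
    exact Q.mul_mem_right _ h1
  obtain ⟨a, b, hab⟩ := Nat.isCoprime_iff_coprime.2 ((Nat.Prime.coprime_iff_not_dvd hp).2 hpn)
  apply hQ.ne_top
  rw [Ideal.eq_top_iff_one]
  have h4 : (a : 𝓞 A) * (p : 𝓞 A) + (b : 𝓞 A) * (n : 𝓞 A) = 1 := by
    exact_mod_cast congrArg (fun t : ℤ => (t : 𝓞 A)) hab
  rw [← h4]
  exact Q.add_mem (Q.mul_mem_left _ hpQ) (Q.mul_mem_left _ hnQ)

end Pool.Agent.H11.BK
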