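import Pool.Agent.H11.BK.Drop
import Pool.Agent.H11.BK.DescK
import Pool.Agent.H11.TH.IfaceK

/-!
# Module Zero (MP_187c26_nt, THEOREM VK): no radicals (`r = 0`)

For every `d` there is `c > 0` such that every `α ≠ 0` of degree `≤ d` over `K(ξ)`, `ξ` a root of unity, with `h(α) < c` is a root of unity.
Port of H11/BE/Zero; `bdd_lehmer` for `Λ = ⊥`, `S = ∅`.
-/

set_option autoImplicit false

open Polynomial NumberField IntermediateField

namespace Pool.Agent.H11.BK

private theorem zero_mem {K : Type} [Field K] [NumberField K] {Ω : Type} [Field Ω] [CharZero Ω]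
    [Algebra K Ω] (τ : Ω →ₐ[K] AlgebraicClosure K) (n : ℕ) (hn : 1 ≤ n) (ξ : Ω) (hξ : ξ ^ n = 1) (x : Fin 0 → Ω) (c : Ω)
    (hc : c ∈ FF K ξ x) :
    τ c ∈ Pool.Agent.H11.TH.N₀ K (⊥ : Subgroup (AlgebraicClosure K)ˣ) (∅ : Finset ℕ) := by
  have h1 : FF K ξ x ≤
      (Pool.Agent.H11.TH.N₀ K (⊥ : Subgroup (AlgebraicClosure K)ˣ) (∅ : Finset ℕ)).comap τ := by
    unfold FF
    rw [IntermediateField.adjoin_le_iff]
    rintro y (hy | ⟨i, _⟩)
    · have hy' : y = ξ := hy
      rw [hy']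
      have h2 : τ ξ ∈ Pool.Agent.H11.TH.N₀ K (⊥ : Subgroup (AlgebraicClosure K)ˣ) (∅ : Finset ℕ) := by
        have h0 : ξ ≠ 0 := by
          rintro rfl
          rw [zero_pow (by omega)] at hξ
          exact zero_ne_one hξ
        have h0' : τ ξ ≠ 0 := by rw [Ne, map_eq_zero]; exact h0
        refine IntermediateField.subset_adjoin K _ ⟨Units.mk0 (τ ξ) h0', ?_, rfl⟩
        refine ⟨1, le_rfl, fun q hq h => ?_, (Units.mk0 (τ ξ) h0')⁻¹, ⟨n, hn, ?_⟩, ?_⟩
        · exact absurd (Nat.dvd_one.1 h) hq.one_lt.ne'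
        · rw [inv_pow, inv_eq_one]
          apply Units.ext
          rw [Units.val_pow_eq_pow_val, Units.val_mk0, ← map_pow, hξ, map_one, Units.val_one]
        · rw [pow_one, mul_inv_cancel]
          exact Subgroup.one_mem _
      exact h2
    · exact i.elim0
  exact h1 hc

theorem zero {K : Type} [Field K] [NumberField K] (b : Fin 0 → 𝓞 K) (d : ℕ) :
    ∃ c : ℝ, 0 < c ∧ ∀ (Ω : Type) [Field Ω] [CharZero Ω] [Algebra K Ω]
    [Algebra.IsAlgebraic K Ω] (n : ℕ) (m : Fin 0 → ℕ) (ξ : Ω) (x : Fin 0 → Ω) (α : Ω),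
    Sys K b n m ξ x → α ≠ 0 → dgr K ξ x α ≤ d → absLogHeight₁ α < c → InG K b α := by
  obtain ⟨c, hc, h⟩ := Pool.Agent.H11.TH.bdd_lehmer (K := K) (Ω := AlgebraicClosure K) ⊥
    ⟨∅, by simp⟩ (∅ : Finset ℕ) (by simp) d
  refine ⟨c, hc, ?_⟩
  intro Ω _ _ _ _ n m ξ x α hs hα hd hh
  have hαQ : IsIntegral ℚ α :=
    isIntegral_trans (R := ℚ) (A := K) α (Algebra.IsIntegral.isIntegral α)
  let τ : Ω →ₐ[K] AlgebraicClosure K := IsAlgClosed.lift
  have hα' : τ α ≠ 0 := by rw [Ne, map_eq_zero]; exact hα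
  have hint : IsIntegral (FF K ξ x) α := (Algebra.IsIntegral.isIntegral (R := K) α).tower_top
  have hdg : Pool.Agent.H72.PB.dg (Pool.Agent.H11.TH.N₀ K (⊥ : Subgroup (AlgebraicClosure K)ˣ) (∅ : Finset ℕ))
      (τ α) ≤ d := by
    let f : FF K ξ x →+* AlgebraicClosure K := (τ : Ω →+* AlgebraicClosure K).comp (algebraMap (FF K ξ x) Ω)
    have h1 := Pool.Agent.H72.PB.dg_le_of_poly
      (L := Pool.Agent.H11.TH.N₀ K (⊥ : Subgroup (AlgebraicClosure K)ˣ) (∅ : Finset ℕ)) (y := τ α)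
      ((minpoly (FF K ξ x) α).map f)
      (by rw [Ne, Polynomial.map_eq_zero]; exact minpoly.ne_zero hint)
      (fun i => by
        rw [Polynomial.coeff_map]
        exact zero_mem τ n hs.hn ξ hs.prim.pow_eq_one x _ ((minpoly (FF K ξ x) α).coeff i).2)
      (by
        rw [Polynomial.eval_map]
        have h2 := Polynomial.hom_eval₂ (minpoly (FF K ξ x) α) (algebraMap (FF K ξ x) Ω) (τ : Ω →+* AlgebraicClosure K) α
        have h3 : Polynomial.eval₂ (algebraMap (FF K ξ x) Ω) α (minpoly (FF K ξ x) α) = 0 := minpoly.aeval _ _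
        rw [h3, map_zero] at h2
        exact h2.symm)
    rw [Polynomial.natDegree_map] at h1
    exact h1.trans hd
  have hht : absLogHeight₁ (τ α) = absLogHeight₁ α :=
    (height_map (τ : Ω →+* AlgebraicClosure K) α hαQ).1
  by_contra hcon
  have h4 := h (Units.mk0 (τ α) hα') (fun k hk hmem => ?_) hdg
  · rw [Units.val_mk0, hht] at h4
    exact absurd hh (not_lt.2 h4)
  · apply hcon
    refine ⟨k, hk, fun i => i.elim0, ?_⟩
    rw [Finset.univ_eq_empty, Finset.prod_empty]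
    have h5 := congrArg Units.val (Subgroup.mem_bot.1 hmem)
    rw [Units.val_pow_eq_pow_val, Units.val_mk0, Units.val_one, ← map_pow] at h5
    exact (τ : Ω →+* AlgebraicClosure K).injective (h5.trans (map_one τ).symm)

end Pool.Agent.H11.BK
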